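import Pool.Agent.MAC.Defs

/-!
# MAC/Bas: small facts   (difficulty 1)

* `cr_sub`: for `A ⊆ E`, `cr A C D = A ∩ cr E C D`.
* `card_cr`: for disjoint `C`, `D` the map `(c, d) ↦ s(c, d)` is injective on `C × D`.
* `nbr_ge`: let `D = (Q ∪ nbr E Q)ᶜ`.  If `D` is nonempty then `cr E Q D = ∅` and `(Q ∪ D)ᶜ = nbr E Q`, so `K ≤ |nbr E Q|`.
  If `D = ∅` then `nbr E Q = Qᶜ` has `card V - |Q| ≥ K` elements.
* `deg_ge`: `nbr_ge` for `Q = {v}` (`K < card V`).
* `deg_le`: if `cr A C D = ∅` and `v ∈ C`, then `nbr A {v} ⊆ (C \ {v}) ∪ (C ∪ D)ᶜ`.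
-/

namespace Pool.Agent.MAC

open Finset

variable {V : Type} [Fintype V] [DecidableEq V]

theorem cr_sub {A E : Finset (Sym2 V)} (h : A ⊆ E) (C D : Finset V) :
    cr A C D = A ∩ cr E C D := by
  ext e
  unfold cr
  rw [mem_filter, mem_inter, mem_filter]
  exact ⟨fun h1 => ⟨h1.1, h h1.1, h1.2⟩, fun h1 => ⟨h1.1, h1.2.2⟩⟩

theorem cr_comm (E : Finset (Sym2 V)) (C D : Finset V) : cr E C D = cr E D C := by
  ext e
  unfold cr
  rw [mem_filter, mem_filter]
  constructor
  · rintro ⟨h, c, hc, d, hd, he⟩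
    exact ⟨h, d, hd, c, hc, by rw [Sym2.eq_swap]; exact he⟩
  · rintro ⟨h, c, hc, d, hd, he⟩
    exact ⟨h, d, hd, c, hc, by rw [Sym2.eq_swap]; exact he⟩

theorem mem_cr {E : Finset (Sym2 V)} {C D : Finset V} {c d : V} (hc : c ∈ C) (hd : d ∈ D)
    (h : s(c, d) ∈ E) : s(c, d) ∈ cr E C D := by
  unfold cr
  rw [mem_filter]
  exact ⟨h, c, hc, d, hd, rfl⟩

theorem card_cr (E : Finset (Sym2 V)) {C D : Finset V} (h : Disjoint C D) :
    (cr E C D).card = ((C ×ˢ D).filter (fun q => s(q.1, q.2) ∈ E)).card := by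
  symm
  refine card_bij (fun q _ => s(q.1, q.2)) ?_ ?_ ?_
  · intro q hq
    rw [mem_filter, mem_product] at hq
    exact mem_cr hq.1.1 hq.1.2 hq.2
  · rintro ⟨a, b⟩ hq ⟨a', b'⟩ hq' he
    rw [mem_filter, mem_product] at hq hq'
    rw [Sym2.eq_iff] at he
    rcases he with ⟨h1, h2⟩ | ⟨h1, h2⟩
    · exact Prod.ext h1 h2
    · exfalso
      have h3 : a ∈ C := hq.1.1
      have h4 : b' ∈ D := hq'.1.2
      have h5 : a = b' := h1
      rw [h5] at h3
      exact disjoint_left.1 h h3 h4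
  · intro e he
    unfold cr at he
    rw [mem_filter] at he
    obtain ⟨h1, c, hc, d, hd, h2⟩ := he
    refine ⟨(c, d), ?_, h2⟩
    rw [mem_filter, mem_product]
    exact ⟨⟨hc, hd⟩, by rw [h2]; exact h1⟩

theorem nbr_ge {E : Finset (Sym2 V)} {K : ℕ} (hE : KC E K) {Q : Finset V} (hQ : Q.Nonempty)
    (h : Q.card + K ≤ Fintype.card V) : K ≤ (nbr E Q).card := by
  obtain ⟨D, hD⟩ : ∃ D, D = (Q ∪ nbr E Q)ᶜ := ⟨_, rfl⟩
  have hdisj : Disjoint Q (nbr E Q) := by
    rw [disjoint_left]
    intro y hy hy'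
    unfold nbr at hy'
    rw [mem_filter] at hy'
    exact hy'.2.1 hy
  rcases D.eq_empty_or_nonempty with h0 | h0
  · have h1 : Q ∪ nbr E Q = univ := by
      rw [h0] at hD
      exact (compl_eq_empty_iff _).1 hD.symm
    have h2 : Q.card + (nbr E Q).card = Fintype.card V := by
      rw [← card_union_of_disjoint hdisj, h1, card_univ]
    omega
  · have h3 : Disjoint Q D := by
      rw [hD, disjoint_left]
      intro y hy hy'
      rw [mem_compl, mem_union] at hy'
      exact hy' (Or.inl hy)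
    have h4 : cr E Q D = ∅ := by
      rw [eq_empty_iff_forall_notMem]
      intro e he
      unfold cr at he
      rw [mem_filter] at he
      obtain ⟨h5, c, hc, d, hd, h6⟩ := he
      rw [hD, mem_compl, mem_union] at hd
      apply hd
      right
      unfold nbr
      rw [mem_filter]
      refine ⟨mem_univ _, fun h7 => hd (Or.inl h7), c, hc, ?_⟩
      rw [Sym2.eq_swap, h6]
      exact h5
    have h5 := hE.2 Q D h3 hQ h0 h4
    have h6 : (Q ∪ D)ᶜ = nbr E Q := by
      ext y
      rw [mem_compl, mem_union, hD, mem_compl, mem_union]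
      constructor
      · intro h7
        by_contra h8
        apply h7
        by_cases h9 : y ∈ Q
        · exact Or.inl h9
        · right
          rintro (h10 | h10)
          · exact h9 h10
          · exact h8 h10
      · rintro h7 (h8 | h8)
        · exact disjoint_left.1 hdisj h8 h7
        · exact h8 (Or.inr h7)
    rw [h6] at h5
    exact h5

theorem deg_ge {E : Finset (Sym2 V)} {K : ℕ} (hE : KC E K) (v : V) : K ≤ (nbr E {v}).card := by
  refine nbr_ge hE (singleton_nonempty v) ?_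
  rw [card_singleton]
  have := hE.1
  omega

theorem deg_le {A : Finset (Sym2 V)} {C D : Finset V} (h : cr A C D = ∅) {v : V} (hv : v ∈ C) :
    (nbr A {v}).card + 1 ≤ C.card + ((C ∪ D)ᶜ).card := by
  have h1 : nbr A {v} ⊆ (C.erase v) ∪ (C ∪ D)ᶜ := by
    intro y hy
    unfold nbr at hy
    rw [mem_filter] at hy
    obtain ⟨-, h2, z, h3, h4⟩ := hy
    rw [mem_singleton] at h3
    subst h3
    rw [mem_singleton] at h2
    rw [mem_union, mem_erase, mem_compl, mem_union]
    by_cases h5 : y ∈ C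
    · exact Or.inl ⟨h2, h5⟩
    · right
      rintro (h6 | h6)
      · exact h5 h6
      · have h7 : s(z, y) ∈ cr A C D := mem_cr hv h6 (by rw [Sym2.eq_swap]; exact h4)
        rw [h] at h7
        exact notMem_empty _ h7
  have h2 := (card_le_card h1).trans (card_union_le _ _)
  rw [card_erase_of_mem hv] at h2
  have h3 : 0 < C.card := card_pos.2 ⟨v, hv⟩
  omega

end Pool.Agent.MAC
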