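import Mathlib

/-!
# MAC/Cnt: numerical bound for the number of total functions   (difficulty 1)

`log 2 · Nat.log 2 a ≤ log a` (`2^(Nat.log 2 a) ≤ a`), so `Nat.log 2 ((n+1)^(2^N)) ≤ 2^N log (n+1) / log 2 ≤ 2^N L / log 2` (`n + 1 ≤ 2 n`), and
`log (2 n + 1) ≤ 2 L` (`2 n + 1 ≤ (2 n)²`).  So the logarithm of the left side is `≤ 2^N (L / log 2) (2 L) ≤ 3 · 2^N L²` (`log 2 > 0.6931 > 2/3`).
-/

namespace Pool.Agent.MAC

theorem cnt (n N : ℕ) (hn : 1 ≤ n) :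
    (((2 * n + 1) ^ (Nat.log 2 ((n + 1) ^ (2 ^ N))) : ℕ) : ℝ) ≤
      Real.exp (3 * 2 ^ N * (Real.log (2 * (n : ℝ))) ^ 2) := by
  set k := Nat.log 2 ((n + 1) ^ (2 ^ N)) with hk
  have hn' : (1 : ℝ) ≤ n := by exact_mod_cast hn
  set L := Real.log (2 * (n : ℝ)) with hL
  have hLpos : 0 < L := Real.log_pos (by linarith)
  have h1 : (2 : ℝ) ^ k ≤ ((n : ℝ) + 1) ^ (2 ^ N) := by
    have := Nat.pow_log_le_self 2 (x := (n + 1) ^ (2 ^ N)) (by positivity)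
    exact_mod_cast this
  have h2 : (k : ℝ) * Real.log 2 ≤ 2 ^ N * L := by
    have h3 := Real.log_le_log (by positivity) h1
    rw [Real.log_pow, Real.log_pow] at h3
    have h4 : Real.log ((n : ℝ) + 1) ≤ L := Real.log_le_log (by positivity) (by linarith)
    push_cast at h3
    calc (k : ℝ) * Real.log 2 ≤ 2 ^ N * Real.log ((n : ℝ) + 1) := h3
      _ ≤ 2 ^ N * L := by gcongr
  have h5 : Real.log (2 * (n : ℝ) + 1) ≤ 2 * L := by
    have : 2 * L = Real.log ((2 * (n : ℝ)) ^ 2) := by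
      rw [Real.log_pow]
      push_cast
      ring
    rw [this]
    exact Real.log_le_log (by positivity) (by nlinarith)
  have h5' : 0 ≤ Real.log (2 * (n : ℝ) + 1) := Real.log_nonneg (by linarith)
  have h6 := Real.log_two_gt_d9
  have hk0 : (0 : ℝ) ≤ k := Nat.cast_nonneg k
  have h7 : (k : ℝ) ≤ 3 / 2 * (2 ^ N * L) := by
    nlinarith
  have h8 : (k : ℝ) * Real.log (2 * (n : ℝ) + 1) ≤ 3 * 2 ^ N * L ^ 2 := by
    calc (k : ℝ) * Real.log (2 * (n : ℝ) + 1) ≤ (3 / 2 * (2 ^ N * L)) * (2 * L) :=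
          mul_le_mul h7 h5 h5' (by positivity)
      _ = 3 * 2 ^ N * L ^ 2 := by ring
  calc (((2 * n + 1) ^ k : ℕ) : ℝ) = Real.exp (k * Real.log (2 * (n : ℝ) + 1)) := by
        rw [mul_comm (k : ℝ) _, Real.exp_mul, Real.exp_log (by positivity), Real.rpow_natCast]
        push_cast
        rfl
    _ ≤ Real.exp (3 * 2 ^ N * L ^ 2) := Real.exp_le_exp.2 h8

end Pool.Agent.MAC
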