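import Pool.Agent.MAC.Defs

/-!
# MAC/ConA: from connectivity of graphs to `KC`   (difficulty 1)

If `C`, `D` are disjoint, nonempty, without edges between them, and `X = (C ∪ D)ᶜ` has fewer than `K` elements, then
`G - X` is connected; a walk in it from a vertex of `C` to a vertex of `D` has an edge from `C` to `D`
(every vertex of `G - X` is in `C` or in `D`).  For example: induction on the walk, or the set `C` is closed under
adjacency in `G.induce Xᶜ`, hence under reachability.
-/

namespace Pool.Agent.MAC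

open Finset

theorem ConA_reach {V : Type} {H : SimpleGraph V} (C : Set V)
    (hcl : ∀ u v, H.Adj u v → u ∈ C → v ∈ C) {u v : V} (h : H.Reachable u v) (hu : u ∈ C) :
    v ∈ C := by
  obtain ⟨w⟩ := h
  induction w with
  | nil => exact hu
  | cons hadj _ ih => exact ih (hcl _ _ hadj hu)

theorem kc_of_graph {V : Type} [Fintype V] [DecidableEq V] (G : SimpleGraph V)
    (E : Finset (Sym2 V)) (hE : (E : Set (Sym2 V)) = G.edgeSet) (K : ℕ)
    (hG : K < Fintype.card V ∧
      ∀ S : Finset V, S.card < K → (G.induce ((S : Set V)ᶜ)).Connected) : KC E K := by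
  refine ⟨hG.1, ?_⟩
  intro C D hCD hC hD hcr
  by_contra hlt
  push Not at hlt
  have hconn := hG.2 _ hlt
  obtain ⟨c, hc⟩ := hC
  obtain ⟨d, hd⟩ := hD
  have hcS : c ∈ (((C ∪ D)ᶜ : Finset V) : Set V)ᶜ := by simp [hc]
  have hdS : d ∈ (((C ∪ D)ᶜ : Finset V) : Set V)ᶜ := by simp [hd]
  have hreach := hconn.preconnected ⟨c, hcS⟩ ⟨d, hdS⟩
  have hcl : ∀ u v : ((((C ∪ D)ᶜ : Finset V) : Set V)ᶜ : Set V),
      (G.induce ((((C ∪ D)ᶜ : Finset V) : Set V)ᶜ)).Adj u v →
      u ∈ {z : ((((C ∪ D)ᶜ : Finset V) : Set V)ᶜ : Set V) | (z : V) ∈ C} →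
      v ∈ {z : ((((C ∪ D)ᶜ : Finset V) : Set V)ᶜ : Set V) | (z : V) ∈ C} := by
    intro u v hadj hu
    change (u : V) ∈ C at hu
    change (v : V) ∈ C
    have hv : (v : V) ∈ C ∪ D := by
      have h0 := v.2
      rw [Set.mem_compl_iff, Finset.mem_coe, Finset.mem_compl, not_not] at h0
      exact h0
    rcases Finset.mem_union.1 hv with h | h
    · exact h
    · exfalso
      have hG' : G.Adj (u : V) (v : V) := hadj
      have he : s((u : V), (v : V)) ∈ E := by
        have : s((u : V), (v : V)) ∈ (E : Set (Sym2 V)) := by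
          rw [hE]
          exact hG'
        exact_mod_cast this
      have : s((u : V), (v : V)) ∈ cr E C D := by
        unfold cr
        exact Finset.mem_filter.2 ⟨he, u, hu, v, h, rfl⟩
      rw [hcr] at this
      simp at this
  have key := ConA_reach _ hcl hreach (by simpa using hc)
  exact (Finset.disjoint_left.1 hCD) key hd

end Pool.Agent.MAC
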