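import Pool.Agent.MAC.Defs

/-!
# MAC/ConB: from `KC` to connectivity of the spanned graph   (difficulty 2)

`H = SimpleGraph.fromEdgeSet A`.  Every vertex `v` is in the support: otherwise `cr A {v} {v}ᶜ = ∅` and
`s ≤ 0` (`{v}ᶜ` is nonempty because `s < card V`).  So `support = univ`.  Let `S` have fewer than `s` elements, `x, y ∉ S`. Let `C` be the set of the
vertices `z ∉ S` such that `z` is reachable from `x` in `H.induce (support \ S)`, `D` the set of the other vertices outside `S`.  There is
no edge of `A` between `C` and `D`, so if `D` is nonempty, `s ≤ (C ∪ D)ᶜ.card = S.card`, a contradiction.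
Loops in `A` do not matter.
-/

namespace Pool.Agent.MAC

open Finset

theorem graph_of_kc {V : Type} [Fintype V] [DecidableEq V] (A : Finset (Sym2 V)) (s : ℕ)
    (hs : 1 ≤ s) (hA : KC A s) (A' : Set (Sym2 V)) (hA' : A' = (A : Set (Sym2 V))) :
    s < (SimpleGraph.fromEdgeSet A').support.ncard ∧
      ∀ S : Finset V, S.card < s →
        ((SimpleGraph.fromEdgeSet A').induce
          ((SimpleGraph.fromEdgeSet A').support \ (S : Set V))).Connected := by
  classical
  subst hA'
  obtain ⟨hcard, hA⟩ := hA
  have hsupp : (SimpleGraph.fromEdgeSet (A : Set (Sym2 V))).support = Set.univ := by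
    rw [Set.eq_univ_iff_forall]
    intro v
    by_contra hv
    have hcr : cr A {v} {v}ᶜ = ∅ := by
      rw [Finset.eq_empty_iff_forall_notMem]
      intro e he
      obtain ⟨he1, c, hc, d, hd, rfl⟩ := Finset.mem_filter.1 he
      rw [Finset.mem_singleton] at hc
      subst hc
      have hne : d ≠ c := by simpa using hd
      apply hv
      rw [SimpleGraph.mem_support]
      exact ⟨d, by
        rw [SimpleGraph.fromEdgeSet_adj]
        exact ⟨he1, fun h => hne h.symm⟩⟩
    have hne : (({v} : Finset V)ᶜ).Nonempty := by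
      rw [← Finset.card_pos, Finset.card_compl, Finset.card_singleton]
      omega
    have := hA {v} {v}ᶜ disjoint_compl_right (Finset.singleton_nonempty v) hne hcr
    rw [Finset.union_compl, Finset.compl_univ, Finset.card_empty] at this
    omega
  rw [hsupp]
  refine ⟨by rw [Set.ncard_univ, Nat.card_eq_fintype_card]; exact hcard, ?_⟩
  intro S hS
  set W : Set V := Set.univ \ (S : Set V) with hW
  have hmem : ∀ z, z ∈ W ↔ z ∉ S := by
    intro z
    simp [hW]
  have hnon : Nonempty W := by
    obtain ⟨z, hz⟩ : ∃ z, z ∉ S := by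
      by_contra h
      push Not at h
      have : S = Finset.univ := Finset.eq_univ_of_forall h
      rw [this, Finset.card_univ] at hS
      omega
    exact ⟨⟨z, (hmem z).2 hz⟩⟩
  refine (SimpleGraph.connected_iff _).2 ⟨?_, hnon⟩
  intro x y
  by_contra hxy
  set H := (SimpleGraph.fromEdgeSet (A : Set (Sym2 V))).induce W with hH
  set C : Finset V := Finset.univ.filter (fun z => ∃ h : z ∈ W, H.Reachable x ⟨z, h⟩) with hC
  set D : Finset V := Finset.univ.filter (fun z => z ∉ S ∧ z ∉ C) with hD
  have hxC : (x : V) ∈ C := by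
    rw [hC, Finset.mem_filter]
    exact ⟨Finset.mem_univ _, x.2, SimpleGraph.Reachable.refl _⟩
  have hyD : (y : V) ∈ D := by
    rw [hD, Finset.mem_filter]
    refine ⟨Finset.mem_univ _, (hmem _).1 y.2, ?_⟩
    intro hyC
    rw [hC, Finset.mem_filter] at hyC
    obtain ⟨_, h, hr⟩ := hyC
    exact hxy hr
  have hdisj : Disjoint C D := by
    rw [Finset.disjoint_left]
    intro z hz hz'
    rw [hD, Finset.mem_filter] at hz'
    exact hz'.2.2 hz
  have hcr : cr A C D = ∅ := by
    rw [Finset.eq_empty_iff_forall_notMem]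
    intro e he
    obtain ⟨he1, c, hc, d, hd, rfl⟩ := Finset.mem_filter.1 he
    have hd' := (Finset.mem_filter.1 hd).2
    obtain ⟨_, hcW, hcr⟩ := Finset.mem_filter.1 hc
    apply hd'.2
    rw [hC, Finset.mem_filter]
    refine ⟨Finset.mem_univ _, (hmem _).2 hd'.1, ?_⟩
    refine hcr.trans (SimpleGraph.Adj.reachable ?_)
    change (SimpleGraph.fromEdgeSet (A : Set (Sym2 V))).Adj c d
    rw [SimpleGraph.fromEdgeSet_adj]
    refine ⟨he1, ?_⟩
    rintro rfl
    exact hd'.2 hc
  have h1 := hA C D hdisj ⟨x, hxC⟩ ⟨y, hyD⟩ hcr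
  have h2 : (C ∪ D)ᶜ ⊆ S := by
    intro z hz
    rw [Finset.mem_compl, Finset.mem_union, not_or] at hz
    by_contra hzS
    apply hz.2
    rw [hD, Finset.mem_filter]
    exact ⟨Finset.mem_univ _, hzS, hz.1⟩
  have h3 := Finset.card_le_card h2
  omega

end Pool.Agent.MAC
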