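import Mathlib

/-!
# MAC: asymptotic version of Mader's conjecture on edge partitions (MP_4a0681_co), definitions

Everything is formulated for a finite set `E` of edges (elements of `Sym2 V`) on a finite type `V`.
`KC E K`: the graph `(V, E)` is `K`-connected.  `Pr p E P`: the probability of `P A` for a random
subset `A` of `E` (independent choices with probability `p`).
-/

namespace Pool.Agent.MAC

open Finset

section prob

variable {α : Type} [DecidableEq α]

/-- the weight of the subset `A` of `E` -/
noncomputable def wt (p : ℝ) (E A : Finset α) : ℝ := p ^ A.card * (1 - p) ^ (E \ A).card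

open Classical in
/-- the probability of the event `P` for a random subset `A` of `E` (every element is chosen with
probability `p`, independently) -/
noncomputable def Pr (p : ℝ) (E : Finset α) (P : Finset α → Prop) : ℝ :=
  ∑ A ∈ E.powerset.filter P, wt p E A

end prob

section graph

variable {V : Type} [Fintype V] [DecidableEq V]

/-- the edges of `E` between `C` and `D` -/
def cr (E : Finset (Sym2 V)) (C D : Finset V) : Finset (Sym2 V) :=
  E.filter (fun e => ∃ c ∈ C, ∃ d ∈ D, s(c, d) = e)

/-- the graph with the edges `E` is `K`-connected -/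
def KC (E : Finset (Sym2 V)) (K : ℕ) : Prop :=
  K < Fintype.card V ∧ ∀ C D : Finset V, Disjoint C D → C.Nonempty → D.Nonempty →
    cr E C D = ∅ → K ≤ ((C ∪ D)ᶜ).card

/-- the neighbours of `Q` outside `Q` -/
def nbr (E : Finset (Sym2 V)) (Q : Finset V) : Finset V :=
  univ.filter (fun y => y ∉ Q ∧ ∃ z ∈ Q, s(y, z) ∈ E)

/-- the separations of order at most `x` with at most `m` crossing edges, as pairs of disjoint
nonempty sets (that is, partial functions on `V` with two values) -/
def Fam (E : Finset (Sym2 V)) (x m : ℕ) : Finset (Finset V × Finset V) :=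
  univ.filter (fun q => Disjoint q.1 q.2 ∧ q.1.Nonempty ∧ q.2.Nonempty ∧
    ((q.1 ∪ q.2)ᶜ).card ≤ x ∧ (cr E q.1 q.2).card ≤ m)

/-- the set `S` is shattered by the family `F` of partial functions with two values -/
def Shat (F : Finset (Finset V × Finset V)) (S : Finset V) : Prop :=
  ∀ T ⊆ S, ∃ q ∈ F, T ⊆ q.1 ∧ S \ T ⊆ q.2

end graph

end Pool.Agent.MAC
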