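import Pool.Agent.MAC.Dns

/-!
# MAC/Det: a subgraph with the good properties is `s`-connected   (difficulty 2)

`s < card V` because `s ≤ K < card V` (`hsK`, `0 < ε`).  Suppose `KC A s` fails: there are disjoint nonempty `C`, `D` with `cr A C D = ∅`, `X = (C ∪ D)ᶜ`, `|X| ≤ s - 1`.
* `g1`: `|cr E C D| ≤ m`.
* `g0` and `deg_le`: for `v ∈ C`: `s + Δ/4 = p K - Δ/4 < |nbr A {v}| ≤ |C| + |X| - 1 ≤ |C| + s - 2`, so `Δ/4 ≤ |C|`; also `Δ/4 ≤ |D|` (`cr_comm`, `deg_le` for `D`, `C`).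
* If `card V < (1 + ε/2) K`: `dense` with `c₀ = Δ/4` (`|X| ≤ s ≤ (1 - ε) K`) gives `Δ/4 (ε K/4) ≤ m`, a contradiction to `hm`.
* Otherwise `(C, D) ∈ Fam E (s - 1) m`, so there is `y ∈ Y` with `C ⊆ y`, `D` disjoint from `y`.  Take `v ∈ C`, `w ∈ D`: by `hF`
  `|A ∩ F y v w| ≤ |X| ≤ s - 1`, a contradiction to `g4`.
-/

namespace Pool.Agent.MAC

open Finset

variable {V : Type} [Fintype V] [DecidableEq V]

theorem det {E A : Finset (Sym2 V)} {K s m : ℕ} {ε p Δ : ℝ} (hE : KC E K) (hs : 1 ≤ s)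
    (hε : 0 < ε) (hΔ : 0 ≤ Δ) (hsK : (s : ℝ) ≤ (1 - ε) * K) (hpK : p * K = s + Δ / 2)
    (hm : (m : ℝ) < Δ / 4 * (ε * K / 4)) (Y : Finset (Finset V))
    (hY : (Fintype.card V : ℝ) < (1 + ε / 2) * K ∨
      ∀ q ∈ Fam E (s - 1) m, ∃ y ∈ Y, q.1 ⊆ y ∧ Disjoint q.2 y)
    (F : Finset V → V → V → Finset (Sym2 V))
    (hF : ∀ (y : Finset V) (v w : V), v ∈ y → w ∉ y → ∀ C D : Finset V, Disjoint C D → v ∈ C →
      w ∈ D → C ⊆ y → Disjoint D y → cr A C D = ∅ → (A ∩ F y v w).card ≤ ((C ∪ D)ᶜ).card)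
    (g0 : ∀ v : V, p * K - Δ / 4 < (nbr A {v}).card)
    (g1 : ¬ ∃ C D : Finset V, Disjoint C D ∧ C.Nonempty ∧ D.Nonempty ∧
      ((C ∪ D)ᶜ).card ≤ s - 1 ∧ m < (cr E C D).card ∧ cr A C D = ∅)
    (g4 : ∀ y ∈ Y, ∀ v ∈ y, ∀ w, w ∉ y → s ≤ (A ∩ F y v w).card) : KC A s := by
  have hE' := hE
  obtain ⟨hKV, -⟩ := hE
  have hK0 : (0 : ℝ) ≤ K := Nat.cast_nonneg K
  have hsK' : s ≤ K := by
    have : (s : ℝ) ≤ K := by nlinarith
    exact_mod_cast this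
  refine ⟨lt_of_le_of_lt hsK' hKV, fun C D h hCn hDn hcr => ?_⟩
  by_contra hcon
  push Not at hcon
  have hX : ((C ∪ D)ᶜ).card ≤ s - 1 := by omega
  have hm1 : (cr E C D).card ≤ m := by
    by_contra hc
    exact g1 ⟨C, D, h, hCn, hDn, hX, by omega, hcr⟩
  have hXR : (((C ∪ D)ᶜ).card : ℝ) + 1 ≤ s := by
    have : ((C ∪ D)ᶜ).card + 1 ≤ s := by omega
    exact_mod_cast this
  obtain ⟨v, hv⟩ := hCn
  obtain ⟨w, hw⟩ := hDn
  have hC : Δ / 4 ≤ C.card := by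
    have h1 := deg_le hcr hv
    have h2 : ((nbr A {v}).card : ℝ) + 1 ≤ C.card + ((C ∪ D)ᶜ).card := by exact_mod_cast h1
    have h3 := g0 v
    linarith
  have hD : Δ / 4 ≤ D.card := by
    have hcr' : cr A D C = ∅ := by rw [cr_comm]; exact hcr
    have h1 := deg_le hcr' hw
    rw [union_comm D C] at h1
    have h2 : ((nbr A {w}).card : ℝ) + 1 ≤ D.card + ((C ∪ D)ᶜ).card := by exact_mod_cast h1
    have h3 := g0 w
    linarith
  by_cases hn : (Fintype.card V : ℝ) < (1 + ε / 2) * K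
  · have h1 := dense hE' hε (by positivity : (0 : ℝ) ≤ Δ / 4) hn.le h (by linarith) hC hD
    have h2 : ((cr E C D).card : ℝ) ≤ m := by exact_mod_cast hm1
    linarith
  · have hY' := hY.resolve_left hn
    obtain ⟨y, hy, hCy, hDy⟩ := hY' (C, D) (by
      simp only [Fam, mem_filter, mem_univ, true_and]
      exact ⟨h, ⟨v, hv⟩, ⟨w, hw⟩, hX, hm1⟩)
    have hvy : v ∈ y := hCy hv
    have hwy : w ∉ y := fun hc => (disjoint_left.1 hDy) hw hc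
    have h1 := hF y v w hvy hwy C D h hv hw hCy hDy hcr
    have h2 := g4 y hy v hvy w hwy
    omega

end Pool.Agent.MAC
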