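import Pool.Agent.MAC.Bas

/-!
# MAC/Dns: very dense graphs have no sparse separations   (difficulty 2)

Let `n = card V ≤ (1 + ε/2) K`, `X = (C ∪ D)ᶜ`, `|X| ≤ (1 - ε) K`.  By symmetry (`cr_comm`) let `|C| ≤ |D|`, so `|C| ≤ (n - |X|)/2`.  Every `c ∈ C` has at least `K` neighbours (`deg_ge`), at most
`|C| - 1` of them in `C`, at most `|X|` in `X`, so at least `K - |C| - |X| ≥ K - (n + |X|)/2 ≥ K - ((1 + ε/2) K + (1 - ε) K)/2 = ε K/4` in `D`.  Sum over `c ∈ C`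
(`card_cr`): `|cr E C D| ≥ |C| ε K/4 ≥ c₀ ε K/4`.
-/

namespace Pool.Agent.MAC

open Finset

variable {V : Type} [Fintype V] [DecidableEq V]

theorem Dns.aux {E : Finset (Sym2 V)} {K : ℕ} (hE : KC E K) {ε c₀ : ℝ} (hε : 0 < ε)
    (hn : (Fintype.card V : ℝ) ≤ (1 + ε / 2) * K) {C D : Finset V}
    (h : Disjoint C D) (hX : (((C ∪ D)ᶜ).card : ℝ) ≤ (1 - ε) * K) (hC : c₀ ≤ C.card)
    (hCD : C.card ≤ D.card) : c₀ * (ε * K / 4) ≤ (cr E C D).card := by
  have hcard : C.card + D.card + ((C ∪ D)ᶜ).card = Fintype.card V := by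
    rw [← card_union_of_disjoint h]; exact card_add_card_compl _
  have hcardR : (C.card : ℝ) + D.card + ((C ∪ D)ᶜ).card = Fintype.card V := by exact_mod_cast hcard
  have hCDR : (C.card : ℝ) ≤ D.card := by exact_mod_cast hCD
  have key : ∀ c ∈ C, ε * K / 4 ≤ ((D.filter (fun d => s(c, d) ∈ E)).card : ℝ) := by
    intro c hc
    have h1 := deg_ge hE c
    have h2 : nbr E {c} ⊆ (C ∪ (C ∪ D)ᶜ) ∪ D.filter (fun d => s(c, d) ∈ E) := by
      intro y hy
      simp only [nbr, mem_filter, mem_univ, true_and, mem_singleton] at hy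
      obtain ⟨-, z, rfl, hz⟩ := hy
      by_cases hyC : y ∈ C
      · simp [hyC]
      · by_cases hyD : y ∈ D
        · rw [Sym2.eq_swap] at hz
          simp [hyD, hz]
        · simp [hyC, hyD]
    have h3 := card_le_card h2
    have h4 := card_union_le (C ∪ (C ∪ D)ᶜ) (D.filter (fun d => s(c, d) ∈ E))
    have h5 := card_union_le C ((C ∪ D)ᶜ)
    have h6 : K ≤ C.card + ((C ∪ D)ᶜ).card + (D.filter (fun d => s(c, d) ∈ E)).card := by omega
    have h7 : (K : ℝ) ≤ C.card + ((C ∪ D)ᶜ).card + (D.filter (fun d => s(c, d) ∈ E)).card := by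
      exact_mod_cast h6
    linarith
  have hsum : ((cr E C D).card : ℝ) = ∑ c ∈ C, ((D.filter (fun d => s(c, d) ∈ E)).card : ℝ) := by
    rw [card_cr E h, ← Nat.cast_sum, card_filter, sum_product]
    simp only [card_filter]
  rw [hsum]
  have hK : (0 : ℝ) ≤ ε * K / 4 := by positivity
  calc c₀ * (ε * K / 4) ≤ C.card * (ε * K / 4) := mul_le_mul_of_nonneg_right hC hK
    _ = ∑ c ∈ C, (ε * K / 4) := by rw [sum_const, nsmul_eq_mul]
    _ ≤ _ := sum_le_sum key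

theorem dense {E : Finset (Sym2 V)} {K : ℕ} (hE : KC E K) {ε c₀ : ℝ} (hε : 0 < ε)
    (hc : 0 ≤ c₀) (hn : (Fintype.card V : ℝ) ≤ (1 + ε / 2) * K) {C D : Finset V}
    (h : Disjoint C D) (hX : (((C ∪ D)ᶜ).card : ℝ) ≤ (1 - ε) * K) (hC : c₀ ≤ C.card)
    (hD : c₀ ≤ D.card) : c₀ * (ε * K / 4) ≤ (cr E C D).card := by
  rcases le_total C.card D.card with h1 | h1
  · exact Dns.aux hE hε hn h hX hC h1
  · rw [cr_comm]
    rw [union_comm] at hX
    exact Dns.aux hE hε hn h.symm hX hD h1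

end Pool.Agent.MAC
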