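import Pool.Agent.MAC.Bas

/-!
# MAC/ECut: a separation of order `x` of a `K`-connected graph has at least `K - x` crossing edges   (difficulty 2)

Let `x = |(C ∪ D)ᶜ|`, `e = |cr E C D|`.
* If every `c ∈ C` is joined to every `d ∈ D`, then `e = |C| |D| ≥ |C| + |D| - 1 = card V - x - 1 ≥ K - x` (`card_cr`).
* Otherwise let `c₀ ∈ C`, `d₀ ∈ D`, `s(c₀, d₀) ∉ E`.  Let `Z₁` be the set of the `c ∈ C`, `c ≠ c₀`, with a neighbour in `D`, and
  `Z₂` the set of the `d ∈ D` with `s(c₀, d) ∈ E`.  Choosing for each `c ∈ Z₁` an edge to `D`, and for `d ∈ Z₂` the edge `s(c₀, d)`,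
  gives an injective map of `Z₁ ∪ Z₂` to `cr E C D` (to the pairs of `card_cr`), so `|Z₁| + |Z₂| ≤ e`.  `C' = C \ Z₁` contains `c₀`, `D' = D \ Z₂` contains `d₀`, and there is
  no edge between `C'` and `D'`.  `KC` for `C'`, `D'`: `K ≤ x + |Z₁| + |Z₂| ≤ x + e`.
-/

namespace Pool.Agent.MAC

open Finset

variable {V : Type} [Fintype V] [DecidableEq V]

theorem ecut {E : Finset (Sym2 V)} {K : ℕ} (hE : KC E K) {C D : Finset V} (h : Disjoint C D)
    (hC : C.Nonempty) (hD : D.Nonempty) : K ≤ ((C ∪ D)ᶜ).card + (cr E C D).card := by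
  have hcomp : ∀ {C' D' : Finset V}, Disjoint C' D' →
      ((C' ∪ D')ᶜ).card + (C'.card + D'.card) = Fintype.card V := by
    intro C' D' h'
    rw [← card_union_of_disjoint h', add_comm, card_add_card_compl]
  have hCD := hcomp h
  by_cases hall : ∀ c ∈ C, ∀ d ∈ D, s(c, d) ∈ E
  · have h1 : (cr E C D).card = C.card * D.card := by
      rw [card_cr E h, Finset.filter_true_of_mem, card_product]
      intro q hq
      rw [mem_product] at hq
      exact hall _ hq.1 _ hq.2
    have h4 := hE.1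
    have h5 : C.card + D.card ≤ C.card * D.card + 1 := by
      obtain ⟨a, ha⟩ := Nat.exists_eq_succ_of_ne_zero hC.card_pos.ne'
      obtain ⟨b, hb⟩ := Nat.exists_eq_succ_of_ne_zero hD.card_pos.ne'
      rw [ha, hb, Nat.succ_eq_add_one, Nat.succ_eq_add_one]
      nlinarith [Nat.zero_le (a * b)]
    omega
  · push Not at hall
    obtain ⟨c₀, hc₀, d₀, hd₀, hn⟩ := hall
    set Z₁ := (C.erase c₀).filter (fun c => ∃ d ∈ D, s(c, d) ∈ E) with hZ₁
    set Z₂ := D.filter (fun d => s(c₀, d) ∈ E) with hZ₂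
    have hZ₁C : Z₁ ⊆ C := (filter_subset _ _).trans (erase_subset _ _)
    have hZ₂D : Z₂ ⊆ D := filter_subset _ _
    have hle : Z₁.card + Z₂.card ≤ (cr E C D).card := by
      rw [card_cr E h]
      have hex : ∀ c : V, ∃ d : V, c ∈ Z₁ → d ∈ D ∧ s(c, d) ∈ E := by
        intro c
        by_cases hc : c ∈ Z₁
        · obtain ⟨d, hd, hd'⟩ := (mem_filter.1 hc).2
          exact ⟨d, fun _ => ⟨hd, hd'⟩⟩
        · exact ⟨c, fun h' => absurd h' hc⟩
      choose f hf using hex
      have i1 : (Z₁.image (fun c => (c, f c))).card = Z₁.card := by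
        apply card_image_of_injective
        intro a b hab
        exact (Prod.ext_iff.1 hab).1
      have i2 : (Z₂.image (fun d => (c₀, d))).card = Z₂.card := by
        apply card_image_of_injective
        intro a b hab
        exact (Prod.ext_iff.1 hab).2
      have i3 : Disjoint (Z₁.image (fun c => (c, f c))) (Z₂.image (fun d => (c₀, d))) := by
        rw [Finset.disjoint_left]
        intro q hq1 hq2
        obtain ⟨c, hc, rfl⟩ := mem_image.1 hq1
        obtain ⟨d, hd, hdq⟩ := mem_image.1 hq2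
        have hcc : c₀ = c := (Prod.ext_iff.1 hdq).1
        have := (mem_filter.1 hc).1
        rw [← hcc] at this
        exact notMem_erase _ _ this
      rw [← i1, ← i2, ← card_union_of_disjoint i3]
      apply card_le_card
      intro q hq
      rw [mem_filter, mem_product]
      rcases mem_union.1 hq with hq | hq
      · obtain ⟨c, hc, rfl⟩ := mem_image.1 hq
        exact ⟨⟨hZ₁C hc, (hf c hc).1⟩, (hf c hc).2⟩
      · obtain ⟨d, hd, rfl⟩ := mem_image.1 hq
        exact ⟨⟨hc₀, hZ₂D hd⟩, (mem_filter.1 hd).2⟩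
    have hdis : Disjoint (C \ Z₁) (D \ Z₂) :=
      Disjoint.mono sdiff_subset sdiff_subset h
    have hc₀' : c₀ ∈ C \ Z₁ := by
      rw [mem_sdiff]
      refine ⟨hc₀, fun hc => ?_⟩
      exact notMem_erase _ _ (mem_filter.1 hc).1
    have hd₀' : d₀ ∈ D \ Z₂ := by
      rw [mem_sdiff]
      exact ⟨hd₀, fun hd => hn (mem_filter.1 hd).2⟩
    have hemp : cr E (C \ Z₁) (D \ Z₂) = ∅ := by
      rw [Finset.eq_empty_iff_forall_notMem]
      intro e he
      obtain ⟨he1, c, hc, d, hd, rfl⟩ := mem_filter.1 he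
      rw [mem_sdiff] at hc hd
      by_cases hcc : c = c₀
      · subst hcc
        exact hd.2 (mem_filter.2 ⟨hd.1, he1⟩)
      · exact hc.2 (mem_filter.2 ⟨mem_erase.2 ⟨hcc, hc.1⟩, d, hd.1, he1⟩)
    have hK := hE.2 _ _ hdis ⟨c₀, hc₀'⟩ ⟨d₀, hd₀'⟩ hemp
    have hCD' := hcomp hdis
    have hc1 := card_sdiff_add_card_eq_card hZ₁C
    have hc2 := card_sdiff_add_card_eq_card hZ₂D
    omega

end Pool.Agent.MAC
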