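import Pool.Agent.MAC.Defs

/-!
# MAC/HalA: shattered sets of the two halves   (difficulty 2)

`sh F` = the set of the shattered sets.  Let `F₁ = {q ∈ F : v ∈ q.1}`, `F₀ = {q ∈ F : v ∈ q.2}` (the pairs are disjoint).
* If `S ∈ sh F₁` then `v ∉ S` (otherwise the pattern `T = ∅` needs `q ∈ F₁` with `v ∈ q.2`); similarly for `F₀`.
* `sh F₁ ∪ sh F₀ ⊆ sh F`, and for `S ∈ sh F₁ ∩ sh F₀` also `insert v S ∈ sh F`; these sets contain `v`, the map is injective.  So
  `|sh F| ≥ |sh F₁ ∪ sh F₀| + |sh F₁ ∩ sh F₀| = |sh F₁| + |sh F₀|`.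
* `sh_card_le`: if no set with `d` elements is shattered, the shattered sets have less than `d` elements (subsets of shattered sets are shattered), and there are at most
  `∑_{i < d} (n choose i) ≤ (n+1)^d` of them (or: such a set is determined by a function `Fin d → Option V`).
-/

namespace Pool.Agent.MAC

open Finset

variable {V : Type} [Fintype V] [DecidableEq V]

open Classical in
/-- the shattered sets -/
noncomputable def sh (F : Finset (Finset V × Finset V)) : Finset (Finset V) :=
  univ.filter (fun S => Shat F S)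

theorem sh_add (F : Finset (Finset V × Finset V)) (hF : ∀ q ∈ F, Disjoint q.1 q.2) (v : V) :
    (sh (F.filter (fun q => v ∈ q.1))).card + (sh (F.filter (fun q => v ∈ q.2))).card ≤
      (sh F).card := by
  have hmono : ∀ {G : Finset (Finset V × Finset V)}, G ⊆ F → ∀ {S}, Shat G S → Shat F S := by
    intro G hG S hS T hT
    obtain ⟨q, hq, h1, h2⟩ := hS T hT
    exact ⟨q, hG hq, h1, h2⟩
  have h1 : ∀ S ∈ sh (F.filter (fun q => v ∈ q.1)), v ∉ S := by
    intro S hS hv
    simp only [sh, mem_filter, mem_univ, true_and] at hS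
    obtain ⟨q, hq, -, h2⟩ := hS ∅ (empty_subset _)
    rw [mem_filter] at hq
    have : v ∈ q.2 := h2 (by simpa using hv)
    exact disjoint_left.1 (hF q hq.1) hq.2 this
  have h0 : ∀ S ∈ sh (F.filter (fun q => v ∈ q.2)), v ∉ S := by
    intro S hS hv
    simp only [sh, mem_filter, mem_univ, true_and] at hS
    obtain ⟨q, hq, h2, -⟩ := hS S (Subset.refl _)
    rw [mem_filter] at hq
    exact disjoint_left.1 (hF q hq.1) (h2 hv) hq.2
  rw [← card_union_add_card_inter]
  have hsplit : ((sh F).filter (fun S => v ∉ S)).card + ((sh F).filter (fun S => v ∈ S)).card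
      = (sh F).card := by
    rw [add_comm]
    exact card_filter_add_card_filter_not _
  rw [← hsplit]
  refine add_le_add (card_le_card ?_) ?_
  · intro S hS
    rw [mem_union] at hS
    rw [mem_filter]
    rcases hS with hS | hS
    · refine ⟨?_, h1 S hS⟩
      simp only [sh, mem_filter, mem_univ, true_and] at hS ⊢
      exact hmono (filter_subset _ _) hS
    · refine ⟨?_, h0 S hS⟩
      simp only [sh, mem_filter, mem_univ, true_and] at hS ⊢
      exact hmono (filter_subset _ _) hS
  · refine card_le_card_of_injOn (fun S => insert v S) ?_ ?_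
    · intro S hS
      have hS' := mem_coe.1 hS
      rw [mem_inter] at hS'
      obtain ⟨hA, hB⟩ := hS'
      have hvS := h1 S hA
      simp only [sh, mem_filter, mem_univ, true_and] at hA hB
      rw [mem_coe, mem_filter]
      refine ⟨?_, mem_insert_self _ _⟩
      simp only [sh, mem_filter, mem_univ, true_and]
      intro T hT
      by_cases hvT : v ∈ T
      · obtain ⟨q, hq, a1, a2⟩ := hA (T.erase v) (by
          intro x hx
          rw [mem_erase] at hx
          exact (mem_insert.1 (hT hx.2)).resolve_left hx.1)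
        rw [mem_filter] at hq
        refine ⟨q, hq.1, ?_, ?_⟩
        · intro x hx
          by_cases hxv : x = v
          · rw [hxv]; exact hq.2
          · exact a1 (mem_erase.2 ⟨hxv, hx⟩)
        · intro x hx
          rw [mem_sdiff, mem_insert] at hx
          have hxv : x ≠ v := fun h => hx.2 (h ▸ hvT)
          refine a2 (mem_sdiff.2 ⟨hx.1.resolve_left hxv, fun h => hx.2 (mem_erase.1 h).2⟩)
      · obtain ⟨q, hq, a1, a2⟩ := hB T (by
          intro x hx
          exact (mem_insert.1 (hT hx)).resolve_left (fun h => hvT (h ▸ hx)))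
        rw [mem_filter] at hq
        refine ⟨q, hq.1, a1, ?_⟩
        intro x hx
        rw [mem_sdiff, mem_insert] at hx
        rcases hx.1 with h | h
        · rw [h]; exact hq.2
        · exact a2 (mem_sdiff.2 ⟨h, hx.2⟩)
    · intro S hS S' hS' heq
      have e1 := h1 S (mem_inter.1 (mem_coe.1 hS)).1
      have e2 := h1 S' (mem_inter.1 (mem_coe.1 hS')).1
      have := congrArg (fun Z => Z.erase v) heq
      simpa [erase_insert e1, erase_insert e2] using this

theorem sh_pos {F : Finset (Finset V × Finset V)} (hF : F.Nonempty) : 1 ≤ (sh F).card := by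
  rw [Nat.succ_le_iff, card_pos]
  obtain ⟨q, hq⟩ := hF
  refine ⟨∅, ?_⟩
  simp only [sh, mem_filter, mem_univ, true_and]
  intro T hT
  rw [subset_empty] at hT
  subst hT
  exact ⟨q, hq, empty_subset _, by simp⟩

theorem sh_card_le (F : Finset (Finset V × Finset V)) (d : ℕ)
    (hd : ∀ S : Finset V, S.card = d → ¬ Shat F S) :
    (sh F).card ≤ (Fintype.card V + 1) ^ d := by
  have hlt : ∀ S ∈ sh F, S.card ≤ d := by
    intro S hS
    by_contra hc
    push Not at hc
    simp only [sh, mem_filter, mem_univ, true_and] at hS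
    obtain ⟨S', hS', hcard⟩ := exists_subset_card_eq hc.le
    refine hd S' hcard ?_
    intro T hT
    obtain ⟨q, hq, h1, h2⟩ := hS T (hT.trans hS')
    refine ⟨q, hq, h1, fun x hx => ?_⟩
    rw [mem_sdiff] at hx
    exact h2 (mem_sdiff.2 ⟨hS' hx.1, hx.2⟩)
  have hsub : sh F ⊆ (univ : Finset (Fin d → Option V)).image
      (fun f => univ.filter (fun v => ∃ i, f i = some v)) := by
    intro S hS
    rw [mem_image]
    have hc := hlt S hS
    refine ⟨fun i => if h : (i : ℕ) < S.card then some (S.equivFin.symm ⟨i, h⟩ : V) else none,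
      mem_univ _, ?_⟩
    ext v
    simp only [mem_filter, mem_univ, true_and]
    constructor
    · rintro ⟨i, hi⟩
      by_cases h : (i : ℕ) < S.card
      · rw [dif_pos h] at hi
        rw [← Option.some_injective _ hi]
        exact (S.equivFin.symm ⟨i, h⟩).2
      · rw [dif_neg h] at hi
        exact absurd hi (by simp)
    · intro hv
      have h1 : ((S.equivFin ⟨v, hv⟩ : Fin S.card) : ℕ) < S.card := (S.equivFin ⟨v, hv⟩).2
      refine ⟨⟨(S.equivFin ⟨v, hv⟩ : Fin S.card), lt_of_lt_of_le h1 hc⟩, ?_⟩
      rw [dif_pos h1]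
      simp
  calc (sh F).card ≤ _ := card_le_card hsub
    _ ≤ (univ : Finset (Fin d → Option V)).card := card_image_le
    _ = (Fintype.card V + 1) ^ d := by
      rw [card_univ, Fintype.card_fun, Fintype.card_option, Fintype.card_fin]

end Pool.Agent.MAC
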