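import Pool.Agent.MAC.HalA

/-!
# MAC/HalB: a small family of total functions extending all partial functions   (difficulty 3)

Let `M = Nat.log 2 ((n+1)^d)`.  For a family `G` let `Y G = {v : |sh G₀| ≤ |sh G₁|}` with `G₁ = {q ∈ G : v ∈ q.1}`, `G₀ = {q ∈ G : v ∈ q.2}`.
For a labelled point `(v, β) : V × Bool` let `G|(v, β)` be `G₁` or `G₀`.
Claim: for every `q ∈ G` and `k` with `|sh G| < 2^(k+1)` there is a list `ℓ` of at most `k` labelled points such that `q ∈ G' := G|ℓ` and
`q.1 ⊆ Y G'`, `Disjoint q.2 (Y G')`.  Induction on `k`: if `Y G` itself is not good for `q`, there is `v` with (`v ∈ q.1`, `|sh G₁| < |sh G₀|`) or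
(`v ∈ q.2`, `|sh G₀| ≤ |sh G₁|`).  In the first case `q ∈ G₁`, `2 |sh G₁| ≤ |sh G₁| + |sh G₀| ≤ |sh G|` (`sh_add`), in the second `q ∈ G₀`, `2 |sh G₀| ≤ |sh G|`.  As
`|sh G₁| ≥ 1` (`sh_pos`), `k ≥ 1`, and the induction hypothesis applies to `G₁` (`G₀`) and `k - 1`.
`G|ℓ` depends only on the set of the labelled points of `ℓ`; so `𝒴` = the set of all `Y (G|τ)` for the functions `τ : Fin M → Option (V × Bool)`
(`G|τ = {q ∈ G : ∀ i v β, τ i = some (v, β) → (if β then v ∈ q.1 else v ∈ q.2)}`), at most `(2 n + 1)^M` sets.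
-/

namespace Pool.Agent.MAC

open Finset

variable {V : Type} [Fintype V] [DecidableEq V]

/-- the prediction of the family `G` -/
noncomputable def HalB_Y (G : Finset (Finset V × Finset V)) : Finset V :=
  univ.filter (fun v => (sh (G.filter (fun q => v ∈ q.2))).card ≤
    (sh (G.filter (fun q => v ∈ q.1))).card)

/-- the restriction of the family to the labelled points of the list -/
def HalB_r (G : Finset (Finset V × Finset V)) (l : List (V × Bool)) :
    Finset (Finset V × Finset V) :=
  G.filter (fun q => ∀ p ∈ l, if p.2 = true then p.1 ∈ q.1 else p.1 ∈ q.2)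

theorem HalB_r_true (G : Finset (Finset V × Finset V)) (v : V) (l : List (V × Bool)) :
    HalB_r G ((v, true) :: l) = HalB_r (G.filter (fun q => v ∈ q.1)) l := by
  unfold HalB_r
  ext q
  simp only [mem_filter, List.forall_mem_cons, if_true]
  tauto

theorem HalB_r_false (G : Finset (Finset V × Finset V)) (v : V) (l : List (V × Bool)) :
    HalB_r G ((v, false) :: l) = HalB_r (G.filter (fun q => v ∈ q.2)) l := by
  unfold HalB_r
  ext q
  simp only [mem_filter, List.forall_mem_cons]
  simp only [Bool.false_eq_true, if_false]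
  tauto

theorem HalB_claim (k : ℕ) : ∀ (G : Finset (Finset V × Finset V)), (∀ q ∈ G, Disjoint q.1 q.2) →
    (sh G).card < 2 ^ (k + 1) → ∀ q ∈ G, ∃ l : List (V × Bool), l.length ≤ k ∧
      q.1 ⊆ HalB_Y (HalB_r G l) ∧ Disjoint q.2 (HalB_Y (HalB_r G l)) := by
  induction k with
  | zero =>
    intro G hG hs q hq
    refine ⟨[], le_rfl, ?_, ?_⟩
    · have e : HalB_r G [] = G := by simp [HalB_r]
      rw [e]
      intro v hv
      by_contra h
      have h1 : (sh (G.filter (fun q => v ∈ q.1))).card < (sh (G.filter (fun q => v ∈ q.2))).card := by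
        by_contra h2
        exact h (mem_filter.2 ⟨mem_univ _, not_lt.1 h2⟩)
      have h2 := sh_add G hG v
      have h3 := sh_pos (F := G.filter (fun q => v ∈ q.1)) ⟨q, mem_filter.2 ⟨hq, hv⟩⟩
      simp only [zero_add, pow_one] at hs
      omega
    · have e : HalB_r G [] = G := by simp [HalB_r]
      rw [e, Finset.disjoint_left]
      intro v hv h
      have h1 : (sh (G.filter (fun q => v ∈ q.2))).card ≤ (sh (G.filter (fun q => v ∈ q.1))).card :=
        (mem_filter.1 h).2
      have h2 := sh_add G hG v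
      have h3 := sh_pos (F := G.filter (fun q => v ∈ q.2)) ⟨q, mem_filter.2 ⟨hq, hv⟩⟩
      simp only [zero_add, pow_one] at hs
      omega
  | succ k ih =>
    intro G hG hs q hq
    by_cases hgood : q.1 ⊆ HalB_Y G ∧ Disjoint q.2 (HalB_Y G)
    · refine ⟨[], Nat.zero_le _, ?_⟩
      have e : HalB_r G [] = G := by simp [HalB_r]
      rw [e]
      exact hgood
    · by_cases h1 : q.1 ⊆ HalB_Y G
      · have h2 : ¬ Disjoint q.2 (HalB_Y G) := fun h => hgood ⟨h1, h⟩
        rw [Finset.disjoint_left] at h2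
        push Not at h2
        obtain ⟨v, hv, hv2⟩ := h2
        have h3 : (sh (G.filter (fun q => v ∈ q.2))).card ≤ (sh (G.filter (fun q => v ∈ q.1))).card :=
          (mem_filter.1 hv2).2
        have h4 := sh_add G hG v
        have h5 : (sh (G.filter (fun q => v ∈ q.2))).card < 2 ^ (k + 1) := by
          rw [pow_succ] at hs
          omega
        obtain ⟨l, hl, hl2⟩ := ih (G.filter (fun q => v ∈ q.2))
          (fun q hq => hG q (mem_filter.1 hq).1) h5 q (mem_filter.2 ⟨hq, hv⟩)
        refine ⟨(v, false) :: l, by simpa using hl, ?_⟩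
        rw [HalB_r_false]
        exact hl2
      · obtain ⟨v, hv, hv2⟩ := Finset.not_subset.1 h1
        have h3 : (sh (G.filter (fun q => v ∈ q.1))).card < (sh (G.filter (fun q => v ∈ q.2))).card := by
          by_contra h2
          exact hv2 (mem_filter.2 ⟨mem_univ _, not_lt.1 h2⟩)
        have h4 := sh_add G hG v
        have h5 : (sh (G.filter (fun q => v ∈ q.1))).card < 2 ^ (k + 1) := by
          rw [pow_succ] at hs
          omega
        obtain ⟨l, hl, hl2⟩ := ih (G.filter (fun q => v ∈ q.1))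
          (fun q hq => hG q (mem_filter.1 hq).1) h5 q (mem_filter.2 ⟨hq, hv⟩)
        refine ⟨(v, true) :: l, by simpa using hl, ?_⟩
        rw [HalB_r_true]
        exact hl2

/-- the restriction given by a function -/
def HalB_t {M : ℕ} (G : Finset (Finset V × Finset V)) (τ : Fin M → Option (V × Bool)) :
    Finset (Finset V × Finset V) :=
  G.filter (fun q => ∀ i, ∀ p ∈ τ i, if p.2 = true then p.1 ∈ q.1 else p.1 ∈ q.2)

theorem halving (F : Finset (Finset V × Finset V)) (hF : ∀ q ∈ F, Disjoint q.1 q.2) (d : ℕ)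
    (hd : ∀ S : Finset V, S.card = d → ¬ Shat F S) :
    ∃ Y : Finset (Finset V),
      Y.card ≤ (2 * Fintype.card V + 1) ^ (Nat.log 2 ((Fintype.card V + 1) ^ d)) ∧
      ∀ q ∈ F, ∃ y ∈ Y, q.1 ⊆ y ∧ Disjoint q.2 y := by
  classical
  obtain ⟨M, hM⟩ : ∃ M, M = Nat.log 2 ((Fintype.card V + 1) ^ d) := ⟨_, rfl⟩
  rw [← hM]
  have hs : (sh F).card < 2 ^ (M + 1) := by
    have h1 := sh_card_le F d hd
    have h2 := Nat.lt_pow_succ_log_self (by norm_num : 1 < 2) ((Fintype.card V + 1) ^ d)
    rw [← hM] at h2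
    exact lt_of_le_of_lt h1 h2
  refine ⟨(univ : Finset (Fin M → Option (V × Bool))).image (fun τ => HalB_Y (HalB_t F τ)), ?_, ?_⟩
  · refine Finset.card_image_le.trans ?_
    rw [Finset.card_univ, Fintype.card_fun, Fintype.card_option, Fintype.card_prod,
      Fintype.card_bool, Fintype.card_fin, Nat.mul_comm]
  · intro q hq
    obtain ⟨l, hl, h1, h2⟩ := HalB_claim M F hF hs q hq
    have e : HalB_t F (fun i : Fin M => l[i.1]?) = HalB_r F l := by
      unfold HalB_t HalB_r
      apply Finset.filter_congr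
      intro q _
      constructor
      · intro h p hp
        obtain ⟨i, hi⟩ := List.mem_iff_getElem?.1 hp
        have hi' : i < l.length := by
          obtain ⟨h3, -⟩ := List.getElem?_eq_some_iff.1 hi
          exact h3
        exact h ⟨i, lt_of_lt_of_le hi' hl⟩ p hi
      · intro h i p hp
        exact h p (List.mem_iff_getElem?.2 ⟨i.1, hp⟩)
    refine ⟨HalB_Y (HalB_r F l), ?_, h1, h2⟩
    rw [← e]
    exact mem_image_of_mem _ (mem_univ _)

end Pool.Agent.MAC
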