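import Pool.Agent.MAC.Defs

/-!
# MAC/Kar: Karger's bound for the number of small cuts   (difficulty 3)

A multigraph: vertices `ι`, edges `e ∈ E` with ends `u e`, `v e` (possibly equal).  The cut of `C ⊆ ι` is the set of the edges with
exactly one end in `C`.  Claim: if all nontrivial cuts have at least `l ≥ 1` edges and `2 m ≤ k l`, then the number of the
nontrivial `C` with a cut of at most `m` edges is at most `2^k * max 1 (N choose k)`, `N = card ι`.

Induction on `N` (for all `ι`, `E`, `u`, `v`).
* `N ≤ k`: there are `2^N ≤ 2^k` sets.   `N ≤ 1`: there is no nontrivial `C`.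
* `N > k`, `N ≥ 2`: let `E₁ = {e ∈ E, u e ≠ v e}`.  The cuts of the singletons give `N l ≤ ∑_i |cut {i}| = 2 |E₁|`.  Let `S` be the set to be counted.  For `e ∈ E₁`
  put `a = u e`, `b = v e`, `ι' = {i // i ≠ b}`, `ρ : ι → ι'` (`ρ b = a`, `ρ i = i` otherwise), `u' = ρ ∘ u`, `v' = ρ ∘ v`.  The cut of
  `C' ⊆ ι'` is the cut of `ρ⁻¹ C'` (nontrivial if `C'` is).  The `C ∈ S` whose cut does not contain `e` are `ρ⁻¹ C'` for `C' = {i' | i'.1 ∈ C}`
  (`a ∈ C ↔ b ∈ C`), and `C'` is one of the sets counted for `ι'`; so there are at most `F (N-1) = 2^k ((N-1) choose k)` of them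
  (`N - 1 ≥ k`).  Double counting: `|S| (|E₁| - m) ≤ ∑_{C ∈ S} (|E₁| - |cut C|) = ∑_{e ∈ E₁} #{C ∈ S : e ∉ cut C} ≤ |E₁| F (N-1)`.
  From `2 m N ≤ k l N ≤ 2 k |E₁|`: `|E₁| (N - k) ≤ (|E₁| - m) N`.  Hence `|S| (N - k) ≤ N F (N-1) = (N - k) 2^k (N choose k)`
  (`Nat.succ_mul_choose_eq`-type identity `N ((N-1) choose k) = (N - k) (N choose k)`), and `|E₁| > 0`.
-/

namespace Pool.Agent.MAC

open Finset

/-- the edges of `E` with exactly one end in `C` -/
def cutS {α ι : Type} [DecidableEq ι] (E : Finset α) (u v : α → ι) (C : Finset ι) : Finset α :=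
  E.filter (fun e => ¬ (u e ∈ C ↔ v e ∈ C))

/-- the contraction map -/
def Kar_rho {ι : Type} [DecidableEq ι] {a b : ι} (h : a ≠ b) (i : ι) : {i : ι // i ≠ b} :=
  if hi : i = b then ⟨a, h⟩ else ⟨i, hi⟩

theorem Kar_rho_b {ι : Type} [DecidableEq ι] {a b : ι} (h : a ≠ b) : Kar_rho h b = ⟨a, h⟩ := by
  unfold Kar_rho
  rw [dif_pos rfl]

theorem Kar_rho_ne {ι : Type} [DecidableEq ι] {a b : ι} (h : a ≠ b) {i : ι} (hi : i ≠ b) :
    Kar_rho h i = ⟨i, hi⟩ := by
  unfold Kar_rho
  rw [dif_neg hi]

/-- the trace of `C` on the contracted vertex set -/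
def Kar_tr {ι : Type} [Fintype ι] [DecidableEq ι] (b : ι) (C : Finset ι) : Finset {i : ι // i ≠ b} :=
  univ.filter (fun i => i.1 ∈ C)

theorem Kar_mem_tr {ι : Type} [Fintype ι] [DecidableEq ι] {a b : ι} (h : a ≠ b) {C : Finset ι}
    (hC : a ∈ C ↔ b ∈ C) (i : ι) : Kar_rho h i ∈ Kar_tr b C ↔ i ∈ C := by
  unfold Kar_tr
  rw [mem_filter]
  simp only [mem_univ, true_and]
  by_cases hi : i = b
  · subst hi
    rw [Kar_rho_b]
    exact hC
  · rw [Kar_rho_ne h hi]

/-- the contraction step -/
theorem Kar_contr (k l m n : ℕ)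
    (ih : ∀ (α ι : Type) [Fintype ι] [DecidableEq ι], Fintype.card ι = n →
      ∀ (E : Finset α) (u v : α → ι),
        (∀ C : Finset ι, C.Nonempty → C ≠ univ → l ≤ (cutS E u v C).card) →
        ((univ : Finset (Finset ι)).filter
          (fun C => C.Nonempty ∧ C ≠ univ ∧ (cutS E u v C).card ≤ m)).card ≤
            2 ^ k * max 1 (n.choose k))
    (α ι : Type) [Fintype ι] [DecidableEq ι] (hcard : Fintype.card ι = n + 1)
    (E : Finset α) (u v : α → ι)
    (hcut : ∀ C : Finset ι, C.Nonempty → C ≠ univ → l ≤ (cutS E u v C).card) {a b : ι} (hab : a ≠ b) :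
    (((univ : Finset (Finset ι)).filter
      (fun C => C.Nonempty ∧ C ≠ univ ∧ (cutS E u v C).card ≤ m)).filter
        (fun C => (a ∈ C ↔ b ∈ C))).card ≤ 2 ^ k * max 1 (n.choose k) := by
  have hc' : Fintype.card {i : ι // i ≠ b} = n := by
    have h1 : Fintype.card {i : ι // i ≠ b} = Fintype.card ι - 1 := by
      simp
    rw [h1, hcard, Nat.add_sub_cancel]
  refine le_trans ?_ (ih α {i : ι // i ≠ b} hc' E (fun e => Kar_rho hab (u e)) (fun e => Kar_rho hab (v e)) ?_)
  · refine card_le_card_of_injOn (Kar_tr b) ?_ ?_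
    · intro C hC
      have hC' := mem_filter.1 (mem_coe.1 hC)
      obtain ⟨h1, h2, h3⟩ := (mem_filter.1 hC'.1).2
      have hab' := hC'.2
      refine mem_coe.2 (mem_filter.2 ⟨mem_univ _, ?_, ?_, ?_⟩)
      · obtain ⟨i, hi⟩ := h1
        exact ⟨_, (Kar_mem_tr hab hab' i).2 hi⟩
      · intro he
        apply h2
        refine eq_univ_iff_forall.2 fun i => ?_
        rw [← Kar_mem_tr hab hab' i, he]
        exact mem_univ _
      · have he : cutS E (fun e => Kar_rho hab (u e)) (fun e => Kar_rho hab (v e)) (Kar_tr b C) =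
            cutS E u v C := by
          unfold cutS
          refine filter_congr fun e _ => ?_
          rw [Kar_mem_tr hab hab', Kar_mem_tr hab hab']
        rw [he]
        exact h3
    · intro C hC D hD hCD
      have hC' := (mem_filter.1 (mem_coe.1 hC)).2
      have hD' := (mem_filter.1 (mem_coe.1 hD)).2
      ext i
      rw [← Kar_mem_tr hab hC' i, ← Kar_mem_tr hab hD' i, hCD]
  · intro C hne huniv
    have he : cutS E (fun e => Kar_rho hab (u e)) (fun e => Kar_rho hab (v e)) C =
        cutS E u v (univ.filter (fun i => Kar_rho hab i ∈ C)) := by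
      unfold cutS
      refine filter_congr fun e _ => ?_
      simp only [mem_filter, mem_univ, true_and]
    rw [he]
    refine hcut _ ?_ ?_
    · obtain ⟨⟨i, hi⟩, hiC⟩ := hne
      refine ⟨i, mem_filter.2 ⟨mem_univ _, ?_⟩⟩
      rw [Kar_rho_ne hab hi]
      exact hiC
    · intro h1
      apply huniv
      refine eq_univ_iff_forall.2 fun i => ?_
      obtain ⟨i, hi⟩ := i
      have h2 := eq_univ_iff_forall.1 h1 i
      have h3 := (mem_filter.1 h2).2
      rw [Kar_rho_ne hab hi] at h3
      exact h3

/-- the cuts of the singletons -/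
theorem Kar_deg {α ι : Type} [Fintype ι] [DecidableEq ι] (E : Finset α) (u v : α → ι) :
    ∑ i : ι, (cutS E u v {i}).card ≤ 2 * (E.filter (fun e => u e ≠ v e)).card := by
  have h1 : ∀ i : ι, (cutS E u v {i}).card = ∑ e ∈ E, if ¬ (u e = i ↔ v e = i) then 1 else 0 := by
    intro i
    unfold cutS
    rw [card_filter]
    simp only [mem_singleton]
  simp only [h1]
  rw [sum_comm, card_filter, mul_sum]
  refine sum_le_sum fun e _ => ?_
  by_cases h : u e = v e
  · simp [h]
  · rw [if_pos h, mul_one]
    rw [← card_filter]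
    have h2 : (univ.filter (fun i => ¬ (u e = i ↔ v e = i))) ⊆ {u e, v e} := by
      intro i hi
      have h3 := (mem_filter.1 hi).2
      rw [mem_insert, mem_singleton]
      by_contra hcon
      push Not at hcon
      exact h3 ⟨fun h4 => absurd h4.symm hcon.1, fun h4 => absurd h4.symm hcon.2⟩
    exact (card_le_card h2).trans card_le_two

theorem Kar_arith {k l m n s x : ℕ} (hl : 1 ≤ l) (hk : 2 * m ≤ k * l) (hn : k ≤ n)
    (h1 : s * x ≤ x * (2 ^ k * n.choose k) + s * m) (h2 : (n + 1) * l ≤ 2 * x) :
    s ≤ 2 ^ k * (n + 1).choose k := by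
  have hx : 0 < x := by
    have : 1 ≤ (n + 1) * l := Nat.mul_pos (Nat.succ_pos n) hl
    omega
  have h3 : m * (n + 1) ≤ k * x := by
    have h4 : 2 * (m * (n + 1)) ≤ 2 * (k * x) := by
      calc 2 * (m * (n + 1)) = 2 * m * (n + 1) := by ring
        _ ≤ k * l * (n + 1) := Nat.mul_le_mul_right _ hk
        _ = k * ((n + 1) * l) := by ring
        _ ≤ k * (2 * x) := Nat.mul_le_mul_left _ h2
        _ = 2 * (k * x) := by ring
    omega
  have h5 : x * (s * (n + 1)) ≤ x * ((2 ^ k * n.choose k) * (n + 1) + s * k) := by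
    calc x * (s * (n + 1)) = s * x * (n + 1) := by ring
      _ ≤ (x * (2 ^ k * n.choose k) + s * m) * (n + 1) := Nat.mul_le_mul_right _ h1
      _ = x * (2 ^ k * n.choose k) * (n + 1) + s * (m * (n + 1)) := by ring
      _ ≤ x * (2 ^ k * n.choose k) * (n + 1) + s * (k * x) := by gcongr
      _ = x * ((2 ^ k * n.choose k) * (n + 1) + s * k) := by ring
  have h6 := Nat.le_of_mul_le_mul_left h5 hx
  have h7 := Nat.choose_mul_succ_eq n k
  have h8 : s * (n + 1 - k) ≤ 2 ^ k * (n + 1).choose k * (n + 1 - k) := by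
    have e1 : s * (n + 1) = s * (n + 1 - k) + s * k := by
      rw [← mul_add, Nat.sub_add_cancel (by omega)]
    have e2 : (2 ^ k * n.choose k) * (n + 1) = 2 ^ k * (n + 1).choose k * (n + 1 - k) := by
      rw [mul_assoc, h7, mul_assoc]
    rw [e1, e2] at h6
    omega
  exact Nat.le_of_mul_le_mul_right h8 (by omega)

theorem karger (k l m : ℕ) (hl : 1 ≤ l) (hk : 2 * m ≤ k * l) :
    ∀ (N : ℕ) (α ι : Type) [Fintype ι] [DecidableEq ι], Fintype.card ι = N →
      ∀ (E : Finset α) (u v : α → ι),
        (∀ C : Finset ι, C.Nonempty → C ≠ univ → l ≤ (cutS E u v C).card) →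
        ((univ : Finset (Finset ι)).filter
          (fun C => C.Nonempty ∧ C ≠ univ ∧ (cutS E u v C).card ≤ m)).card ≤
            2 ^ k * max 1 (N.choose k) := by
  classical
  intro N
  induction N with
  | zero =>
    intro α ι _ _ hcard E u v hcut
    have h1 : IsEmpty ι := Fintype.card_eq_zero_iff.1 hcard
    have h2 : ((univ : Finset (Finset ι)).filter
        (fun C => C.Nonempty ∧ C ≠ univ ∧ (cutS E u v C).card ≤ m)) = ∅ := by
      refine filter_eq_empty_iff.2 fun C _ hC => ?_
      obtain ⟨i, _⟩ := hC.1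
      exact h1.false i
    rw [h2, card_empty]
    exact Nat.zero_le _
  | succ n ih =>
    intro α ι _ _ hcard E u v hcut
    by_cases hnk : n < k
    · calc ((univ : Finset (Finset ι)).filter
            (fun C => C.Nonempty ∧ C ≠ univ ∧ (cutS E u v C).card ≤ m)).card
          ≤ (univ : Finset (Finset ι)).card := card_filter_le _ _
        _ = 2 ^ (n + 1) := by rw [card_univ, Fintype.card_finset, hcard]
        _ ≤ 2 ^ k := Nat.pow_le_pow_right (by norm_num) hnk
        _ = 2 ^ k * 1 := (mul_one _).symm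
        _ ≤ 2 ^ k * max 1 ((n + 1).choose k) := Nat.mul_le_mul_left _ (le_max_left _ _)
    · push Not at hnk
      by_cases hn0 : n = 0
      · have h1 : Subsingleton ι := Fintype.card_le_one_iff_subsingleton.1 (by omega)
        have h2 : ((univ : Finset (Finset ι)).filter
            (fun C => C.Nonempty ∧ C ≠ univ ∧ (cutS E u v C).card ≤ m)) = ∅ := by
          refine filter_eq_empty_iff.2 fun C _ hC => ?_
          obtain ⟨i, hi⟩ := hC.1
          apply hC.2.1
          refine eq_univ_iff_forall.2 fun j => ?_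
          rw [Subsingleton.elim j i]
          exact hi
        rw [h2, card_empty]
        exact Nat.zero_le _
      · obtain ⟨S, hS⟩ : ∃ S, S = (univ : Finset (Finset ι)).filter
            (fun C => C.Nonempty ∧ C ≠ univ ∧ (cutS E u v C).card ≤ m) := ⟨_, rfl⟩
        obtain ⟨E1, hE1⟩ : ∃ E1, E1 = E.filter (fun e => u e ≠ v e) := ⟨_, rfl⟩
        have hch : max 1 (n.choose k) = n.choose k := max_eq_right (Nat.choose_pos hnk)
        -- degrees
        have h2 : (n + 1) * l ≤ 2 * E1.card := by
          rw [hE1]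
          refine le_trans ?_ (Kar_deg E u v)
          have h3 : ∑ _i : ι, l = (n + 1) * l := by
            rw [sum_const, card_univ, hcard, smul_eq_mul]
          rw [← h3]
          refine sum_le_sum fun i _ => hcut {i} (singleton_nonempty i) ?_
          intro h4
          have h5 : (univ : Finset ι).card = 1 := by rw [← h4, card_singleton]
          rw [card_univ, hcard] at h5
          omega
        -- double counting
        have h1 : S.card * E1.card ≤ E1.card * (2 ^ k * n.choose k) + S.card * m := by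
          have hA : ∀ C ∈ S, E1.card ≤ (E1.filter (fun e => (u e ∈ C ↔ v e ∈ C))).card + m := by
            intro C hC
            rw [hS] at hC
            have h3 := (mem_filter.1 hC).2.2.2
            have h4 : E1.card = (E1.filter (fun e => (u e ∈ C ↔ v e ∈ C))).card +
                (E1.filter (fun e => ¬ (u e ∈ C ↔ v e ∈ C))).card :=
              (card_filter_add_card_filter_not _).symm
            have h5 : (E1.filter (fun e => ¬ (u e ∈ C ↔ v e ∈ C))).card ≤ (cutS E u v C).card := by
              refine card_le_card fun e he => ?_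
              obtain ⟨h6, h7⟩ := mem_filter.1 he
              rw [hE1] at h6
              exact mem_filter.2 ⟨(mem_filter.1 h6).1, h7⟩
            omega
          have hB : ∑ C ∈ S, (E1.filter (fun e => (u e ∈ C ↔ v e ∈ C))).card ≤
              E1.card * (2 ^ k * n.choose k) := by
            have h3 : ∑ C ∈ S, (E1.filter (fun e => (u e ∈ C ↔ v e ∈ C))).card =
                ∑ e ∈ E1, (S.filter (fun C => (u e ∈ C ↔ v e ∈ C))).card := by
              simp only [card_filter]
              rw [sum_comm]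
            rw [h3]
            have h4 : ∑ _e ∈ E1, (2 ^ k * n.choose k) = E1.card * (2 ^ k * n.choose k) := by
              rw [sum_const, smul_eq_mul]
            rw [← h4]
            refine sum_le_sum fun e he => ?_
            rw [hE1] at he
            have h5 := Kar_contr k l m n ih α ι hcard E u v hcut (mem_filter.1 he).2
            rw [hch, ← hS] at h5
            exact h5
          calc S.card * E1.card = ∑ _C ∈ S, E1.card := by rw [sum_const, smul_eq_mul]
            _ ≤ ∑ C ∈ S, ((E1.filter (fun e => (u e ∈ C ↔ v e ∈ C))).card + m) := sum_le_sum hA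
            _ = ∑ C ∈ S, (E1.filter (fun e => (u e ∈ C ↔ v e ∈ C))).card + S.card * m := by
                rw [sum_add_distrib, sum_const, smul_eq_mul]
            _ ≤ E1.card * (2 ^ k * n.choose k) + S.card * m := by
                exact Nat.add_le_add_right hB _
        rw [← hS]
        exact (Kar_arith hl hk hnk h1 h2).trans (Nat.mul_le_mul_left _ (le_max_right _ _))

end Pool.Agent.MAC
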