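import Pool.Agent.MAC.ECut
import Pool.Agent.MAC.Kar

/-!
# MAC/KarG: the number of small edge cuts of `G - X`   (difficulty 2)

`W = V \ X`.  Apply `karger` with `ι = {v // v ∈ W}`, `l = K - |Wᶜ| ≥ 1`, the edge type `ι × ι` or `Sym2 V`.  For example: edges = the
elements of `E` with both ends in `W`; `u`, `v` = the two ends (choice, `Sym2` representatives; or use as edges the ordered pairs `(a, b)` of elements of `ι`,
with `s(a, b) ∈ E` and `a < b` for a linear order of `ι`, or one chosen order for every edge).  The cut of `C ⊆ ι` corresponds to `cr E C (W \ C)` (disjoint sets, so every crossing edge is no loop).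
`ecut` with `D = W \ C`, `(C ∪ D)ᶜ = Wᶜ`, gives `l ≤` the size of every nontrivial cut.  Finally
`2^k * max 1 (N choose k) ≤ (2 * card V)^k` (`N ≤ card V`, `choose_le_pow`, `1 ≤ card V` because `Wᶜ.card < K < card V`).
-/

namespace Pool.Agent.MAC

open Finset

variable {V : Type} [Fintype V] [DecidableEq V]

/-- the pairs of elements of `W` joined by an edge -/
def KarGE (E : Finset (Sym2 V)) (W : Finset V) : Finset ({v // v ∈ W} × {v // v ∈ W}) :=
  univ.filter (fun q => s(q.1.1, q.2.1) ∈ E)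

/-- the subset of `V` given by a set of elements of `W` -/
def KarGM (W : Finset V) (C : Finset {v // v ∈ W}) : Finset V := C.map (Function.Embedding.subtype _)

omit [Fintype V] [DecidableEq V] in
theorem mem_KarGM (W : Finset V) (C : Finset {v // v ∈ W}) (x : V) :
    x ∈ KarGM W C ↔ ∃ h : x ∈ W, (⟨x, h⟩ : {v // v ∈ W}) ∈ C := by
  unfold KarGM
  simp

theorem KarG_card1 (E : Finset (Sym2 V)) (W : Finset V) (C : Finset {v // v ∈ W}) :
    ((KarGE E W).filter (fun q => q.1 ∈ C ∧ q.2 ∉ C)).card =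
      (cr E (KarGM W C) (W \ KarGM W C)).card := by
  rw [card_cr E disjoint_sdiff]
  apply Finset.card_bij (fun q _ => (q.1.1, q.2.1))
  · intro q hq
    rw [mem_filter] at hq
    obtain ⟨h1, h2, h3⟩ := hq
    unfold KarGE at h1
    rw [mem_filter] at h1
    rw [mem_filter, mem_product, mem_sdiff, mem_KarGM, mem_KarGM]
    exact ⟨⟨⟨q.1.2, h2⟩, q.2.2, fun ⟨_, h4⟩ => h3 h4⟩, h1.2⟩
  · intro q _ q' _ h
    rw [Prod.mk.injEq] at h
    exact Prod.ext (Subtype.ext h.1) (Subtype.ext h.2)
  · intro r hr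
    rw [mem_filter, mem_product, mem_sdiff, mem_KarGM, mem_KarGM] at hr
    obtain ⟨⟨⟨h1, h2⟩, h3, h4⟩, h5⟩ := hr
    refine ⟨(⟨r.1, h1⟩, ⟨r.2, h3⟩), ?_, rfl⟩
    rw [mem_filter]
    refine ⟨?_, h2, fun h => h4 ⟨h3, h⟩⟩
    unfold KarGE
    rw [mem_filter]
    exact ⟨mem_univ _, h5⟩

omit [Fintype V] in
theorem KarG_card2 (E : Finset (Sym2 V)) (W : Finset V) (C : Finset {v // v ∈ W}) :
    ((KarGE E W).filter (fun q => q.1 ∉ C ∧ q.2 ∈ C)).card =
      ((KarGE E W).filter (fun q => q.1 ∈ C ∧ q.2 ∉ C)).card := by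
  apply Finset.card_bij (fun q _ => (q.2, q.1))
  · intro q hq
    rw [mem_filter] at hq ⊢
    obtain ⟨h1, h2, h3⟩ := hq
    refine ⟨?_, h3, h2⟩
    unfold KarGE at h1 ⊢
    rw [mem_filter] at h1 ⊢
    refine ⟨mem_univ _, ?_⟩
    rw [Sym2.eq_swap]
    exact h1.2
  · intro q _ q' _ h
    rw [Prod.mk.injEq] at h
    exact Prod.ext h.2 h.1
  · intro q hq
    rw [mem_filter] at hq
    obtain ⟨h1, h2, h3⟩ := hq
    refine ⟨(q.2, q.1), ?_, rfl⟩
    rw [mem_filter]
    refine ⟨?_, h3, h2⟩
    unfold KarGE at h1 ⊢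
    rw [mem_filter] at h1 ⊢
    refine ⟨mem_univ _, ?_⟩
    rw [Sym2.eq_swap]
    exact h1.2

theorem KarG_card (E : Finset (Sym2 V)) (W : Finset V) (C : Finset {v // v ∈ W}) :
    (cutS (KarGE E W) Prod.fst Prod.snd C).card =
      2 * (cr E (KarGM W C) (W \ KarGM W C)).card := by
  have h1 : cutS (KarGE E W) Prod.fst Prod.snd C =
      (KarGE E W).filter (fun q => q.1 ∈ C ∧ q.2 ∉ C) ∪
        (KarGE E W).filter (fun q => q.1 ∉ C ∧ q.2 ∈ C) := by
    ext q
    unfold cutS
    simp only [mem_filter, mem_union]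
    tauto
  rw [h1, card_union_of_disjoint, KarG_card2, KarG_card1, two_mul]
  rw [disjoint_filter]
  intro q _ h2 h3
  exact h3.1 h2.1

theorem kar_count {E : Finset (Sym2 V)} {K : ℕ} (hE : KC E K) (W : Finset V) (m k : ℕ)
    (hW : (Wᶜ).card < K) (hk : 2 * m ≤ k * (K - (Wᶜ).card)) :
    (W.powerset.filter (fun C => C.Nonempty ∧ C ≠ W ∧ (cr E C (W \ C)).card ≤ m)).card ≤
      (2 * Fintype.card V) ^ k := by
  have hK := karger k (2 * (K - (Wᶜ).card)) (2 * m) (by omega)
    (by
      have : k * (2 * (K - (Wᶜ).card)) = 2 * (k * (K - (Wᶜ).card)) := by ring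
      rw [this]
      omega) (Fintype.card {v // v ∈ W}) ({v // v ∈ W} × {v // v ∈ W}) {v // v ∈ W} rfl
    (KarGE E W) Prod.fst Prod.snd
    (by
      intro C hC hC'
      rw [KarG_card]
      have h1 : KarGM W C ⊆ W := by
        intro x hx
        rw [mem_KarGM] at hx
        exact hx.1
      have h2 : (KarGM W C).Nonempty := by
        obtain ⟨x, hx⟩ := hC
        exact ⟨x.1, (mem_KarGM W C x.1).2 ⟨x.2, hx⟩⟩
      have h3 : (W \ KarGM W C).Nonempty := by
        by_contra hne
        rw [not_nonempty_iff_eq_empty, sdiff_eq_empty_iff_subset] at hne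
        apply hC'
        rw [eq_univ_iff_forall]
        intro x
        exact ((mem_KarGM W C x.1).1 (hne x.2)).2
      have h4 := ecut hE (disjoint_sdiff (s := KarGM W C) (t := W)) h2 h3
      rw [union_sdiff_of_subset h1] at h4
      omega)
  have hc : (W.powerset.filter
      (fun C => C.Nonempty ∧ C ≠ W ∧ (cr E C (W \ C)).card ≤ m)).card ≤
      ((univ : Finset (Finset {v // v ∈ W})).filter
        (fun C => C.Nonempty ∧ C ≠ univ ∧
          (cutS (KarGE E W) Prod.fst Prod.snd C).card ≤ 2 * m)).card := by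
    have hback : ∀ C : Finset V, C ⊆ W → KarGM W (C.subtype (fun v => v ∈ W)) = C := by
      intro C hCW
      ext x
      rw [mem_KarGM]
      constructor
      · rintro ⟨h, h'⟩
        rw [mem_subtype] at h'
        exact h'
      · intro h
        refine ⟨hCW h, ?_⟩
        rw [mem_subtype]
        exact h
    apply Finset.card_le_card_of_injOn (fun C => C.subtype (fun v => v ∈ W))
    · intro C hC
      simp only [coe_filter, Set.mem_ofPred_eq, mem_powerset] at hC
      obtain ⟨h1, h2, h3, h4⟩ := hC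
      simp only [coe_filter, Set.mem_ofPred_eq, mem_univ, true_and]
      refine ⟨?_, ?_, ?_⟩
      · obtain ⟨x, hx⟩ := h2
        refine ⟨⟨x, h1 hx⟩, ?_⟩
        rw [mem_subtype]
        exact hx
      · intro h
        apply h3
        apply Finset.Subset.antisymm h1
        intro x hx
        have : (⟨x, hx⟩ : {v // v ∈ W}) ∈ C.subtype (fun v => v ∈ W) := by
          rw [h]
          exact mem_univ _
        rw [mem_subtype] at this
        exact this
      · rw [KarG_card, hback C h1]
        omega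
    · intro C hC C' hC' h
      simp only [coe_filter, Set.mem_ofPred_eq, mem_powerset] at hC hC'
      have h1 := hback C hC.1
      have h2 := hback C' hC'.1
      rw [← h1, ← h2]
      exact congrArg (KarGM W) h
  have hV : 1 ≤ Fintype.card V := by
    have := hE.1
    omega
  have hN : Fintype.card {v // v ∈ W} ≤ Fintype.card V := Fintype.card_subtype_le _
  refine hc.trans (hK.trans ?_)
  rw [mul_pow]
  apply Nat.mul_le_mul_left
  apply max_le (Nat.one_le_pow _ _ hV)
  exact (Nat.choose_le_pow _ _).trans (Nat.pow_le_pow_left hN k)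

end Pool.Agent.MAC
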