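import Pool.Agent.MAC.Defs

/-!
# MAC/Kon: Koenig's theorem   (difficulty 3)

If every vertex cover of the bipartite graph has at least `k` elements, there is a matching with `k` edges.
Proof from Hall's theorem (`Finset.all_card_le_biUnion_card_iff_exists_injective`).  `L` itself is a cover: `k ≤ |L|`.  Let `δ = |L| - k`.  Right side:
`R` and `δ` dummy elements (type `V ⊕ Fin δ`), `t l = {r ∈ R : adj l r} ∪ dummies`.  Hall's condition for `S ⊆ L` nonempty: `(L \ S) ∪ N(S)` is a cover, so
`k ≤ |L| - |S| + |N(S)|`, i.e. `|S| ≤ |N(S)| + δ`.  The injective choice function sends at most `δ` elements of `L` to dummies; the others give a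
matching with at least `k` edges; take `k` of them.
-/

namespace Pool.Agent.MAC

open Finset

variable {V : Type} [Fintype V] [DecidableEq V]

theorem koenig (L R : Finset V) (hLR : Disjoint L R) (adj : V → V → Prop) (k : ℕ)
    (hk : ∀ Z : Finset V, (∀ l ∈ L, ∀ r ∈ R, adj l r → l ∈ Z ∨ r ∈ Z) → k ≤ Z.card) :
    ∃ M : Finset (V × V), M.card = k ∧ (∀ q ∈ M, q.1 ∈ L ∧ q.2 ∈ R ∧ adj q.1 q.2) ∧
      (∀ q ∈ M, ∀ q' ∈ M, q.1 = q'.1 → q = q') ∧ (∀ q ∈ M, ∀ q' ∈ M, q.2 = q'.2 → q = q') := by
  classical
  have hkL : k ≤ L.card := hk L fun l hl r hr h => Or.inl hl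
  obtain ⟨δ, hδ⟩ : ∃ δ, L.card = k + δ := ⟨L.card - k, by omega⟩
  let t : {l // l ∈ L} → Finset (V ⊕ Fin δ) := fun l =>
    (R.filter (adj l.1)).image Sum.inl ∪ univ.image Sum.inr
  have hall : ∀ s : Finset {l // l ∈ L}, s.card ≤ (s.biUnion t).card := by
    intro s
    rcases s.eq_empty_or_nonempty with rfl | hs
    · simp
    let S : Finset V := s.image Subtype.val
    have hSc : S.card = s.card := card_image_of_injective _ Subtype.val_injective
    have hSL : S ⊆ L := by
      intro v hv
      obtain ⟨w, -, rfl⟩ := mem_image.1 hv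
      exact w.2
    let NS : Finset V := R.filter fun r => ∃ l ∈ S, adj l r
    have hZ := hk ((L \ S) ∪ NS) (by
      intro l hl r hr h
      by_cases hlS : l ∈ S
      · right
        exact mem_union_right _ (mem_filter.2 ⟨hr, l, hlS, h⟩)
      · left
        exact mem_union_left _ (mem_sdiff.2 ⟨hl, hlS⟩))
    have h1 : ((L \ S) ∪ NS).card ≤ (L \ S).card + NS.card := card_union_le _ _
    have h2 : (L \ S).card + S.card = L.card := card_sdiff_add_card_eq_card hSL
    have h3 : NS.card + δ ≤ (s.biUnion t).card := by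
      have h4 : NS.image (Sum.inl : V → V ⊕ Fin δ) ∪ univ.image Sum.inr ⊆ s.biUnion t := by
        intro z hz
        rcases mem_union.1 hz with hz | hz
        · obtain ⟨r, hr, rfl⟩ := mem_image.1 hz
          obtain ⟨hrR, l, hl, hlr⟩ := mem_filter.1 hr
          obtain ⟨w, hw, rfl⟩ := mem_image.1 hl
          exact mem_biUnion.2 ⟨w, hw, mem_union_left _ (mem_image.2 ⟨r, mem_filter.2 ⟨hrR, hlr⟩, rfl⟩)⟩
        · obtain ⟨w, hw⟩ := hs
          exact mem_biUnion.2 ⟨w, hw, mem_union_right _ hz⟩
      have h5 := card_le_card h4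
      rw [card_union_of_disjoint, card_image_of_injective _ Sum.inl_injective,
        card_image_of_injective _ Sum.inr_injective, card_univ, Fintype.card_fin] at h5
      · exact h5
      · rw [disjoint_left]
        intro z hz hz'
        obtain ⟨r, -, rfl⟩ := mem_image.1 hz
        obtain ⟨r', -, h⟩ := mem_image.1 hz'
        exact Sum.inr_ne_inl h
    omega
  obtain ⟨f, hf, hft⟩ := (Finset.all_card_le_biUnion_card_iff_exists_injective t).1 hall
  -- the elements which are not matched with a dummy
  let A : Finset {l // l ∈ L} := univ.filter fun l => (f l).isLeft = true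
  have hA : k ≤ A.card := by
    have h1 : (univ.filter fun l : {l // l ∈ L} => ¬ (f l).isLeft = true).card ≤ δ := by
      have h2 : (univ.filter fun l : {l // l ∈ L} => ¬ (f l).isLeft = true).card =
          ((univ.filter fun l : {l // l ∈ L} => ¬ (f l).isLeft = true).image f).card :=
        (card_image_of_injective _ hf).symm
      have h3 : (univ.filter fun l : {l // l ∈ L} => ¬ (f l).isLeft = true).image f ⊆
          (univ : Finset (Fin δ)).image Sum.inr := by
        intro z hz
        obtain ⟨l, hl, rfl⟩ := mem_image.1 hz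
        have h4 := (mem_filter.1 hl).2
        rcases hfl : f l with a | a
        · rw [hfl] at h4
          exact absurd rfl h4
        · exact mem_image.2 ⟨a, mem_univ _, rfl⟩
      rw [h2]
      refine (card_le_card h3).trans ?_
      rw [card_image_of_injective _ Sum.inr_injective, card_univ, Fintype.card_fin]
    have h5 : A.card + (univ.filter fun l : {l // l ∈ L} => ¬ (f l).isLeft = true).card =
        (univ : Finset {l // l ∈ L}).card := card_filter_add_card_filter_not _
    rw [card_univ, Fintype.card_coe] at h5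
    omega
  let g : {l // l ∈ L} → V × V := fun l => (l.1, (f l).elim id fun _ => l.1)
  have hg : Function.Injective g := by
    intro a b h
    exact Subtype.ext (Prod.mk.inj h).1
  obtain ⟨M, hMs, hMc⟩ := exists_subset_card_eq (s := A.image g) (n := k) (by
    rw [card_image_of_injective _ hg]
    exact hA)
  have hM : ∀ q ∈ M, ∃ l : {l // l ∈ L}, q.1 = l.1 ∧ f l = Sum.inl q.2 := by
    intro q hq
    obtain ⟨l, hl, rfl⟩ := mem_image.1 (hMs hq)
    have h4 := (mem_filter.1 hl).2
    refine ⟨l, rfl, ?_⟩
    rcases hfl : f l with a | a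
    · show Sum.inl a = Sum.inl ((f l).elim id fun _ => l.1)
      rw [hfl]
      rfl
    · rw [hfl] at h4
      exact absurd h4 (by simp)
  refine ⟨M, hMc, ?_, ?_, ?_⟩
  · intro q hq
    obtain ⟨l, h1, h2⟩ := hM q hq
    have h3 := hft l
    rw [h2] at h3
    rcases mem_union.1 h3 with h3 | h3
    · obtain ⟨r, hr, hr'⟩ := mem_image.1 h3
      obtain ⟨hrR, hadj⟩ := mem_filter.1 hr
      rw [Sum.inl.inj hr'] at hrR hadj
      rw [h1]
      exact ⟨l.2, hrR, hadj⟩
    · obtain ⟨r, -, hr⟩ := mem_image.1 h3
      exact absurd hr Sum.inr_ne_inl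
  · intro q hq q' hq' h
    obtain ⟨l, h1, h2⟩ := hM q hq
    obtain ⟨l', h1', h2'⟩ := hM q' hq'
    have h3 : l = l' := Subtype.ext (by rw [← h1, ← h1', h])
    rw [h3, h2'] at h2
    exact Prod.ext h (Sum.inl.inj h2).symm
  · intro q hq q' hq' h
    obtain ⟨l, h1, h2⟩ := hM q hq
    obtain ⟨l', h1', h2'⟩ := hM q' hq'
    have h3 : l = l' := hf (by rw [h2, h2', h])
    exact Prod.ext (by rw [h1, h1', h3]) h

end Pool.Agent.MAC
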