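import Pool.Agent.MAC.Smp
import Pool.Agent.MAC.ConA
import Pool.Agent.MAC.ConB

/-!
# MAC/Main: the asymptotic version of Mader's conjecture   (helper19)
-/

namespace Pool.Agent.MAC

open Finset

theorem main : ∀ ε : ℝ, 0 < ε → ∃ C : ℝ, ∀ s t K : ℕ, 1 ≤ s → 1 ≤ t →
    (s : ℝ) ≤ (1 - ε) * K → (t : ℝ) ≤ (1 - ε) * K →
    ∀ (V : Type) [Fintype V] (G : SimpleGraph V),
      (s : ℝ) + t + C * Real.sqrt K * (Real.log (Fintype.card V)) ^ 2 ≤ K →
      (K < Fintype.card V ∧
        ∀ S : Finset V, S.card < K → (G.induce ((S : Set V)ᶜ)).Connected) →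
      ∃ A : Set (Sym2 V), A ⊆ G.edgeSet ∧
        (s < (SimpleGraph.fromEdgeSet A).support.ncard ∧
          ∀ S : Finset V, S.card < s →
            ((SimpleGraph.fromEdgeSet A).induce
              ((SimpleGraph.fromEdgeSet A).support \ (S : Set V))).Connected) ∧
        (t < (SimpleGraph.fromEdgeSet (G.edgeSet \ A)).support.ncard ∧
          ∀ S : Finset V, S.card < t →
            ((SimpleGraph.fromEdgeSet (G.edgeSet \ A)).induce
              ((SimpleGraph.fromEdgeSet (G.edgeSet \ A)).support \ (S : Set V))).Connected) := by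
  intro ε hε
  by_cases hε1 : ε < 1
  swap
  · refine ⟨0, ?_⟩
    intro s t K hs ht hsK
    exfalso
    have h1 : (1 : ℝ) ≤ s := by exact_mod_cast hs
    have hK : (0 : ℝ) ≤ K := Nat.cast_nonneg K
    push Not at hε1
    nlinarith
  obtain ⟨C, hC, hsamp⟩ := sampling ε hε hε1
  refine ⟨4 * C, ?_⟩
  intro s t K hs ht hsK htK V _ G hK hG
  classical
  set E := G.edgeFinset with hEdef
  have hEset : (E : Set (Sym2 V)) = G.edgeSet := by
    rw [hEdef]
    exact SimpleGraph.coe_edgeFinset G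
  have hE : KC E K := kc_of_graph G E hEset K hG
  have hs' : (1 : ℝ) ≤ s := by exact_mod_cast hs
  have ht' : (1 : ℝ) ≤ t := by exact_mod_cast ht
  have hKpos : (0 : ℝ) < K := by
    by_contra hcon
    push Not at hcon
    have hK0 : (0 : ℝ) ≤ K := Nat.cast_nonneg K
    have : (K : ℝ) = 0 := le_antisymm hcon hK0
    rw [this, mul_zero] at hsK
    linarith
  have hK1 : 1 ≤ K := by exact_mod_cast hKpos
  have hn : 2 ≤ Fintype.card V := by have := hG.1; omega
  have hn' : (2 : ℝ) ≤ Fintype.card V := by exact_mod_cast hn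
  have hlog : Real.log (2 * (Fintype.card V : ℝ)) ≤ 2 * Real.log (Fintype.card V) := by
    rw [Real.log_mul (by norm_num) (by linarith)]
    have := Real.log_le_log (by norm_num) hn'
    linarith
  have hlog0 : 0 ≤ Real.log (2 * (Fintype.card V : ℝ)) := Real.log_nonneg (by linarith)
  have hlog2 : (Real.log (2 * (Fintype.card V : ℝ))) ^ 2 ≤ 4 * (Real.log (Fintype.card V)) ^ 2 := by
    nlinarith
  set Δ : ℝ := (K : ℝ) - s - t with hΔdef
  have hsq : 0 ≤ Real.sqrt K := Real.sqrt_nonneg _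
  have hΔ : C * Real.sqrt K * (Real.log (2 * (Fintype.card V : ℝ))) ^ 2 ≤ Δ := by
    have h1 : C * Real.sqrt K * (Real.log (2 * (Fintype.card V : ℝ))) ^ 2 ≤
        C * Real.sqrt K * (4 * (Real.log (Fintype.card V)) ^ 2) :=
      mul_le_mul_of_nonneg_left hlog2 (by positivity)
    have h2 : C * Real.sqrt K * (4 * (Real.log (Fintype.card V)) ^ 2) =
        4 * C * Real.sqrt K * (Real.log (Fintype.card V)) ^ 2 := by ring
    rw [hΔdef]
    linarith
  have hΔ0 : 0 ≤ Δ := le_trans (by positivity) hΔ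
  set p : ℝ := (s + Δ / 2) / K with hpdef
  have hp : p * K = s + Δ / 2 := by
    rw [hpdef]
    field_simp
  have hq : (1 - p) * K = t + Δ / 2 := by
    rw [sub_mul, hp, hΔdef]
    ring
  have hp0 : 0 ≤ p := by
    rw [hpdef]
    positivity
  have hq0 : 0 ≤ 1 - p := by
    by_contra hcon
    push Not at hcon
    have : (1 - p) * K < 0 := mul_neg_of_neg_of_pos hcon hKpos
    rw [hq] at this
    linarith
  have hP1 := hsamp V E K s Δ p hE hs hsK hΔ hp (by linarith)
  have hP2 := hsamp V E K t Δ (1 - p) hE ht htK hΔ hq (by linarith)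
  obtain ⟨A, hAE, hA, hB⟩ := Pr_exists hp0 (by linarith) E (fun A => ¬ KC A s)
    (fun A => ¬ KC (E \ A) t) (by
      rw [Pr_compl p E (fun A => ¬ KC A t)]
      linarith)
  push Not at hA hB
  refine ⟨(A : Set (Sym2 V)), ?_, graph_of_kc A s hs hA _ rfl,
    graph_of_kc (E \ A) t ht hB _ ?_⟩
  · rw [← hEset]
    exact_mod_cast hAE
  · rw [← hEset]
    push_cast
    rfl

end Pool.Agent.MAC
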