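import Mathlib

/-!
# MAC/Num1: the choice of `N`   (difficulty 2)

Choose `T₀ ≥ 2` with `b + 30 + 10 log₂ T₀ ≤ ε T₀` (exists: `log x = o(x)`), and `C₀ = 2 T₀`.  For `L ≥ 1` let `N` be the least natural number with `T₀ L² ≤ 2^N`; `N ≥ 1`,
`2^(N-1) < T₀ L²`, so `2^N ≤ 2 T₀ L²` and `N ≤ 1 + log₂ T₀ + 2 log₂ L ≤ 1 + log₂ T₀ + 2 L`-type bounds (`log₂ L ≤ L`).  Hence
`b + 10 N L ≤ b + 10 L (1 + log₂ T₀ + 2 L) ≤ (b + 30 + 10 log₂ T₀) L² ≤ ε T₀ L² ≤ ε 2^N`.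
-/

namespace Pool.Agent.MAC

theorem Num1.sq (i : ℕ) : i ^ 2 ≤ 4 * 2 ^ i := by
  induction i with
  | zero => norm_num
  | succ i ih =>
    have h : i < 2 ^ i := Nat.lt_two_pow_self
    have e : (i + 1) ^ 2 = i ^ 2 + (2 * i + 1) := by ring
    have e2 : 2 ^ (i + 1) = 2 * 2 ^ i := by ring
    rw [e, e2]
    have h' : 2 * i + 1 ≤ 4 * 2 ^ i := by omega
    omega

theorem num1 (ε : ℝ) (hε : 0 < ε) (b : ℕ) : ∃ C₀ : ℝ, 0 < C₀ ∧ ∀ L : ℝ, 1 ≤ L →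
    ∃ N : ℕ, 1 ≤ N ∧ (2 : ℝ) ^ N ≤ C₀ * L ^ 2 ∧ (b : ℝ) + 10 * N * L ≤ 2 ^ N * ε := by
  obtain ⟨k₀, hk₀⟩ := exists_nat_ge (4 * ((b : ℝ) + 40) / ε)
  obtain ⟨k, hk1, hk⟩ : ∃ k : ℕ, 1 ≤ k ∧ 4 * ((b : ℝ) + 40) / ε ≤ k :=
    ⟨k₀ + 1, by omega, hk₀.trans (by push_cast; linarith)⟩
  have hkR : (1 : ℝ) ≤ k := by exact_mod_cast hk1
  have hb0 : (0 : ℝ) ≤ b := Nat.cast_nonneg b
  have hk2 : 4 * ((b : ℝ) + 40) ≤ k * ε := by
    rwa [div_le_iff₀ hε] at hk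
  have hk3 : (b : ℝ) + 30 + 10 * k ≤ ε * 2 ^ k := by
    have h1 : ((k : ℝ)) ^ 2 ≤ 4 * 2 ^ k := by exact_mod_cast Num1.sq k
    have h2 : 4 * ((b : ℝ) + 40) * k ≤ k * ε * k := mul_le_mul_of_nonneg_right hk2 (by linarith)
    have h3 : ε * (k : ℝ) ^ 2 ≤ ε * (4 * 2 ^ k) := mul_le_mul_of_nonneg_left h1 hε.le
    have h4 : (b : ℝ) ≤ b * k := by nlinarith
    nlinarith
  refine ⟨2 * 2 ^ k, by positivity, fun L hL => ?_⟩
  have hL2 : (1 : ℝ) ≤ L ^ 2 := by nlinarith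
  have hex : ∃ j : ℕ, L ^ 2 ≤ 2 ^ j := by
    obtain ⟨j, hj⟩ := pow_unbounded_of_one_lt (L ^ 2) (one_lt_two : (1 : ℝ) < 2)
    exact ⟨j, hj.le⟩
  classical
  let j := Nat.find hex
  have hj : L ^ 2 ≤ 2 ^ j := Nat.find_spec hex
  have hj2 : (2 : ℝ) ^ j ≤ 2 * L ^ 2 ∧ (j : ℝ) ≤ 1 + 2 * L := by
    rcases Nat.eq_zero_or_pos j with h0 | hpos
    · rw [h0]
      constructor
      · norm_num; linarith
      · norm_num; linarith
    · obtain ⟨i, hi⟩ : ∃ i, j = i + 1 := ⟨j - 1, by omega⟩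
      have h1 : (2 : ℝ) ^ i < L ^ 2 := by
        have := Nat.find_min hex (m := i) (by omega)
        push Not at this
        exact this
      rw [hi]
      constructor
      · rw [pow_succ]; linarith
      · have h2 : ((i : ℝ)) ^ 2 ≤ 4 * 2 ^ i := by exact_mod_cast Num1.sq i
        have h3 : ((i : ℝ)) ^ 2 < (2 * L) ^ 2 := by nlinarith
        have h4 : (i : ℝ) < 2 * L := lt_of_pow_lt_pow_left₀ 2 (by linarith) h3
        push_cast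
        linarith
  refine ⟨k + j, by omega, ?_, ?_⟩
  · rw [pow_add]
    have : (0 : ℝ) < 2 ^ k := by positivity
    nlinarith [hj2.1]
  · have h2k : (0 : ℝ) < 2 ^ k := by positivity
    have h5 : ((k + j : ℕ) : ℝ) * L ≤ (k + 1 + 2 * L) * L := by
      push_cast
      have := hj2.2
      nlinarith
    have h6 : (b : ℝ) + 10 * ((k + 1 + 2 * L) * L) ≤ (b + 30 + 10 * k) * L ^ 2 := by
      have h7 : L ≤ L ^ 2 := by nlinarith
      have h8 : (b : ℝ) ≤ b * L ^ 2 := by nlinarith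
      have h9 : (k : ℝ) * L ≤ k * L ^ 2 := mul_le_mul_of_nonneg_left h7 (by linarith)
      nlinarith
    have h10 : ((b : ℝ) + 30 + 10 * k) * L ^ 2 ≤ ε * 2 ^ k * 2 ^ j :=
      mul_le_mul hk3 hj (by positivity) (by positivity)
    rw [pow_add]
    calc (b : ℝ) + 10 * ((k + j : ℕ) : ℝ) * L = b + 10 * (((k + j : ℕ) : ℝ) * L) := by ring
      _ ≤ b + 10 * ((k + 1 + 2 * L) * L) := by linarith
      _ ≤ _ := h6
      _ ≤ _ := h10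
      _ = _ := by ring

end Pool.Agent.MAC
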