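import Pool.Agent.MAC.PrbB

/-!
# MAC/Pcut: the test edges of the random subgraph   (difficulty 2)

Union bound (`Pr_union`, `Pr_mono`) over the triples `(y, v, w) ∈ Y ×ˢ univ ×ˢ univ` with `v ∈ y`, `w ∉ y`; each event has probability
`≤ exp (-(a²/(2 p (K-1))))` by `Pr_few` with `m = K - 1` (`((K - 1 : ℕ) : ℝ) = K - 1`).
-/

namespace Pool.Agent.MAC

open Finset

variable {V : Type} [Fintype V] [DecidableEq V]

theorem pcut {E : Finset (Sym2 V)} {K : ℕ} (hK : 2 ≤ K)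
    (F : Finset V → V → V → Finset (Sym2 V)) (hF : ∀ y v w, F y v w ⊆ E)
    (hF' : ∀ (y : Finset V) (v w : V), v ∈ y → w ∉ y → (F y v w).card = K - 1)
    (Y : Finset (Finset V)) {p : ℝ} (hp0 : 0 < p) (hp1 : p ≤ 1) (a : ℝ) (ha : 0 ≤ a) :
    Pr p E (fun A => ∃ y ∈ Y, ∃ v ∈ y, ∃ w, w ∉ y ∧
        ((A ∩ F y v w).card : ℝ) ≤ p * ((K : ℝ) - 1) - a) ≤
      Y.card * (Fintype.card V : ℝ) ^ 2 * Real.exp (-(a ^ 2 / (2 * p * ((K : ℝ) - 1)))) := by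
  classical
  set b : ℝ := Real.exp (-(a ^ 2 / (2 * p * ((K : ℝ) - 1)))) with hb
  have hK1 : ((K - 1 : ℕ) : ℝ) = (K : ℝ) - 1 := by
    rw [Nat.cast_sub (by omega), Nat.cast_one]
  set s : Finset (Finset V × V × V) := (Y ×ˢ (univ ×ˢ univ)).filter (fun t => t.2.1 ∈ t.1 ∧ t.2.2 ∉ t.1) with hs
  have h1 : Pr p E (fun A => ∃ y ∈ Y, ∃ v ∈ y, ∃ w, w ∉ y ∧
        ((A ∩ F y v w).card : ℝ) ≤ p * ((K : ℝ) - 1) - a) ≤
      Pr p E (fun A => ∃ t ∈ s, ((A ∩ F t.1 t.2.1 t.2.2).card : ℝ) ≤ p * ((K - 1 : ℕ) : ℝ) - a) := by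
    refine Pr_mono hp0.le hp1 E ?_
    rintro A - ⟨y, hy, v, hv, w, hw, h⟩
    refine ⟨(y, v, w), ?_, ?_⟩
    · rw [hs, mem_filter]
      exact ⟨mem_product.2 ⟨hy, mem_product.2 ⟨mem_univ _, mem_univ _⟩⟩, hv, hw⟩
    · rw [hK1]
      exact h
  have h2 := Pr_union hp0.le hp1 E s
    (fun t A => ((A ∩ F t.1 t.2.1 t.2.2).card : ℝ) ≤ p * ((K - 1 : ℕ) : ℝ) - a)
  have h3 : ∑ t ∈ s, Pr p E (fun A => ((A ∩ F t.1 t.2.1 t.2.2).card : ℝ) ≤ p * ((K - 1 : ℕ) : ℝ) - a) ≤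
      s.card • b := by
    refine sum_le_card_nsmul s _ b ?_
    intro t ht
    rw [hs, mem_filter] at ht
    have h4 := Pr_few hp0 hp1 (hF t.1 t.2.1 t.2.2) (K - 1) (by omega)
      (hF' t.1 t.2.1 t.2.2 ht.2.1 ht.2.2).ge a ha
    rw [hb, ← hK1]
    exact h4
  have h4 : s.card ≤ Y.card * (Fintype.card V * Fintype.card V) := by
    calc s.card ≤ (Y ×ˢ ((univ : Finset V) ×ˢ (univ : Finset V))).card := card_filter_le _ _
      _ = Y.card * (Fintype.card V * Fintype.card V) := by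
        rw [card_product, card_product, card_univ]
  have h5 : s.card • b ≤ Y.card * (Fintype.card V : ℝ) ^ 2 * b := by
    rw [nsmul_eq_mul]
    refine mul_le_mul_of_nonneg_right ?_ (Real.exp_pos _).le
    calc (s.card : ℝ) ≤ ((Y.card * (Fintype.card V * Fintype.card V) : ℕ) : ℝ) := by exact_mod_cast h4
      _ = Y.card * (Fintype.card V : ℝ) ^ 2 := by
        push_cast
        ring
  exact h1.trans (h2.trans (h3.trans h5))

end Pool.Agent.MAC
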