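import Pool.Agent.MAC.PrbA

/-!
# MAC/PrbB: the two tail bounds   (difficulty 2)

Product formula (`Finset.prod_add`): for `g : α → ℝ`,
`∑_{A ⊆ E} wt p E A * ∏_{e ∈ A} g e = ∏_{e ∈ E} (p * g e + (1 - p))`.
* `Pr_absent`: `g = 0` on `F`, `1` elsewhere (or: the subsets of `E` disjoint from `F` are the subsets of
  `E \ F`, and `wt p E A = wt p (E \ F) A * (1-p)^|F|`, `Pr_true`).  Then `1 - p ≤ exp (-p)`.
* `Pr_few` (Chernoff): choose `F' ⊆ F` with exactly `m` elements; `|A ∩ F'| ≤ |A ∩ F| ≤ p m - a`.  Put `θ = a/(p m) ≥ 0`.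
  Markov: `Pr (|A ∩ F'| ≤ p m - a) ≤ exp (θ (p m - a)) * ∑_A wt * exp (-θ |A ∩ F'|)`
  `= exp (θ (p m - a)) (p exp (-θ) + 1 - p)^m ≤ exp (θ (p m - a) - p m (1 - exp (-θ)))`, and
  `1 - exp (-θ) ≥ θ - θ²/2` for `θ ≥ 0` (for example from `Real.exp_bound`-type lemmas or by monotonicity),
  so the exponent is `≤ -θ a + p m θ²/2 = -a²/(2 p m)`.
-/

namespace Pool.Agent.MAC

open Finset

variable {α : Type} [DecidableEq α]

theorem PrbB_prod (p : ℝ) (E : Finset α) (g : α → ℝ) :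
    ∑ A ∈ E.powerset, wt p E A * ∏ e ∈ A, g e = ∏ e ∈ E, (p * g e + (1 - p)) := by
  rw [Finset.prod_add (fun e => p * g e) (fun _ => 1 - p) E]
  refine sum_congr rfl fun A _ => ?_
  unfold wt
  rw [prod_mul_distrib, prod_const, prod_const]
  ring

theorem PrbB_two (p x : ℝ) {E F : Finset α} (hF : F ⊆ E) :
    ∑ A ∈ E.powerset, wt p E A * x ^ (A ∩ F).card = (p * x + (1 - p)) ^ F.card := by
  have h1 : ∀ A : Finset α, ∏ e ∈ A, (if e ∈ F then x else 1) = x ^ (A ∩ F).card := by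
    intro A
    rw [prod_ite_mem, prod_const]
  have h2 : ∏ e ∈ E, (p * (if e ∈ F then x else 1) + (1 - p)) =
      (p * x + (1 - p)) ^ F.card := by
    have h3 : ∀ e ∈ E, (p * (if e ∈ F then x else 1) + (1 - p)) =
        if e ∈ F then (p * x + (1 - p)) else 1 := by
      intro e _
      split_ifs
      · rfl
      · ring
    rw [prod_congr rfl h3, prod_ite_mem, prod_const, inter_eq_right.2 hF]
  rw [← h2, ← PrbB_prod]
  refine sum_congr rfl fun A _ => ?_
  rw [h1]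

theorem PrbB_exp {θ : ℝ} (h : 0 ≤ θ) : Real.exp (-θ) ≤ 1 - θ + θ ^ 2 / 2 := by
  have h1 : 1 + θ + θ ^ 2 / 2 ≤ Real.exp θ := Real.quadratic_le_exp_of_nonneg h
  have h2 : 0 < 1 - θ + θ ^ 2 / 2 := by nlinarith [sq_nonneg (1 - θ)]
  have h3 : Real.exp (-θ) * Real.exp θ = 1 := by
    rw [← Real.exp_add, neg_add_cancel, Real.exp_zero]
  have h4 : Real.exp (-θ) * (1 + θ + θ ^ 2 / 2) ≤ 1 :=
    (mul_le_mul_of_nonneg_left h1 (Real.exp_pos _).le).trans h3.le
  have h5 : 1 ≤ (1 - θ + θ ^ 2 / 2) * (1 + θ + θ ^ 2 / 2) := by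
    nlinarith [sq_nonneg (θ ^ 2)]
  have h6 : 0 < 1 + θ + θ ^ 2 / 2 := by positivity
  exact le_of_mul_le_mul_right (h4.trans h5) h6

theorem Pr_absent {p : ℝ} (h0 : 0 ≤ p) (h1 : p ≤ 1) {E F : Finset α} (hF : F ⊆ E) :
    Pr p E (fun A => Disjoint A F) ≤ Real.exp (-(p * F.card)) := by
  classical
  have h2 := PrbB_two p 0 hF
  have h3 : Pr p E (fun A => Disjoint A F) ≤ ∑ A ∈ E.powerset, wt p E A * 0 ^ (A ∩ F).card := by
    unfold Pr
    rw [sum_filter]
    refine sum_le_sum fun A _ => ?_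
    split_ifs with h
    · rw [disjoint_iff_inter_eq_empty.1 h, card_empty, pow_zero, mul_one]
    · exact mul_nonneg (wt_nonneg h0 h1 E A) (pow_nonneg le_rfl _)
  rw [h2] at h3
  refine h3.trans ?_
  have h4 : p * 0 + (1 - p) ≤ Real.exp (-p) := by
    have := Real.one_sub_le_exp_neg p
    linarith
  have h5 : (0 : ℝ) ≤ p * 0 + (1 - p) := by linarith
  calc (p * 0 + (1 - p)) ^ F.card ≤ (Real.exp (-p)) ^ F.card := pow_le_pow_left₀ h5 h4 _
    _ = Real.exp (-(p * F.card)) := by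
      rw [← Real.exp_nat_mul]
      congr 1
      ring

theorem Pr_few {p : ℝ} (h0 : 0 < p) (h1 : p ≤ 1) {E F : Finset α} (hF : F ⊆ E) (m : ℕ)
    (hm : 1 ≤ m) (hmF : m ≤ F.card) (a : ℝ) (ha : 0 ≤ a) :
    Pr p E (fun A => ((A ∩ F).card : ℝ) ≤ p * m - a) ≤ Real.exp (-(a ^ 2 / (2 * p * m))) := by
  classical
  obtain ⟨F', hF', hcard⟩ := exists_subset_card_eq hmF
  have hm0 : (0 : ℝ) < m := by exact_mod_cast hm
  set θ : ℝ := a / (p * m) with hθ
  have hθ0 : 0 ≤ θ := by positivity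
  have h2 := PrbB_two p (Real.exp (-θ)) (hF'.trans hF)
  have h3 : Pr p E (fun A => ((A ∩ F).card : ℝ) ≤ p * m - a) ≤
      Real.exp (θ * (p * m - a)) * ∑ A ∈ E.powerset, wt p E A * Real.exp (-θ) ^ (A ∩ F').card := by
    unfold Pr
    rw [sum_filter, mul_sum]
    refine sum_le_sum fun A _ => ?_
    have hw := wt_nonneg h0.le h1 E A
    split_ifs with h
    · have hc : ((A ∩ F').card : ℝ) ≤ p * m - a := by
        refine le_trans ?_ h
        exact_mod_cast card_le_card (inter_subset_inter_left hF')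
      rw [← Real.exp_nat_mul, mul_left_comm, ← Real.exp_add]
      have h4 : 1 ≤ Real.exp (θ * (p * m - a) + ((A ∩ F').card : ℝ) * -θ) := by
        apply Real.one_le_exp
        nlinarith
      nlinarith
    · exact mul_nonneg (Real.exp_pos _).le (mul_nonneg hw (pow_nonneg (Real.exp_pos _).le _))
  rw [h2, hcard] at h3
  refine h3.trans ?_
  have h5 : p * Real.exp (-θ) + (1 - p) ≤ Real.exp (-(p * (θ - θ ^ 2 / 2))) := by
    have h6 := PrbB_exp hθ0
    have h7 := Real.one_sub_le_exp_neg (p * (θ - θ ^ 2 / 2))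
    nlinarith
  have h8 : 0 ≤ p * Real.exp (-θ) + (1 - p) := by
    have := (Real.exp_pos (-θ)).le
    have : 0 ≤ p * Real.exp (-θ) := by positivity
    linarith
  calc Real.exp (θ * (p * m - a)) * (p * Real.exp (-θ) + (1 - p)) ^ m
      ≤ Real.exp (θ * (p * m - a)) * (Real.exp (-(p * (θ - θ ^ 2 / 2)))) ^ m :=
        mul_le_mul_of_nonneg_left (pow_le_pow_left₀ h8 h5 _) (Real.exp_pos _).le
    _ = Real.exp (-(a ^ 2 / (2 * p * m))) := by
      rw [← Real.exp_nat_mul, ← Real.exp_add]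
      congr 1
      rw [hθ]
      field_simp
      ring

end Pool.Agent.MAC
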