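import Pool.Agent.MAC.Bas
import Pool.Agent.MAC.PrbB

/-!
# MAC/Pdeg: the degrees of the random subgraph   (difficulty 2)

For `A ⊆ E`: `(nbr A {v}).card = (A ∩ cr E {v} {v}ᶜ).card` (the map `y ↦ s(v, y)`), and `|cr E {v} {v}ᶜ| = |nbr E {v}| ≥ K` (`deg_ge`).  `Pr_few` with `m = K` and the union bound
`Pr_union` over `v ∈ univ` (`Pr_mono` to rewrite the event).
-/

namespace Pool.Agent.MAC

open Finset

variable {V : Type} [Fintype V] [DecidableEq V]

theorem Pdeg_card (A : Finset (Sym2 V)) (v : V) : (nbr A {v}).card = (cr A {v} {v}ᶜ).card := by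
  refine card_bij (fun y _ => s(v, y)) ?_ ?_ ?_
  · intro y hy
    unfold nbr at hy
    rw [mem_filter] at hy
    obtain ⟨-, h2, z, h3, h4⟩ := hy
    rw [mem_singleton] at h3
    subst h3
    refine mem_cr (mem_singleton_self _) (mem_compl.2 h2) ?_
    rw [Sym2.eq_swap]
    exact h4
  · intro y _ y' _ h
    exact Sym2.congr_right.1 h
  · intro e he
    unfold cr at he
    rw [mem_filter] at he
    obtain ⟨h1, c, hc, d, hd, h2⟩ := he
    rw [mem_singleton] at hc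
    subst hc
    refine ⟨d, ?_, h2⟩
    unfold nbr
    rw [mem_filter]
    refine ⟨mem_univ _, mem_compl.1 hd, c, mem_singleton_self _, ?_⟩
    rw [Sym2.eq_swap, h2]
    exact h1

theorem pdeg {E : Finset (Sym2 V)} {K : ℕ} (hE : KC E K) (hK : 1 ≤ K) {p : ℝ} (hp0 : 0 < p)
    (hp1 : p ≤ 1) (a : ℝ) (ha : 0 ≤ a) :
    Pr p E (fun A => ∃ v : V, ((nbr A {v}).card : ℝ) ≤ p * K - a) ≤
      Fintype.card V * Real.exp (-(a ^ 2 / (2 * p * K))) := by
  have h1 : Pr p E (fun A => ∃ v : V, ((nbr A {v}).card : ℝ) ≤ p * K - a) ≤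
      Pr p E (fun A => ∃ v ∈ (univ : Finset V),
        (fun (v : V) (A : Finset (Sym2 V)) => ((A ∩ cr E {v} {v}ᶜ).card : ℝ) ≤ p * K - a) v A) := by
    refine Pr_mono hp0.le hp1 E ?_
    rintro A hA ⟨v, hv⟩
    refine ⟨v, mem_univ _, ?_⟩
    show ((A ∩ cr E {v} {v}ᶜ).card : ℝ) ≤ p * K - a
    rw [← cr_sub hA, ← Pdeg_card]
    exact hv
  refine h1.trans ((Pr_union hp0.le hp1 E univ _).trans ?_)
  have h2 : ∀ v ∈ (univ : Finset V), Pr p E ((fun (v : V) (A : Finset (Sym2 V)) =>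
      ((A ∩ cr E {v} {v}ᶜ).card : ℝ) ≤ p * K - a) v) ≤ Real.exp (-(a ^ 2 / (2 * p * K))) := by
    intro v _
    have hF : cr E {v} {v}ᶜ ⊆ E := filter_subset _ _
    have hm : K ≤ (cr E {v} {v}ᶜ).card := by
      rw [← Pdeg_card]
      exact deg_ge hE v
    exact Pr_few hp0 hp1 hF K hK hm a ha
  refine (sum_le_sum h2).trans (le_of_eq ?_)
  rw [sum_const, card_univ, nsmul_eq_mul]

end Pool.Agent.MAC
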