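import Pool.Agent.MAC.Defs

/-!
# MAC/PrbA: random subsets, basic facts   (difficulty 1)

`Pr_true`: `∑_{A ⊆ E} p^|A| (1-p)^|E \ A| = (p + (1-p))^|E| = 1` (`Finset.sum_pow_mul_eq_add_pow` or
`Finset.prod_add`).  `Pr_compl`: the involution `A ↦ E \ A` of `E.powerset` exchanges the two factors.
`Pr_union`: for `0 ≤ p ≤ 1` every weight is `≥ 0`, and a subset in the union is counted at least once.
`Pr_exists`: otherwise `1 = Pr True ≤ Pr (P or Q) ≤ Pr P + Pr Q`.
-/

namespace Pool.Agent.MAC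

open Finset

variable {α : Type} [DecidableEq α]

theorem wt_nonneg {p : ℝ} (h0 : 0 ≤ p) (h1 : p ≤ 1) (E A : Finset α) : 0 ≤ wt p E A :=
  mul_nonneg (pow_nonneg h0 _) (pow_nonneg (sub_nonneg.2 h1) _)

theorem Pr_true (p : ℝ) (E : Finset α) : Pr p E (fun _ => True) = 1 := by
  classical
  have hf : Pr p E (fun _ => True) = ∑ A ∈ E.powerset, wt p E A := by
    unfold Pr
    refine sum_congr ?_ fun _ _ => rfl
    ext A
    simp
  rw [hf]
  have h := Finset.prod_add (fun _ : α => p) (fun _ => 1 - p) E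
  simp only [prod_const] at h
  unfold wt
  rw [← h]
  simp

theorem Pr_nonneg {p : ℝ} (h0 : 0 ≤ p) (h1 : p ≤ 1) (E : Finset α) (P : Finset α → Prop) :
    0 ≤ Pr p E P := by
  classical
  exact sum_nonneg fun A _ => wt_nonneg h0 h1 E A

theorem Pr_mono {p : ℝ} (h0 : 0 ≤ p) (h1 : p ≤ 1) (E : Finset α) {P Q : Finset α → Prop}
    (h : ∀ A ⊆ E, P A → Q A) : Pr p E P ≤ Pr p E Q := by
  classical
  refine sum_le_sum_of_subset_of_nonneg ?_ fun A _ _ => wt_nonneg h0 h1 E A
  intro A hA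
  rw [mem_filter, mem_powerset] at hA ⊢
  exact ⟨hA.1, h A hA.1 hA.2⟩

theorem Pr_or {p : ℝ} (h0 : 0 ≤ p) (h1 : p ≤ 1) (E : Finset α) (P Q : Finset α → Prop) :
    Pr p E (fun A => P A ∨ Q A) ≤ Pr p E P + Pr p E Q := by
  classical
  have hf : Pr p E (fun A => P A ∨ Q A) =
      ∑ A ∈ E.powerset.filter P ∪ E.powerset.filter Q, wt p E A := by
    unfold Pr
    refine sum_congr ?_ fun _ _ => rfl
    ext A
    simp only [mem_filter, mem_union]
    tauto
  have h2 : Pr p E P + Pr p E Q =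
      ∑ A ∈ E.powerset.filter P, wt p E A + ∑ A ∈ E.powerset.filter Q, wt p E A := by
    unfold Pr
    congr 1
  rw [hf, h2, ← sum_union_inter]
  have : 0 ≤ ∑ A ∈ E.powerset.filter P ∩ E.powerset.filter Q, wt p E A :=
    sum_nonneg fun A _ => wt_nonneg h0 h1 E A
  linarith

theorem Pr_union {p : ℝ} (h0 : 0 ≤ p) (h1 : p ≤ 1) (E : Finset α) {ι : Type} (s : Finset ι)
    (P : ι → Finset α → Prop) :
    Pr p E (fun A => ∃ i ∈ s, P i A) ≤ ∑ i ∈ s, Pr p E (P i) := by
  classical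
  induction s using Finset.induction_on with
  | empty =>
    simp [Pr]
  | insert i s hi ih =>
    rw [sum_insert hi]
    have h := Pr_or h0 h1 E (P i) (fun A => ∃ i ∈ s, P i A)
    have h2 : Pr p E (fun A => ∃ j ∈ insert i s, P j A) ≤
        Pr p E (fun A => P i A ∨ ∃ i ∈ s, P i A) := by
      refine Pr_mono h0 h1 E fun A _ hA => ?_
      obtain ⟨j, hj, hPj⟩ := hA
      rcases mem_insert.1 hj with rfl | hj
      · exact Or.inl hPj
      · exact Or.inr ⟨j, hj, hPj⟩
    linarith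

theorem Pr_compl (p : ℝ) (E : Finset α) (P : Finset α → Prop) :
    Pr p E (fun A => P (E \ A)) = Pr (1 - p) E P := by
  classical
  unfold Pr
  refine sum_bij (fun A _ => E \ A) ?_ ?_ ?_ ?_
  · intro A hA
    rw [mem_filter, mem_powerset] at hA ⊢
    exact ⟨sdiff_subset, hA.2⟩
  · intro A hA B hB he
    rw [mem_filter, mem_powerset] at hA hB
    have := congrArg (fun X => E \ X) he
    beta_reduce at this
    rwa [Finset.sdiff_sdiff_eq_self hA.1, Finset.sdiff_sdiff_eq_self hB.1] at this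
  · intro B hB
    rw [mem_filter, mem_powerset] at hB
    refine ⟨E \ B, ?_, Finset.sdiff_sdiff_eq_self hB.1⟩
    rw [mem_filter, mem_powerset]
    refine ⟨sdiff_subset, ?_⟩
    rw [Finset.sdiff_sdiff_eq_self hB.1]
    exact hB.2
  · intro A hA
    rw [mem_filter, mem_powerset] at hA
    unfold wt
    rw [Finset.sdiff_sdiff_eq_self hA.1]
    ring

theorem Pr_exists {p : ℝ} (h0 : 0 ≤ p) (h1 : p ≤ 1) (E : Finset α) (P Q : Finset α → Prop)
    (h : Pr p E P + Pr p E Q < 1) : ∃ A ⊆ E, ¬ P A ∧ ¬ Q A := by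
  by_contra hcon
  push Not at hcon
  have h2 : Pr p E (fun _ => True) ≤ Pr p E (fun A => P A ∨ Q A) := by
    refine Pr_mono h0 h1 E fun A hA _ => ?_
    by_cases hP : P A
    · exact Or.inl hP
    · exact Or.inr (hcon A hA hP)
  have h3 := Pr_or h0 h1 E P Q
  rw [Pr_true] at h2
  linarith

end Pool.Agent.MAC
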