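import Pool.Agent.MAC.KarG
import Pool.Agent.MAC.PrbB

/-!
# MAC/Step1: separations of the random subgraph have few crossing edges in `E`   (difficulty 3)

`n = card V`, `L = log (2 n)`.  Union bound over the pairs `(C, D)`; by `cr_sub` the event `cr A C D = ∅` is `Disjoint A (cr E C D)`, of probability
`≤ exp (-p m')`, `m' = |cr E C D| > m` (`Pr_absent`).  So the probability is at most
`∑_W ∑_{m' > m} #{C : C ⊂ W nontrivial, |cr E C (W \ C)| = m'} exp (-p m')`, where `W = C ∪ D` runs over the sets with `|Wᶜ| ≤ x`.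
* The number of the `W` is `≤ (n+1)^x ≤ exp (x L)` (`∑_{i ≤ x} (n choose i) ≤ (n+1)^x`; or: every set with at most `x` elements is the range
  (without `none`) of a function `Fin x → Option V`).
* For given `W`, `m'` let `l = K - |Wᶜ| ≥ K - x ≥ 1`, `k = ⌈2 m'/l⌉ ≤ 2 m'/l + 1` (natural number with `2 m' ≤ k l`); by `kar_count` the number of the `C` is `≤ (2 n)^k = exp (k L)
  ≤ exp (2 m' L / l + L)`; `2 L / l ≤ p/4` (h1) and `L ≤ p m/4 ≤ p m'/4` (h2).  So the term is `≤ exp (p m'/4 + p m'/4 - p m') = exp (-p m'/2) ≤ exp (-p m/2)`.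
* There are at most `n²` values `m'` (`|cr E C D| ≤ |C| |D| ≤ n²`, `m' ≥ 1`), `n² ≤ exp (2 L)`.
Total: `exp (x L + 2 L - p m/2) ≤ exp (-3)` (h2).
-/

namespace Pool.Agent.MAC

open Finset

variable {V : Type} [Fintype V] [DecidableEq V]

theorem Step1_W (V : Type) [Fintype V] [DecidableEq V] (x : ℕ) :
    ((univ : Finset (Finset V)).filter (fun W => (Wᶜ).card ≤ x)).card ≤
      (Fintype.card V + 1) ^ x := by
  classical
  have h : ((univ : Finset (Finset V)).filter (fun W => (Wᶜ).card ≤ x)) ⊆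
      (univ : Finset (Fin x → Option V)).image
        (fun f => (univ.filter (fun v => ∃ i, f i = some v))ᶜ) := by
    intro W hW
    rw [mem_filter] at hW
    have hc := hW.2
    refine mem_image.2 ⟨fun i => if h : i.1 < (Wᶜ).card then
      some ((Wᶜ).equivFin.symm ⟨i.1, h⟩).1 else none, mem_univ _, ?_⟩
    have key : (univ.filter (fun v => ∃ i : Fin x, (if h : i.1 < (Wᶜ).card then
      some ((Wᶜ).equivFin.symm ⟨i.1, h⟩).1 else none) = some v)) = Wᶜ := by
      ext v
      simp only [mem_filter, mem_univ, true_and]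
      constructor
      · rintro ⟨i, hi⟩
        split_ifs at hi with h1
        have h2 := Option.some_injective _ hi
        rw [← h2]
        exact ((Wᶜ).equivFin.symm ⟨i.1, h1⟩).2
      · intro hv
        have h3 := ((Wᶜ).equivFin ⟨v, hv⟩).2
        refine ⟨⟨((Wᶜ).equivFin ⟨v, hv⟩).1, h3.trans_le hc⟩, ?_⟩
        rw [dif_pos h3]
        simp
    rw [key, compl_compl]
  calc _ ≤ ((univ : Finset (Fin x → Option V)).image
        (fun f => (univ.filter (fun v => ∃ i, f i = some v))ᶜ)).card := card_le_card h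
    _ ≤ (univ : Finset (Fin x → Option V)).card := card_image_le
    _ = _ := by simp

theorem Step1_cr (E : Finset (Sym2 V)) (C D : Finset V) :
    (cr E C D).card ≤ Fintype.card V ^ 2 := by
  have h : cr E C D ⊆ (C ×ˢ D).image (fun q => s(q.1, q.2)) := by
    intro e he
    obtain ⟨-, c, hc, d, hd, rfl⟩ := mem_filter.1 he
    exact mem_image.2 ⟨(c, d), mem_product.2 ⟨hc, hd⟩, rfl⟩
  calc _ ≤ ((C ×ˢ D).image (fun q => s(q.1, q.2))).card := card_le_card h
    _ ≤ (C ×ˢ D).card := card_image_le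
    _ = C.card * D.card := card_product _ _
    _ ≤ Fintype.card V * Fintype.card V := Nat.mul_le_mul (card_le_univ _) (card_le_univ _)
    _ = _ := by ring

theorem Step1_term {E : Finset (Sym2 V)} {K : ℕ} (hE : KC E K) {p : ℝ} (hp0 : 0 < p)
    (x m : ℕ) (hx : x < K) (L : ℝ) (hL : L = Real.log (2 * (Fintype.card V : ℝ)))
    (h1 : 8 * L ≤ p * ((K : ℝ) - x)) (h2 : ((x : ℝ) + 2) * L + 3 ≤ p * m / 2)
    {W : Finset V} (hW : (Wᶜ).card ≤ x) {m' : ℕ} (hm : m < m') :
    ((W.powerset.filter (fun C => C.Nonempty ∧ C ≠ W ∧ (cr E C (W \ C)).card ≤ m')).card : ℝ) *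
      Real.exp (-(p * m')) ≤ Real.exp (-(p * m / 2)) := by
  have hn : 1 ≤ Fintype.card V := by have := hE.1; omega
  have hn' : (1 : ℝ) ≤ Fintype.card V := by exact_mod_cast hn
  have hL0 : 0 ≤ L := by rw [hL]; exact Real.log_nonneg (by linarith)
  have hexp : Real.exp L = 2 * (Fintype.card V : ℝ) := by
    rw [hL, Real.exp_log (by linarith)]
  obtain ⟨l, hl⟩ : ∃ l, l = K - (Wᶜ).card := ⟨_, rfl⟩
  have hl1 : 1 ≤ l := by omega
  have hlx : (K : ℝ) - x ≤ l := by
    have h3 : K ≤ l + x := by omega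
    have h4 : (K : ℝ) ≤ l + x := by exact_mod_cast h3
    linarith
  have hlpos : (0 : ℝ) < l := by exact_mod_cast hl1
  have hk : 2 * m' ≤ (2 * m' / l + 1) * (K - (Wᶜ).card) := by
    rw [← hl]
    have h4 := Nat.div_add_mod (2 * m') l
    have h5 := Nat.mod_lt (2 * m') (show l > 0 by omega)
    nlinarith
  have hcount := kar_count hE W m' (2 * m' / l + 1) (by omega) hk
  have hcount' : ((W.powerset.filter
      (fun C => C.Nonempty ∧ C ≠ W ∧ (cr E C (W \ C)).card ≤ m')).card : ℝ) ≤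
      (2 * (Fintype.card V : ℝ)) ^ (2 * m' / l + 1) := by exact_mod_cast hcount
  have hkR : ((2 * m' / l + 1 : ℕ) : ℝ) ≤ 2 * m' / l + 1 := by
    push_cast
    have h3 : ((2 * m' / l : ℕ) : ℝ) ≤ ((2 * m' : ℕ) : ℝ) / (l : ℝ) := Nat.cast_div_le
    push_cast at h3
    linarith
  have hpow : (2 * (Fintype.card V : ℝ)) ^ (2 * m' / l + 1) =
      Real.exp (((2 * m' / l + 1 : ℕ) : ℝ) * L) := by
    rw [← hexp, ← Real.exp_nat_mul]
  rw [hpow] at hcount'
  have hm' : (m : ℝ) ≤ m' := by exact_mod_cast hm.le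
  have hm0 : (0 : ℝ) ≤ m := by positivity
  have e1 : 2 * (m' : ℝ) / l * L ≤ p * m' / 4 := by
    rw [div_mul_eq_mul_div, div_le_iff₀ hlpos]
    have h3 : 8 * L ≤ p * l := h1.trans (mul_le_mul_of_nonneg_left hlx hp0.le)
    have h4 : (0 : ℝ) ≤ m' := by positivity
    nlinarith
  have hxL : 0 ≤ (x : ℝ) * L := by positivity
  have e2 : L ≤ p * m' / 4 := by
    have h3 : p * m ≤ p * m' := mul_le_mul_of_nonneg_left hm' hp0.le
    nlinarith
  have e3 : ((2 * m' / l + 1 : ℕ) : ℝ) * L ≤ p * m' / 2 := by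
    have h3 := mul_le_mul_of_nonneg_right hkR hL0
    have h4 : (2 * (m' : ℝ) / l + 1) * L = 2 * (m' : ℝ) / l * L + L := by ring
    linarith
  calc _ ≤ Real.exp (((2 * m' / l + 1 : ℕ) : ℝ) * L) * Real.exp (-(p * m')) :=
        mul_le_mul_of_nonneg_right hcount' (Real.exp_pos _).le
    _ = Real.exp (((2 * m' / l + 1 : ℕ) : ℝ) * L - p * m') := by
        rw [← Real.exp_add, sub_eq_add_neg]
    _ ≤ _ := by
        apply Real.exp_le_exp.2
        have h3 : p * m ≤ p * m' := mul_le_mul_of_nonneg_left hm' hp0.le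
        linarith

theorem Step1_sum {E : Finset (Sym2 V)} {K : ℕ} (hE : KC E K) {p : ℝ} (hp0 : 0 < p)
    (x m : ℕ) (hx : x < K) (L : ℝ) (hL : L = Real.log (2 * (Fintype.card V : ℝ)))
    (h1 : 8 * L ≤ p * ((K : ℝ) - x)) (h2 : ((x : ℝ) + 2) * L + 3 ≤ p * m / 2)
    {W : Finset V} (hW : (Wᶜ).card ≤ x) :
    ∑ C ∈ W.powerset.filter (fun C => C.Nonempty ∧ C ≠ W ∧ m < (cr E C (W \ C)).card),
      Real.exp (-(p * (cr E C (W \ C)).card)) ≤
      (Fintype.card V : ℝ) ^ 2 * Real.exp (-(p * m / 2)) := by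
  classical
  rw [← Finset.sum_fiberwise_of_maps_to (t := Finset.Ioc m (Fintype.card V ^ 2))
    (g := fun C => (cr E C (W \ C)).card)]
  · have hb : ∀ m' ∈ Finset.Ioc m (Fintype.card V ^ 2),
        ∑ C ∈ (W.powerset.filter (fun C => C.Nonempty ∧ C ≠ W ∧
          m < (cr E C (W \ C)).card)).filter (fun C => (cr E C (W \ C)).card = m'),
          Real.exp (-(p * (cr E C (W \ C)).card)) ≤ Real.exp (-(p * m / 2)) := by
      intro m' hm'
      rw [Finset.mem_Ioc] at hm'
      calc _ = ∑ C ∈ (W.powerset.filter (fun C => C.Nonempty ∧ C ≠ W ∧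
          m < (cr E C (W \ C)).card)).filter (fun C => (cr E C (W \ C)).card = m'),
          Real.exp (-(p * m')) := by
            apply Finset.sum_congr rfl
            intro C hC
            rw [(mem_filter.1 hC).2]
        _ = (((W.powerset.filter (fun C => C.Nonempty ∧ C ≠ W ∧
          m < (cr E C (W \ C)).card)).filter
            (fun C => (cr E C (W \ C)).card = m')).card : ℝ) * Real.exp (-(p * m')) := by
            rw [Finset.sum_const, nsmul_eq_mul]
        _ ≤ ((W.powerset.filter (fun C => C.Nonempty ∧ C ≠ W ∧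
            (cr E C (W \ C)).card ≤ m')).card : ℝ) * Real.exp (-(p * m')) := by
            apply mul_le_mul_of_nonneg_right _ (Real.exp_pos _).le
            have hsub : (W.powerset.filter (fun C => C.Nonempty ∧ C ≠ W ∧
                m < (cr E C (W \ C)).card)).filter (fun C => (cr E C (W \ C)).card = m') ⊆
                W.powerset.filter (fun C => C.Nonempty ∧ C ≠ W ∧
                (cr E C (W \ C)).card ≤ m') := by
              intro C hC
              rw [mem_filter, mem_filter] at hC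
              exact mem_filter.2 ⟨hC.1.1, hC.1.2.1, hC.1.2.2.1, hC.2.le⟩
            exact_mod_cast card_le_card hsub
        _ ≤ _ := Step1_term hE hp0 x m hx L hL h1 h2 hW hm'.1
    calc _ ≤ ∑ m' ∈ Finset.Ioc m (Fintype.card V ^ 2), Real.exp (-(p * m / 2)) :=
          Finset.sum_le_sum hb
      _ = ((Fintype.card V ^ 2 - m : ℕ) : ℝ) * Real.exp (-(p * m / 2)) := by
          rw [Finset.sum_const, nsmul_eq_mul, Nat.card_Ioc]
      _ ≤ _ := by
          apply mul_le_mul_of_nonneg_right _ (Real.exp_pos _).le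
          have h3 : Fintype.card V ^ 2 - m ≤ Fintype.card V ^ 2 := Nat.sub_le _ _
          exact_mod_cast h3
  · intro C hC
    rw [mem_filter] at hC
    exact Finset.mem_Ioc.2 ⟨hC.2.2.2, Step1_cr E C (W \ C)⟩

theorem step1 {E : Finset (Sym2 V)} {K : ℕ} (hE : KC E K) {p : ℝ} (hp0 : 0 < p) (hp1 : p ≤ 1)
    (x m : ℕ) (hx : x < K) (L : ℝ) (hL : L = Real.log (2 * (Fintype.card V : ℝ)))
    (h1 : 8 * L ≤ p * ((K : ℝ) - x)) (h2 : ((x : ℝ) + 2) * L + 3 ≤ p * m / 2) :
    Pr p E (fun A => ∃ C D : Finset V, Disjoint C D ∧ C.Nonempty ∧ D.Nonempty ∧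
      ((C ∪ D)ᶜ).card ≤ x ∧ m < (cr E C D).card ∧ cr A C D = ∅) ≤ Real.exp (-3) := by
  classical
  have hn : 1 ≤ Fintype.card V := by have := hE.1; omega
  have hn' : (1 : ℝ) ≤ Fintype.card V := by exact_mod_cast hn
  have hL0 : 0 ≤ L := by rw [hL]; exact Real.log_nonneg (by linarith)
  have hexp : Real.exp L = 2 * (Fintype.card V : ℝ) := by
    rw [hL, Real.exp_log (by linarith)]
  have step_a : Pr p E (fun A => ∃ C D : Finset V, Disjoint C D ∧ C.Nonempty ∧ D.Nonempty ∧
      ((C ∪ D)ᶜ).card ≤ x ∧ m < (cr E C D).card ∧ cr A C D = ∅) ≤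
      Pr p E (fun A => ∃ W ∈ (univ : Finset (Finset V)).filter (fun W => (Wᶜ).card ≤ x),
        ∃ C ∈ W.powerset.filter (fun C => C.Nonempty ∧ C ≠ W ∧ m < (cr E C (W \ C)).card),
          Disjoint A (cr E C (W \ C))) := by
    apply Pr_mono hp0.le hp1
    rintro A hA ⟨C, D, hCD, hC, hD, hcard, hm, hcr⟩
    have hWC : (C ∪ D) \ C = D := by
      rw [union_sdiff_left, Finset.sdiff_eq_self_iff_disjoint]
      exact hCD.symm
    refine ⟨C ∪ D, mem_filter.2 ⟨mem_univ _, hcard⟩, C,
      mem_filter.2 ⟨mem_powerset.2 subset_union_left, hC, ?_, ?_⟩, ?_⟩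
    · intro h
      rw [← h] at hWC
      rw [sdiff_self] at hWC
      exact hD.ne_empty hWC.symm
    · rw [hWC]; exact hm
    · rw [hWC, disjoint_iff_inter_eq_empty, ← cr_sub hA]
      exact hcr
  have step_b : ∀ W ∈ (univ : Finset (Finset V)).filter (fun W => (Wᶜ).card ≤ x),
      Pr p E (fun A => ∃ C ∈ W.powerset.filter (fun C => C.Nonempty ∧ C ≠ W ∧
        m < (cr E C (W \ C)).card), Disjoint A (cr E C (W \ C))) ≤
      (Fintype.card V : ℝ) ^ 2 * Real.exp (-(p * m / 2)) := by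
    intro W hW
    refine (Pr_union hp0.le hp1 E _ _).trans ?_
    refine le_trans (Finset.sum_le_sum fun C _ => ?_)
      (Step1_sum hE hp0 x m hx L hL h1 h2 (mem_filter.1 hW).2)
    exact Pr_absent hp0.le hp1 (filter_subset _ _)
  have hpowL : ∀ k : ℕ, (2 * (Fintype.card V : ℝ)) ^ k = Real.exp (k * L) := by
    intro k
    rw [← hexp, ← Real.exp_nat_mul]
  calc _ ≤ _ := step_a
    _ ≤ ∑ W ∈ (univ : Finset (Finset V)).filter (fun W => (Wᶜ).card ≤ x),
        Pr p E (fun A => ∃ C ∈ W.powerset.filter (fun C => C.Nonempty ∧ C ≠ W ∧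
        m < (cr E C (W \ C)).card), Disjoint A (cr E C (W \ C))) := Pr_union hp0.le hp1 E _ _
    _ ≤ ∑ W ∈ (univ : Finset (Finset V)).filter (fun W => (Wᶜ).card ≤ x),
        (Fintype.card V : ℝ) ^ 2 * Real.exp (-(p * m / 2)) := Finset.sum_le_sum step_b
    _ = (((univ : Finset (Finset V)).filter (fun W => (Wᶜ).card ≤ x)).card : ℝ) *
        ((Fintype.card V : ℝ) ^ 2 * Real.exp (-(p * m / 2))) := by
        rw [Finset.sum_const, nsmul_eq_mul]
    _ ≤ (2 * (Fintype.card V : ℝ)) ^ x *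
        ((2 * (Fintype.card V : ℝ)) ^ 2 * Real.exp (-(p * m / 2))) := by
        apply mul_le_mul _ _ (by positivity) (by positivity)
        · have h3 := Step1_W V x
          have h4 : (((univ : Finset (Finset V)).filter (fun W => (Wᶜ).card ≤ x)).card : ℝ) ≤
              ((Fintype.card V : ℝ) + 1) ^ x := by exact_mod_cast h3
          refine h4.trans ?_
          apply pow_le_pow_left₀ (by positivity)
          linarith
        · apply mul_le_mul_of_nonneg_right _ (Real.exp_pos _).le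
          apply pow_le_pow_left₀ (by positivity)
          linarith
    _ = Real.exp ((x : ℝ) * L + (2 : ℕ) * L + -(p * m / 2)) := by
        rw [hpowL, hpowL, ← Real.exp_add, ← Real.exp_add, add_assoc]
    _ ≤ Real.exp (-3) := by
        apply Real.exp_le_exp.2
        push_cast
        linarith

end Pool.Agent.MAC
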