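import Pool.Agent.MAC.Kon
import Pool.Agent.MAC.Bas

/-!
# MAC/Str: `K - 1` test edges for the cut `(Y, V \ Y)` and the pair `v ∈ Y`, `w ∉ Y`   (difficulty 3)

`L₀ = {l ∈ Y : l ≠ v, s(l, w) ∈ E}`, `R₀ = {r ∉ Y : r ≠ w, s(v, r) ∈ E}`, `L = Y \ ({v} ∪ L₀)`, `R = Yᶜ \ ({w} ∪ R₀)`, `adj l r = (s(l, r) ∈ E)`.
Claim: every cover `Z` of the bipartite graph `(L, R, adj)` satisfies `K - 1 ≤ |Z| + |L₀| + |R₀|`.  Let `X = (Z ∪ L₀ ∪ R₀) \ {v, w}`.  The only possible edge of `E` between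
`Y \ X` and `Yᶜ \ X` is `s(v, w)`.  Suppose `|X| < K - 1`.  `C = Y \ X \ {v}`, `D = Yᶜ \ X`: no edge between them, `(C ∪ D)ᶜ = X ∪ {v}`, `w ∈ D`; so by `KC`
(`|X| + 1 < K`) `C = ∅`.  Similarly `Yᶜ \ X = {w}`.  So `univ = X ∪ {v, w}`, `card V ≤ |X| + 2 ≤ K`, a contradiction to `K < card V`.
`koenig` with `k = K - 1 - |L₀| - |R₀|` gives a matching `M` (pairs `(l, r)`, `l ∈ L`, `r ∈ R`).  `F' = {s(v, r) : r ∈ R₀} ∪ {s(l, w) : l ∈ L₀} ∪ {s(l, r) : (l, r) ∈ M}` has at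
least `K - 1` elements (the three sets are disjoint, the maps injective), take `F ⊆ F'` with exactly `K - 1`.
Property: let `C ⊆ Y`, `D` disjoint from `Y`, `v ∈ C`, `w ∈ D`, no edge of `A` between `C` and `D`, `X = (C ∪ D)ᶜ`.  Every `e ∈ A ∩ F` has one end in `Y`, one in `Yᶜ`; if both were outside `X`,
the first would be in `C` (`Y \ X = C`), the second in `D`, a contradiction.  So it has an end in `X`, which is not `v`, `w`; every vertex other than `v`, `w` is an end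
of at most one element of `F'`.  So `|A ∩ F| ≤ |X|`.
-/

namespace Pool.Agent.MAC

open Finset

variable {V : Type} [Fintype V] [DecidableEq V]

/-- the neighbours of `w` in `Y`, without `v` -/
def Str_L₀ (E : Finset (Sym2 V)) (Y : Finset V) (v w : V) : Finset V :=
  Y.filter (fun l => l ≠ v ∧ s(l, w) ∈ E)

/-- the neighbours of `v` outside `Y`, without `w` -/
def Str_R₀ (E : Finset (Sym2 V)) (Y : Finset V) (v w : V) : Finset V :=
  Yᶜ.filter (fun r => r ≠ w ∧ s(v, r) ∈ E)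

theorem Str_cover {E : Finset (Sym2 V)} {K : ℕ} (hE : KC E K) (Y : Finset V) {v w : V}
    (hv : v ∈ Y) (hw : w ∉ Y) (Z : Finset V)
    (hZ : ∀ l ∈ Y \ insert v (Str_L₀ E Y v w), ∀ r ∈ Yᶜ \ insert w (Str_R₀ E Y v w),
      s(l, r) ∈ E → l ∈ Z ∨ r ∈ Z) :
    K - 1 ≤ Z.card + (Str_L₀ E Y v w).card + (Str_R₀ E Y v w).card := by
  by_contra hlt
  push Not at hlt
  obtain ⟨X, hX⟩ : ∃ X, X = (Z ∪ Str_L₀ E Y v w ∪ Str_R₀ E Y v w) \ {v, w} := ⟨_, rfl⟩
  have hXc : X.card < K - 1 := by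
    refine lt_of_le_of_lt ?_ hlt
    rw [hX]
    refine (Finset.card_le_card Finset.sdiff_subset).trans ?_
    refine (Finset.card_union_le _ _).trans ?_
    exact Nat.add_le_add_right (Finset.card_union_le _ _) _
  have hne : v ≠ w := fun h => hw (h ▸ hv)
  have hvX : v ∉ X := by rw [hX]; simp
  have hwX : w ∉ X := by rw [hX]; simp
  have key : ∀ l r, l ∈ Y → l ∉ X → r ∉ Y → r ∉ X → s(l, r) ∈ E → l = v ∧ r = w := by
    intro l r hl hlX hr hrX he
    have hlw : l ≠ w := fun h => hw (h ▸ hl)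
    have hrv : r ≠ v := fun h => hr (h ▸ hv)
    by_cases h1 : l = v
    · refine ⟨h1, ?_⟩
      by_contra h2
      apply hrX
      rw [hX]
      simp only [mem_sdiff, mem_union, mem_insert, mem_singleton, not_or]
      refine ⟨Or.inr ?_, hrv, h2⟩
      rw [h1] at he
      exact mem_filter.2 ⟨mem_compl.2 hr, h2, he⟩
    · exfalso
      have hl0 : l ∉ Str_L₀ E Y v w := by
        intro h
        apply hlX
        rw [hX]
        simp only [mem_sdiff, mem_union, mem_insert, mem_singleton, not_or]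
        exact ⟨Or.inl (Or.inr h), h1, hlw⟩
      by_cases h2 : r = w
      · rw [h2] at he
        exact hl0 (mem_filter.2 ⟨hl, h1, he⟩)
      · have hr0 : r ∉ Str_R₀ E Y v w := by
          intro h
          apply hrX
          rw [hX]
          simp only [mem_sdiff, mem_union, mem_insert, mem_singleton, not_or]
          exact ⟨Or.inr h, hrv, h2⟩
        rcases hZ l (mem_sdiff.2 ⟨hl, by rw [mem_insert]; exact not_or.2 ⟨h1, hl0⟩⟩) r
          (mem_sdiff.2 ⟨mem_compl.2 hr, by rw [mem_insert]; exact not_or.2 ⟨h2, hr0⟩⟩) he with h | h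
        · apply hlX
          rw [hX]
          simp only [mem_sdiff, mem_union, mem_insert, mem_singleton, not_or]
          exact ⟨Or.inl (Or.inl h), h1, hlw⟩
        · apply hrX
          rw [hX]
          simp only [mem_sdiff, mem_union, mem_insert, mem_singleton, not_or]
          exact ⟨Or.inl (Or.inl h), hrv, h2⟩
  have hdis : ∀ C D : Finset V, C ⊆ Y \ X → D ⊆ Yᶜ \ X → Disjoint C D := by
    intro C D hC hD
    rw [Finset.disjoint_left]
    intro x hx hx'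
    exact (mem_compl.1 (mem_sdiff.1 (hD hx')).1) (mem_sdiff.1 (hC hx)).1
  have hcr : ∀ C D : Finset V, C ⊆ Y \ X → D ⊆ Yᶜ \ X → (v ∉ C ∨ w ∉ D) → cr E C D = ∅ := by
    intro C D hC hD hvw
    rw [Finset.eq_empty_iff_forall_notMem]
    intro e he
    obtain ⟨he1, c, hc, d, hd, he2⟩ := mem_filter.1 he
    rw [← he2] at he1
    have hc' := mem_sdiff.1 (hC hc)
    have hd' := mem_sdiff.1 (hD hd)
    obtain ⟨h1, h2⟩ := key c d hc'.1 hc'.2 (mem_compl.1 hd'.1) hd'.2 he1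
    rcases hvw with h | h
    · exact h (h1 ▸ hc)
    · exact h (h2 ▸ hd)
  have hcard : ∀ C D : Finset V, ∀ x : V, (∀ y, y ∉ X → y ≠ x → y ∈ C ∪ D) →
      ((C ∪ D)ᶜ).card ≤ X.card + 1 := by
    intro C D x h
    refine (Finset.card_le_card ?_).trans (Finset.card_insert_le x X)
    intro y hy
    rw [mem_compl] at hy
    rw [mem_insert]
    by_contra h2
    push Not at h2
    exact hy (h y h2.2 h2.1)
  have hC : Y \ X ⊆ {v} := by
    by_contra hcon
    rw [Finset.not_subset] at hcon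
    obtain ⟨x, hx, hxv⟩ := hcon
    rw [mem_singleton] at hxv
    have h1 := hE.2 ((Y \ X).erase v) (Yᶜ \ X) (hdis _ _ (Finset.erase_subset _ _) (Subset.refl _))
      ⟨x, mem_erase.2 ⟨hxv, hx⟩⟩ ⟨w, mem_sdiff.2 ⟨mem_compl.2 hw, hwX⟩⟩
      (hcr _ _ (Finset.erase_subset _ _) (Subset.refl _) (Or.inl (by simp)))
    have h2 := hcard ((Y \ X).erase v) (Yᶜ \ X) v (by
      intro y hy hyv
      rw [mem_union]
      by_cases h : y ∈ Y
      · exact Or.inl (mem_erase.2 ⟨hyv, mem_sdiff.2 ⟨h, hy⟩⟩)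
      · exact Or.inr (mem_sdiff.2 ⟨mem_compl.2 h, hy⟩))
    omega
  have hD : Yᶜ \ X ⊆ {w} := by
    by_contra hcon
    rw [Finset.not_subset] at hcon
    obtain ⟨x, hx, hxv⟩ := hcon
    rw [mem_singleton] at hxv
    have h1 := hE.2 (Y \ X) ((Yᶜ \ X).erase w) (hdis _ _ (Subset.refl _) (Finset.erase_subset _ _))
      ⟨v, mem_sdiff.2 ⟨hv, hvX⟩⟩ ⟨x, mem_erase.2 ⟨hxv, hx⟩⟩
      (hcr _ _ (Subset.refl _) (Finset.erase_subset _ _) (Or.inr (by simp)))
    have h2 := hcard (Y \ X) ((Yᶜ \ X).erase w) w (by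
      intro y hy hyv
      rw [mem_union]
      by_cases h : y ∈ Y
      · exact Or.inl (mem_sdiff.2 ⟨h, hy⟩)
      · exact Or.inr (mem_erase.2 ⟨hyv, mem_sdiff.2 ⟨mem_compl.2 h, hy⟩⟩))
    omega
  have huniv : (univ : Finset V) ⊆ X ∪ {v, w} := by
    intro y _
    rw [mem_union]
    by_cases hy : y ∈ X
    · exact Or.inl hy
    · right
      rw [mem_insert]
      by_cases h : y ∈ Y
      · exact Or.inl (mem_singleton.1 (hC (mem_sdiff.2 ⟨h, hy⟩)))
      · exact Or.inr (hD (mem_sdiff.2 ⟨mem_compl.2 h, hy⟩))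
  have h1 := Finset.card_le_card huniv
  rw [Finset.card_univ] at h1
  have h2 := Finset.card_union_le X {v, w}
  have h3 : ({v, w} : Finset V).card ≤ 2 := Finset.card_le_two
  have h4 := hE.1
  omega

theorem struct {E : Finset (Sym2 V)} {K : ℕ} (hE : KC E K) (hK : 1 ≤ K) (Y : Finset V) {v w : V}
    (hv : v ∈ Y) (hw : w ∉ Y) :
    ∃ F : Finset (Sym2 V), F ⊆ E ∧ F.card = K - 1 ∧
      ∀ (A : Finset (Sym2 V)) (C D : Finset V), Disjoint C D → v ∈ C → w ∈ D → C ⊆ Y →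
        Disjoint D Y → cr A C D = ∅ → (A ∩ F).card ≤ ((C ∪ D)ᶜ).card := by
  obtain ⟨L, hL⟩ : ∃ L, L = Y \ insert v (Str_L₀ E Y v w) := ⟨_, rfl⟩
  obtain ⟨R, hR⟩ : ∃ R, R = Yᶜ \ insert w (Str_R₀ E Y v w) := ⟨_, rfl⟩
  have hLR : Disjoint L R := by
    rw [Finset.disjoint_left]
    intro x hx hx'
    rw [hL] at hx
    rw [hR] at hx'
    exact (mem_compl.1 (mem_sdiff.1 hx').1) (mem_sdiff.1 hx).1
  obtain ⟨M, hM1, hM2, hM3, hM4⟩ := koenig L R hLR (fun l r => s(l, r) ∈ E)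
    (K - 1 - (Str_L₀ E Y v w).card - (Str_R₀ E Y v w).card) (by
      intro Z hZ
      have := Str_cover hE Y hv hw Z (by
        intro l hl r hr he
        exact hZ l (hL ▸ hl) r (hR ▸ hr) he)
      omega)
  have hL₀ : ∀ l ∈ Str_L₀ E Y v w, l ∈ Y ∧ l ≠ v ∧ s(l, w) ∈ E := fun l hl => mem_filter.1 hl
  have hR₀ : ∀ r ∈ Str_R₀ E Y v w, r ∉ Y ∧ r ≠ w ∧ s(v, r) ∈ E := fun r hr =>
    ⟨mem_compl.1 (mem_filter.1 hr).1, (mem_filter.1 hr).2⟩
  have hMm : ∀ q ∈ M, q.1 ∈ Y ∧ q.1 ≠ v ∧ q.1 ∉ Str_L₀ E Y v w ∧ q.2 ∉ Y ∧ q.2 ≠ w ∧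
      q.2 ∉ Str_R₀ E Y v w ∧ s(q.1, q.2) ∈ E := by
    intro q hq
    obtain ⟨h1, h2, h3⟩ := hM2 q hq
    rw [hL, mem_sdiff, mem_insert, not_or] at h1
    rw [hR, mem_sdiff, mem_insert, not_or, mem_compl] at h2
    exact ⟨h1.1, h1.2.1, h1.2.2, h2.1, h2.2.1, h2.2.2, h3⟩
  -- the pairs
  obtain ⟨P1, hP1⟩ : ∃ P1 : Finset (V × V), P1 = (Str_L₀ E Y v w).image (fun l => (l, w)) := ⟨_, rfl⟩
  obtain ⟨P2, hP2⟩ : ∃ P2 : Finset (V × V), P2 = (Str_R₀ E Y v w).image (fun r => (v, r)) := ⟨_, rfl⟩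
  have m1 : ∀ q ∈ P1, q.1 ∈ Str_L₀ E Y v w ∧ q.2 = w := by
    intro q hq
    rw [hP1, mem_image] at hq
    obtain ⟨l, hl, rfl⟩ := hq
    exact ⟨hl, rfl⟩
  have m2 : ∀ q ∈ P2, q.1 = v ∧ q.2 ∈ Str_R₀ E Y v w := by
    intro q hq
    rw [hP2, mem_image] at hq
    obtain ⟨l, hl, rfl⟩ := hq
    exact ⟨rfl, hl⟩
  have c1 : P1.card = (Str_L₀ E Y v w).card := by
    rw [hP1]
    exact Finset.card_image_of_injective _ (fun a b h => (Prod.mk.inj h).1)
  have c2 : P2.card = (Str_R₀ E Y v w).card := by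
    rw [hP2]
    exact Finset.card_image_of_injective _ (fun a b h => (Prod.mk.inj h).2)
  have d1 : Disjoint P1 P2 := by
    rw [Finset.disjoint_left]
    intro q h1 h2
    exact (hL₀ _ (m1 q h1).1).2.1 (m2 q h2).1
  have d2 : Disjoint (P1 ∪ P2) M := by
    rw [Finset.disjoint_left]
    intro q h1 h2
    rcases mem_union.1 h1 with h1 | h1
    · exact (hMm q h2).2.2.2.2.1 (m1 q h1).2
    · exact (hMm q h2).2.1 (m2 q h1).1
  obtain ⟨PP, hPP⟩ : ∃ PP, PP = (P1 ∪ P2) ∪ M := ⟨_, rfl⟩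
  have hPPc : K - 1 ≤ PP.card := by
    rw [hPP, Finset.card_union_of_disjoint d2, Finset.card_union_of_disjoint d1, c1, c2, hM1]
    omega
  have hPm : ∀ q ∈ PP, q.1 ∈ Y ∧ q.2 ∉ Y ∧ s(q.1, q.2) ∈ E := by
    intro q hq
    rw [hPP, mem_union, mem_union] at hq
    rcases hq with (hq | hq) | hq
    · obtain ⟨h1, h2⟩ := m1 q hq
      obtain ⟨h3, h4, h5⟩ := hL₀ _ h1
      rw [h2]
      exact ⟨h3, hw, h5⟩
    · obtain ⟨h1, h2⟩ := m2 q hq
      obtain ⟨h3, h4, h5⟩ := hR₀ _ h2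
      rw [h1]
      exact ⟨hv, h3, h5⟩
    · obtain ⟨h1, -, -, h2, -, -, h3⟩ := hMm q hq
      exact ⟨h1, h2, h3⟩
  have u1 : ∀ q ∈ PP, ∀ q' ∈ PP, q.1 = q'.1 → q.1 ≠ v → q = q' := by
    intro q hq q' hq' he hne
    rw [hPP, mem_union, mem_union] at hq hq'
    rcases hq with (hq | hq) | hq
    · rcases hq' with (hq' | hq') | hq'
      · exact Prod.ext he ((m1 q hq).2.trans (m1 q' hq').2.symm)
      · exact absurd (he.trans (m2 q' hq').1) hne
      · exact absurd (he ▸ (m1 q hq).1) (hMm q' hq').2.2.1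
    · exact absurd (m2 q hq).1 hne
    · rcases hq' with (hq' | hq') | hq'
      · exact absurd (he ▸ (m1 q' hq').1 : q.1 ∈ _) (hMm q hq).2.2.1
      · exact absurd (he.trans (m2 q' hq').1) hne
      · exact hM3 q hq q' hq' he
  have u2 : ∀ q ∈ PP, ∀ q' ∈ PP, q.2 = q'.2 → q.2 ≠ w → q = q' := by
    intro q hq q' hq' he hne
    rw [hPP, mem_union, mem_union] at hq hq'
    rcases hq with (hq | hq) | hq
    · exact absurd (m1 q hq).2 hne
    · rcases hq' with (hq' | hq') | hq'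
      · exact absurd (he.trans (m1 q' hq').2) hne
      · exact Prod.ext ((m2 q hq).1.trans (m2 q' hq').1.symm) he
      · exact absurd (he ▸ (m2 q hq).2) (hMm q' hq').2.2.2.2.2.1
    · rcases hq' with (hq' | hq') | hq'
      · exact absurd (he.trans (m1 q' hq').2) hne
      · exact absurd (he ▸ (m2 q' hq').2 : q.2 ∈ _) (hMm q hq).2.2.2.2.2.1
      · exact hM4 q hq q' hq' he
  have hinj : Set.InjOn (fun q : V × V => s(q.1, q.2)) PP := by
    intro q hq q' hq' he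
    have h1 := hPm q hq
    have h2 := hPm q' hq'
    rcases Sym2.eq_iff.1 he with ⟨h3, h4⟩ | ⟨h3, h4⟩
    · exact Prod.ext h3 h4
    · exact absurd (h3 ▸ h1.1 : q'.2 ∈ Y) h2.2.1
  obtain ⟨F, hF1, hF2⟩ := Finset.exists_subset_card_eq
    (s := PP.image (fun q => s(q.1, q.2))) (n := K - 1)
    (by rw [Finset.card_image_of_injOn hinj]; exact hPPc)
  refine ⟨F, ?_, hF2, ?_⟩
  · intro e he
    obtain ⟨q, hq, rfl⟩ := mem_image.1 (hF1 he)
    exact (hPm q hq).2.2
  · intro A C D hCD hvC hwD hCY hDY hcr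
    have hvX : v ∉ (C ∪ D)ᶜ := by
      rw [mem_compl, not_not, mem_union]
      exact Or.inl hvC
    have hwX : w ∉ (C ∪ D)ᶜ := by
      rw [mem_compl, not_not, mem_union]
      exact Or.inr hwD
    obtain ⟨PA, hPA⟩ : ∃ PA, PA = PP.filter (fun q => s(q.1, q.2) ∈ A ∩ F) := ⟨_, rfl⟩
    have h1 : (A ∩ F).card ≤ PA.card := by
      have : A ∩ F ⊆ PA.image (fun q => s(q.1, q.2)) := by
        intro e he
        obtain ⟨q, hq, rfl⟩ := mem_image.1 (hF1 (mem_inter.1 he).2)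
        rw [mem_image]
        exact ⟨q, by rw [hPA]; exact mem_filter.2 ⟨hq, he⟩, rfl⟩
      exact (Finset.card_le_card this).trans Finset.card_image_le
    refine h1.trans ?_
    have hend : ∀ q ∈ PA, q.1 ∈ (C ∪ D)ᶜ ∨ q.2 ∈ (C ∪ D)ᶜ := by
      intro q hq
      rw [hPA] at hq
      obtain ⟨hq1, hq2⟩ := mem_filter.1 hq
      by_contra hcon
      rw [not_or, mem_compl, mem_compl, not_not, not_not, mem_union, mem_union] at hcon
      obtain ⟨h3, h4, h5⟩ := hPm q hq1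
      have hc : q.1 ∈ C := by
        rcases hcon.1 with h | h
        · exact h
        · exact absurd h3 (Finset.disjoint_left.1 hDY h)
      have hd : q.2 ∈ D := by
        rcases hcon.2 with h | h
        · exact absurd (hCY h) h4
        · exact h
      have : s(q.1, q.2) ∈ cr A C D := mem_cr hc hd (mem_inter.1 hq2).1
      rw [hcr] at this
      exact absurd this (Finset.notMem_empty _)
    refine Finset.card_le_card_of_injOn (fun q => if q.1 ∈ (C ∪ D)ᶜ then q.1 else q.2) ?_ ?_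
    · intro q hq
      simp only
      split_ifs with h
      · exact h
      · exact (hend q hq).resolve_left h
    · intro q hq q' hq' he
      have hqP : q ∈ PP := by
        have : q ∈ PA := hq
        rw [hPA] at this
        exact (mem_filter.1 this).1
      have hqP' : q' ∈ PP := by
        have : q' ∈ PA := hq'
        rw [hPA] at this
        exact (mem_filter.1 this).1
      have e1 := hPm q hqP
      have e2 := hPm q' hqP'
      simp only at he
      split_ifs at he with h3 h4 h4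
      · exact u1 q hqP q' hqP' he (fun h => hvX (h ▸ h3))
      · exact absurd (he ▸ e1.1) e2.2.1
      · exact absurd (he ▸ e2.1) e1.2.1
      · exact u2 q hqP q' hqP' he (fun h => hwX (h ▸ (hend q hq).resolve_left h3))

end Pool.Agent.MAC
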