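import Pool.Agent.MAC.Bas

/-!
# MAC/VcB: the family of the separations with few crossing edges has small VC dimension   (difficulty 3)

Let `S` be shattered, `|S| = 2^N`; index `S` by a bijection `σ` with the functions `r : Fin N → Bool` (or with the subsets of `Fin N`).  For `j : Fin N` take
`T = {σ r : r j = true}` and the pair `(C j, D j)` in the family with `T ⊆ C j`, `S \ T ⊆ D j`.  Let `X j = (C j ∪ D j)ᶜ`, `|X j| ≤ x`.
Atoms: `Q r = {y : ∀ j, if r j then y ∈ C j else y ∈ D j}`; `σ r ∈ Q r`, and the `Q r` are pairwise disjoint.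
* Lower bound: `|nbr E (Q r)| ≥ K` if `|Q r| + K ≤ n` (`nbr_ge`).  The other `r` satisfy `|Q r| ≥ n - K + 1`; they are at most `b`, since
  `(n - K + 1) #{r} ≤ ∑ |Q r| ≤ n ≤ b (n - K)` (`K < n`).  So `2^N K ≤ b K + ∑_r |nbr E (Q r)|`.
* Upper bound: `∑_r |nbr E (Q r)| ≤ 2^N x + 2 N m`.  Count the pairs `(y, r)`, `y ∈ nbr E (Q r)`.
  (i) Pairs such that for all `j`: `y ∈ X j` or (`y` is on the side `r j` of the pair `j`).  Let `J = {j : y ∈ X j}`; `J ≠ ∅` because otherwise `y ∈ Q r`.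
  For given `y` at most `2^|J|` such `r`, and `N 2^|J| ≤ |J| 2^N` (`vc_arith`).  So `N · (number) ≤ 2^N ∑_y |J y| = 2^N ∑_j |X j| ≤ 2^N N x`.
  (ii) Otherwise there is `j` such that `y` is in the set `C j` or `D j` which is not the side `r j`; take `z ∈ Q r` with `s(y, z) ∈ E`: then `s(y, z) ∈ cr E (C j) (D j)`.
  `(y, r)` is determined by the ordered pair `(y, z)` (`z ∈ Q r`), so there are at most `∑_j 2 |cr E (C j) (D j)| ≤ 2 N m` such pairs.
-/

namespace Pool.Agent.MAC

open Finset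

variable {V : Type} [Fintype V] [DecidableEq V]

theorem vc_arith {k N : ℕ} (h1 : 1 ≤ k) (h2 : k ≤ N) : N * 2 ^ k ≤ k * 2 ^ N := by
  induction N, h2 using Nat.le_induction with
  | base => exact le_rfl
  | succ N hN ih =>
    rw [pow_succ]
    have : 1 ≤ N := h1.trans hN
    have h2 : 0 < 2 ^ k := by positivity
    nlinarith

section
variable {N : ℕ} (Sd : Fin N → Bool → Finset V)

/-- the atom of `r` -/
def VcB_Q (r : Fin N → Bool) : Finset V := univ.filter fun y => ∀ j, y ∈ Sd j (r j)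

/-- the points on no side -/
def VcB_X (j : Fin N) : Finset V := (Sd j true ∪ Sd j false)ᶜ

theorem VcB_mem_X {j : Fin N} {y : V} : y ∈ VcB_X Sd j ↔ ∀ b, y ∉ Sd j b := by
  unfold VcB_X
  rw [mem_compl, mem_union, not_or]
  constructor
  · rintro ⟨h1, h2⟩ b
    cases b
    · exact h2
    · exact h1
  · intro h
    exact ⟨h true, h false⟩

variable {Sd}

theorem VcB_disj (hSd : ∀ j b b' y, y ∈ Sd j b → y ∈ Sd j b' → b = b') {r r' : Fin N → Bool} {y : V}
    (h : y ∈ VcB_Q Sd r) (h' : y ∈ VcB_Q Sd r') : r = r' := by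
  funext j
  exact hSd j _ _ y ((mem_filter.1 h).2 j) ((mem_filter.1 h').2 j)

theorem VcB_one (hSd : ∀ j b b' y, y ∈ Sd j b → y ∈ Sd j b' → b = b') (y : V) :
    N * (univ.filter fun r : Fin N → Bool => y ∉ VcB_Q Sd r ∧
      ∀ j, y ∈ VcB_X Sd j ∨ y ∈ Sd j (r j)).card ≤
      (univ.filter fun j => y ∈ VcB_X Sd j).card * 2 ^ N := by
  classical
  rcases (univ.filter fun j => y ∈ VcB_X Sd j).eq_empty_or_nonempty with h0 | h0
  · have : (univ.filter fun r : Fin N → Bool => y ∉ VcB_Q Sd r ∧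
      ∀ j, y ∈ VcB_X Sd j ∨ y ∈ Sd j (r j)) = ∅ := by
      rw [filter_eq_empty_iff]
      rintro r - ⟨h1, h2⟩
      apply h1
      refine mem_filter.2 ⟨mem_univ _, fun j => ?_⟩
      refine (h2 j).resolve_left fun h3 => ?_
      have : j ∈ (univ.filter fun j => y ∈ VcB_X Sd j) := mem_filter.2 ⟨mem_univ _, h3⟩
      rw [h0] at this
      exact absurd this (notMem_empty _)
    rw [this]
    simp
  · set J := univ.filter fun j => y ∈ VcB_X Sd j with hJ
    have h1 : (univ.filter fun r : Fin N → Bool => y ∉ VcB_Q Sd r ∧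
        ∀ j, y ∈ VcB_X Sd j ∨ y ∈ Sd j (r j)).card ≤ 2 ^ J.card := by
      have h2 : (univ : Finset ({j // j ∈ J} → Bool)).card = 2 ^ J.card := by
        rw [card_univ, Fintype.card_fun, Fintype.card_bool, Fintype.card_coe]
      rw [← h2]
      refine card_le_card_of_injOn (fun r (j : {j // j ∈ J}) => r j.1) (fun _ _ => mem_univ _) ?_
      intro r hr r' hr' h
      obtain ⟨-, -, h3⟩ := mem_filter.1 hr
      obtain ⟨-, -, h4⟩ := mem_filter.1 hr'
      funext j
      by_cases hj : j ∈ J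
      · exact congrFun h ⟨j, hj⟩
      · have hjX : y ∉ VcB_X Sd j := fun h5 => hj (mem_filter.2 ⟨mem_univ _, h5⟩)
        exact hSd j _ _ y ((h3 j).resolve_left hjX) ((h4 j).resolve_left hjX)
    have h3 : 1 ≤ J.card := h0.card_pos
    have h4 : J.card ≤ N := by
      have := card_le_univ J
      rwa [Fintype.card_fin] at this
    exact (Nat.mul_le_mul_left N h1).trans (vc_arith h3 h4)

/-- the pairs of the first kind -/
theorem VcB_first (hN : 1 ≤ N) (hSd : ∀ j b b' y, y ∈ Sd j b → y ∈ Sd j b' → b = b') {x : ℕ}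
    (hX : ∀ j, (VcB_X Sd j).card ≤ x) :
    ∑ y : V, (univ.filter fun r : Fin N → Bool => y ∉ VcB_Q Sd r ∧
      ∀ j, y ∈ VcB_X Sd j ∨ y ∈ Sd j (r j)).card ≤ 2 ^ N * x := by
  classical
  have h1 : N * ∑ y : V, (univ.filter fun r : Fin N → Bool => y ∉ VcB_Q Sd r ∧
      ∀ j, y ∈ VcB_X Sd j ∨ y ∈ Sd j (r j)).card ≤ N * (2 ^ N * x) := by
    rw [mul_sum]
    calc _ ≤ ∑ y : V, (univ.filter fun j => y ∈ VcB_X Sd j).card * 2 ^ N :=
          sum_le_sum fun y _ => VcB_one hSd y
      _ = (∑ y : V, (univ.filter fun j => y ∈ VcB_X Sd j).card) * 2 ^ N := by rw [sum_mul]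
      _ = (∑ j : Fin N, (VcB_X Sd j).card) * 2 ^ N := by
          congr 1
          simp only [card_filter]
          rw [sum_comm]
          refine sum_congr rfl fun j _ => ?_
          rw [← card_filter]
          congr 1
          ext y
          simp
      _ ≤ (∑ j : Fin N, x) * 2 ^ N := Nat.mul_le_mul_right _ (sum_le_sum fun j _ => hX j)
      _ = N * (2 ^ N * x) := by
          rw [sum_const, card_univ, Fintype.card_fin, smul_eq_mul]
          ring
  exact Nat.le_of_mul_le_mul_left h1 hN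

/-- the pairs of the second kind -/
theorem VcB_second (hSd : ∀ j b b' y, y ∈ Sd j b → y ∈ Sd j b' → b = b') {E : Finset (Sym2 V)} {m : ℕ}
    (hm : ∀ j, (cr E (Sd j true) (Sd j false)).card ≤ m) :
    (univ.filter fun p : V × (Fin N → Bool) => p.1 ∈ nbr E (VcB_Q Sd p.2) ∧
      ¬ ∀ j, p.1 ∈ VcB_X Sd j ∨ p.1 ∈ Sd j (p.2 j)).card ≤ 2 * N * m := by
  classical
  set B : Finset (Sym2 V) := univ.biUnion fun j => cr E (Sd j true) (Sd j false) with hB
  have hBc : B.card ≤ N * m := by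
    refine card_biUnion_le.trans ?_
    refine (sum_le_sum fun j _ => hm j).trans ?_
    rw [sum_const, card_univ, Fintype.card_fin, smul_eq_mul]
  -- ordered pairs
  have hW : (univ.filter fun w : V × V => s(w.1, w.2) ∈ B).card ≤ 2 * B.card := by
    refine card_le_mul_card_image_of_maps_to (f := fun w : V × V => s(w.1, w.2)) ?_ 2 ?_
    · intro w hw
      exact (mem_filter.1 hw).2
    · intro e _
      induction e using Sym2.ind with
      | _ a c =>
        refine (card_le_card (t := {(a, c), (c, a)}) ?_).trans card_le_two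
        intro w hw
        have h1 := (mem_filter.1 hw).2
        rw [Sym2.eq_iff] at h1
        rw [mem_insert, mem_singleton]
        rcases h1 with ⟨h1, h2⟩ | ⟨h1, h2⟩
        · exact Or.inl (Prod.ext h1 h2)
        · exact Or.inr (Prod.ext h1 h2)
  have key : ∀ p : V × (Fin N → Bool), p.1 ∈ nbr E (VcB_Q Sd p.2) →
      ∃ z ∈ VcB_Q Sd p.2, s(p.1, z) ∈ E := by
    intro p hp
    exact (mem_filter.1 hp).2.2
  let f : V × (Fin N → Bool) → V × V := fun p =>
    if h : ∃ z ∈ VcB_Q Sd p.2, s(p.1, z) ∈ E then (p.1, h.choose) else (p.1, p.1)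
  have hf : ∀ p : V × (Fin N → Bool), p.1 ∈ nbr E (VcB_Q Sd p.2) →
      (f p).1 = p.1 ∧ (f p).2 ∈ VcB_Q Sd p.2 ∧ s(p.1, (f p).2) ∈ E := by
    intro p hp
    have h := key p hp
    have : f p = (p.1, h.choose) := dif_pos h
    rw [this]
    exact ⟨rfl, h.choose_spec.1, h.choose_spec.2⟩
  refine le_trans (card_le_card_of_injOn f (t := univ.filter fun w : V × V => s(w.1, w.2) ∈ B) ?_ ?_)
    (hW.trans (by nlinarith))
  · intro p hp
    obtain ⟨-, h1, h2⟩ := mem_filter.1 hp
    obtain ⟨h3, h4, h5⟩ := hf p h1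
    push Not at h2
    obtain ⟨j, hj1, hj2⟩ := h2
    refine mem_coe.2 (mem_filter.2 ⟨mem_univ _, ?_⟩)
    rw [h3]
    refine mem_biUnion.2 ⟨j, mem_univ _, ?_⟩
    -- `p.1` is on the other side
    have h6 : ∃ b, p.1 ∈ Sd j b := by
      rw [VcB_mem_X] at hj1
      push Not at hj1
      exact hj1
    obtain ⟨b, hb⟩ := h6
    have h7 : (f p).2 ∈ Sd j (p.2 j) := (mem_filter.1 h4).2 j
    have h8 : b ≠ p.2 j := by
      rintro rfl
      exact hj2 hb
    refine mem_filter.2 ⟨h5, ?_⟩
    cases hb' : p.2 j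
    · rw [hb'] at h7 h8
      have : b = true := by
        cases b
        · exact absurd rfl h8
        · rfl
      rw [this] at hb
      exact ⟨_, hb, _, h7, rfl⟩
    · rw [hb'] at h7 h8
      have : b = false := by
        cases b
        · rfl
        · exact absurd rfl h8
      rw [this] at hb
      exact ⟨_, h7, _, hb, Sym2.eq_swap⟩
  · intro p hp p' hp' h
    obtain ⟨-, h1, -⟩ := mem_filter.1 (mem_coe.1 hp)
    obtain ⟨-, h1', -⟩ := mem_filter.1 (mem_coe.1 hp')
    obtain ⟨h3, h4, -⟩ := hf p h1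
    obtain ⟨h3', h4', -⟩ := hf p' h1'
    refine Prod.ext (by rw [← h3, ← h3', h]) ?_
    rw [← h] at h4'
    exact VcB_disj hSd h4 h4'

/-- upper bound -/
theorem VcB_upper (hN : 1 ≤ N) (hSd : ∀ j b b' y, y ∈ Sd j b → y ∈ Sd j b' → b = b') {x m : ℕ}
    (hX : ∀ j, (VcB_X Sd j).card ≤ x) {E : Finset (Sym2 V)}
    (hm : ∀ j, (cr E (Sd j true) (Sd j false)).card ≤ m) :
    ∑ r : Fin N → Bool, (nbr E (VcB_Q Sd r)).card ≤ 2 ^ N * x + 2 * N * m := by
  classical
  have h1 := VcB_first hN hSd hX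
  have h2 := VcB_second hSd hm
  have e2 : (univ.filter fun p : V × (Fin N → Bool) => p.1 ∈ nbr E (VcB_Q Sd p.2) ∧
      ¬ ∀ j, p.1 ∈ VcB_X Sd j ∨ p.1 ∈ Sd j (p.2 j)).card =
      ∑ y : V, (univ.filter fun r : Fin N → Bool => y ∈ nbr E (VcB_Q Sd r) ∧
        ¬ ∀ j, y ∈ VcB_X Sd j ∨ y ∈ Sd j (r j)).card := by
    simp only [card_filter]
    rw [Fintype.sum_prod_type]
  rw [e2] at h2
  have e3 : ∑ r : Fin N → Bool, (nbr E (VcB_Q Sd r)).card =
      ∑ y : V, (univ.filter fun r : Fin N → Bool => y ∈ nbr E (VcB_Q Sd r)).card := by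
    have : ∀ r : Fin N → Bool, (nbr E (VcB_Q Sd r)).card =
        (univ.filter fun y : V => y ∈ nbr E (VcB_Q Sd r)).card := by
      intro r
      congr 1
      ext y
      simp
    simp only [this, card_filter]
    rw [sum_comm]
  rw [e3]
  refine le_trans ?_ (add_le_add h1 h2)
  rw [← sum_add_distrib]
  refine sum_le_sum fun y _ => ?_
  refine (card_le_card ?_).trans (card_union_le _ _)
  intro r hr
  have h3 := (mem_filter.1 hr).2
  rw [mem_union]
  by_cases h4 : ∀ j, y ∈ VcB_X Sd j ∨ y ∈ Sd j (r j)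
  · left
    exact mem_filter.2 ⟨mem_univ _, (mem_filter.1 h3).2.1, h4⟩
  · right
    exact mem_filter.2 ⟨mem_univ _, h3, h4⟩

/-- lower bound -/
theorem VcB_lower (hSd : ∀ j b b' y, y ∈ Sd j b → y ∈ Sd j b' → b = b') {E : Finset (Sym2 V)} {K b : ℕ}
    (hE : KC E K) (hb : Fintype.card V ≤ b * (Fintype.card V - K))
    (hne : ∀ r : Fin N → Bool, (VcB_Q Sd r).Nonempty) :
    2 ^ N * K ≤ b * K + ∑ r : Fin N → Bool, (nbr E (VcB_Q Sd r)).card := by
  classical
  have hK := hE.1
  set n := Fintype.card V with hn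
  set Big := univ.filter fun r : Fin N → Bool => n < (VcB_Q Sd r).card + K with hBig
  have h1 : Big.card ≤ b := by
    by_contra hc
    push Not at hc
    have h2 : ∑ r ∈ Big, (VcB_Q Sd r).card ≤ n := by
      rw [← card_biUnion]
      · exact card_le_univ _
      · intro r _ r' _ hrr
        rw [Function.onFun, disjoint_left]
        intro y hy hy'
        exact hrr (VcB_disj hSd hy hy')
    have h3 : Big.card * (n - K) ≤ ∑ r ∈ Big, (VcB_Q Sd r).card := by
      rw [← smul_eq_mul, ← sum_const]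
      refine sum_le_sum fun r hr => ?_
      have := (mem_filter.1 hr).2
      omega
    have h4 : (b + 1) * (n - K) ≤ Big.card * (n - K) := Nat.mul_le_mul_right _ hc
    have h5 : 0 < n - K := by omega
    nlinarith
  have h6 : ∀ r : Fin N → Bool, K ≤ (if r ∈ Big then K else 0) + (nbr E (VcB_Q Sd r)).card := by
    intro r
    by_cases hr : r ∈ Big
    · rw [if_pos hr]
      exact Nat.le_add_right _ _
    · rw [if_neg hr, zero_add]
      refine nbr_ge hE (hne r) ?_
      by_contra hc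
      exact hr (mem_filter.2 ⟨mem_univ _, not_le.1 hc⟩)
  have h7 : 2 ^ N * K = ∑ _r : Fin N → Bool, K := by
    rw [sum_const, card_univ, Fintype.card_fun, Fintype.card_bool, Fintype.card_fin, smul_eq_mul]
  rw [h7]
  refine (sum_le_sum fun r _ => h6 r).trans ?_
  rw [sum_add_distrib]
  refine Nat.add_le_add_right ?_ _
  rw [sum_ite_mem, univ_inter, sum_const, smul_eq_mul]
  exact Nat.mul_le_mul_right _ h1

end

theorem vc_bound {E : Finset (Sym2 V)} {K : ℕ} (hE : KC E K) (x m N b : ℕ) (hN : 1 ≤ N)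
    (hb : Fintype.card V ≤ b * (Fintype.card V - K)) (S : Finset V) (hc : S.card = 2 ^ N)
    (hS : Shat (Fam E x m) S) : 2 ^ N * K ≤ b * K + 2 ^ N * x + 2 * N * m := by
  classical
  have hcard : Fintype.card (Fin N → Bool) = Fintype.card {v // v ∈ S} := by
    rw [Fintype.card_fun, Fintype.card_bool, Fintype.card_fin, Fintype.card_coe, hc]
  let e : (Fin N → Bool) ≃ {v // v ∈ S} := Fintype.equivOfCardEq hcard
  let σ : (Fin N → Bool) → V := fun r => (e r).1
  have hσ : Function.Injective σ := fun a b h => e.injective (Subtype.ext h)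
  have hσS : ∀ r, σ r ∈ S := fun r => (e r).2
  have hq : ∀ j : Fin N, ∃ q ∈ Fam E x m,
      (univ.filter fun r : Fin N → Bool => r j = true).image σ ⊆ q.1 ∧
      S \ (univ.filter fun r : Fin N → Bool => r j = true).image σ ⊆ q.2 := by
    intro j
    apply hS
    intro v hv
    obtain ⟨r, -, rfl⟩ := mem_image.1 hv
    exact hσS r
  choose q hqF hq1 hq2 using hq
  let Sd : Fin N → Bool → Finset V := fun j c => if c = true then (q j).1 else (q j).2
  have hSt : ∀ j, Sd j true = (q j).1 := fun j => rfl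
  have hSf : ∀ j, Sd j false = (q j).2 := fun j => rfl
  have hF : ∀ j, Disjoint (q j).1 (q j).2 ∧ (((q j).1 ∪ (q j).2)ᶜ).card ≤ x ∧
      (cr E (q j).1 (q j).2).card ≤ m := by
    intro j
    obtain ⟨-, h1, -, -, h2, h3⟩ := mem_filter.1 (hqF j)
    exact ⟨h1, h2, h3⟩
  have hSd : ∀ j c c' y, y ∈ Sd j c → y ∈ Sd j c' → c = c' := by
    intro j c c' y h1 h2
    have hd := disjoint_left.1 (hF j).1
    cases c <;> cases c'
    · rfl
    · rw [hSf] at h1
      rw [hSt] at h2
      exact absurd h1 (hd h2)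
    · rw [hSf] at h2
      rw [hSt] at h1
      exact absurd h2 (hd h1)
    · rfl
  have hne : ∀ r : Fin N → Bool, (VcB_Q Sd r).Nonempty := by
    intro r
    refine ⟨σ r, mem_filter.2 ⟨mem_univ _, fun j => ?_⟩⟩
    cases hr : r j
    · rw [hSf]
      apply hq2
      rw [mem_sdiff]
      refine ⟨hσS r, ?_⟩
      intro h
      obtain ⟨r', hr', h'⟩ := mem_image.1 h
      rw [hσ h'] at hr'
      have := (mem_filter.1 hr').2
      rw [hr] at this
      exact Bool.false_ne_true this
    · rw [hSt]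
      apply hq1
      exact mem_image.2 ⟨r, mem_filter.2 ⟨mem_univ _, hr⟩, rfl⟩
  have h1 := VcB_lower hSd hE hb hne
  have h2 := VcB_upper hN hSd (x := x) (m := m) (fun j => (hF j).2.1) (E := E) (fun j => (hF j).2.2)
  omega

end Pool.Agent.MAC
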