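import Pool.Agent.MAC.Det
import Pool.Agent.MAC.Pdeg
import Pool.Agent.MAC.Pcut
import Pool.Agent.MAC.Step1
import Pool.Agent.MAC.Str
import Pool.Agent.MAC.VcB
import Pool.Agent.MAC.HalB
import Pool.Agent.MAC.Num1
import Pool.Agent.MAC.Cnt

/-!
# MAC/Smp: the sharp sampling theorem for vertex connectivity   (assembly, helper19)
-/

namespace Pool.Agent.MAC

open Finset

theorem Smp_exp3 : 3 * Real.exp (-3) < 1 / 2 := by
  have h1 : (2.7 : ℝ) < Real.exp 1 := by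
    have := Real.exp_one_gt_d9
    linarith
  have h2 : Real.exp 3 = Real.exp 1 ^ 3 := by
    rw [← Real.exp_nat_mul]
    norm_num
  have h3 : (19 : ℝ) < Real.exp 3 := by
    rw [h2]
    calc (19 : ℝ) < 2.7 ^ 3 := by norm_num
      _ < Real.exp 1 ^ 3 := by gcongr
  rw [Real.exp_neg]
  rw [← div_eq_mul_inv, div_lt_iff₀ (by positivity)]
  linarith

theorem Smp_n1 {ε K s : ℝ} (hε : 0 < ε) (hs : 1 ≤ s) (hK0 : 0 ≤ K) (hsK : s ≤ (1 - ε) * K) :
    0 < K ∧ s < K := by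
  have hK : 0 < K := by
    rcases hK0.lt_or_eq with h | h
    · exact h
    · rw [← h, mul_zero] at hsK
      linarith
  refine ⟨hK, ?_⟩
  have : 0 < ε * K := mul_pos hε hK
  linarith

theorem Smp_n2 {C K L Δ : ℝ} (hC : 0 ≤ C) (hK : 1 ≤ Real.sqrt K)
    (hΔ : C * Real.sqrt K * L ^ 2 ≤ Δ) : C * L ^ 2 ≤ Δ := by
  have h1 : C * L ^ 2 * 1 ≤ C * L ^ 2 * Real.sqrt K :=
    mul_le_mul_of_nonneg_left hK (by positivity)
  have h2 : C * L ^ 2 * Real.sqrt K = C * Real.sqrt K * L ^ 2 := by ring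
  linarith

theorem Smp_n3 {C L Δ : ℝ} (hC : 0 ≤ C) (hL : 1 ≤ L) (h : C * L ^ 2 ≤ Δ) : C * L ≤ Δ := by
  have h1 : L * 1 ≤ L * L := mul_le_mul_of_nonneg_left hL (by linarith)
  have h2 : C * L ≤ C * L ^ 2 := by
    apply mul_le_mul_of_nonneg_left _ hC
    rw [sq]
    linarith
  linarith

theorem Smp_n4 {C K L Δ : ℝ} (hC : 0 ≤ C) (hK : 0 ≤ K)
    (hΔ : C * Real.sqrt K * L ^ 2 ≤ Δ) : C ^ 2 * K * L ^ 4 ≤ Δ ^ 2 := by
  have h1 : 0 ≤ C * Real.sqrt K * L ^ 2 := by positivity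
  calc C ^ 2 * K * L ^ 4 = (C * Real.sqrt K * L ^ 2) ^ 2 := by
        rw [mul_pow, mul_pow, Real.sq_sqrt hK]
        ring
    _ ≤ Δ ^ 2 := by gcongr

theorem Smp_n5 {ε C L Δ : ℝ} (hε : 0 < ε) (hL : 0 ≤ L) (hC2 : 100 / ε ≤ C)
    (hCL1 : C * L ≤ Δ) : 100 * L ≤ Δ * ε := by
  have h1 : 100 / ε * L ≤ C * L := mul_le_mul_of_nonneg_right hC2 hL
  have h3 : 100 / ε * L * ε ≤ Δ * ε :=
    mul_le_mul_of_nonneg_right (by linarith) hε.le
  have h4 : 100 / ε * L * ε = 100 * L := by field_simp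
  linarith

/-- hypothesis `h1` of `step1` -/
theorem Smp_n6 {ε K s Δ p L : ℝ} (hε : 0 < ε) (hs : 0 ≤ s) (hL : 0 ≤ L)
    (hsK : s ≤ (1 - ε) * K) (hp0 : 0 ≤ p) (hp : p * K = s + Δ / 2)
    (hεL : 100 * L ≤ Δ * ε) : 8 * L ≤ p * (K - (s - 1)) := by
  have h1 : ε * K ≤ K - (s - 1) := by linarith
  have h2 : p * (ε * K) ≤ p * (K - (s - 1)) := mul_le_mul_of_nonneg_left h1 hp0
  have h3 : p * (ε * K) = ε * s + Δ * ε / 2 := by
    have : p * (ε * K) = ε * (p * K) := by ring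
    rw [this, hp]
    ring
  have h4 : 0 ≤ ε * s := by positivity
  linarith

/-- hypothesis `h2` of `step1` -/
theorem Smp_n7 {K s Δ p L m : ℝ} (hs : 1 ≤ s) (hL : 1 ≤ L) (hp0 : 0 ≤ p)
    (hp : p * K = s + Δ / 2) (hΔ : 3 ≤ Δ) (hm1 : 4 * K * L ≤ m) :
    ((s - 1) + 2) * L + 3 ≤ p * m / 2 := by
  have h1 : p * (4 * K * L) ≤ p * m := mul_le_mul_of_nonneg_left hm1 hp0
  have h2 : p * (4 * K * L) = 4 * s * L + 2 * (Δ * L) := by
    have : p * (4 * K * L) = 4 * L * (p * K) := by ring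
    rw [this, hp]
    ring
  have h3 : 3 * 1 ≤ Δ * L := mul_le_mul hΔ hL (by norm_num) (by linarith)
  have h4 : 1 * L ≤ s * L := mul_le_mul_of_nonneg_right hs (by linarith)
  linarith

/-- the exponent of `pdeg` -/
theorem Smp_n8 {C K Δ p L : ℝ} (hC : 12 ≤ C) (hL : 1 ≤ L) (hK : 0 < K) (hp0 : 0 < p)
    (hp1 : p ≤ 1) (hΔ2 : C ^ 2 * K * L ^ 4 ≤ Δ ^ 2) :
    L + 3 ≤ (Δ / 4) ^ 2 / (2 * p * K) := by
  have hL4 : L ≤ L ^ 4 := le_self_pow₀ hL (by norm_num)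
  have hL41 : 1 ≤ L ^ 4 := one_le_pow₀ hL
  rw [le_div_iff₀ (by positivity)]
  have h1 : p * K ≤ 1 * K := mul_le_mul_of_nonneg_right hp1 hK.le
  have h2 : (L + 3) * (2 * p * K) ≤ (L + 3) * (2 * K) :=
    mul_le_mul_of_nonneg_left (by linarith) (by linarith)
  have h4 : (12 : ℝ) ^ 2 ≤ C ^ 2 := pow_le_pow_left₀ (by norm_num) hC 2
  have h5 : (12 : ℝ) ^ 2 * (K * L ^ 4) ≤ C ^ 2 * (K * L ^ 4) :=
    mul_le_mul_of_nonneg_right h4 (by positivity)
  have h6 : (L + 3) * K ≤ (4 * L ^ 4) * K := mul_le_mul_of_nonneg_right (by linarith) hK.le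
  have h7 : 0 ≤ K * L ^ 4 := by positivity
  have h8 : (Δ / 4) ^ 2 = Δ ^ 2 / 16 := by ring
  rw [h8]
  linarith

/-- the exponent of `pcut` -/
theorem Smp_n9 {C₀ C K Δ p L : ℝ} (hC₀ : 0 < C₀) (hC : 8 * (3 * C₀ + 5) ≤ C) (hL : 1 ≤ L)
    (hK : 2 ≤ K) (hp0 : 0 < p) (hp1 : p ≤ 1) (hΔ2 : C ^ 2 * K * L ^ 4 ≤ Δ ^ 2) :
    3 * C₀ * L ^ 4 + 2 * L + 3 ≤ (Δ / 2) ^ 2 / (2 * p * (K - 1)) := by
  have hL4 : L ≤ L ^ 4 := le_self_pow₀ hL (by norm_num)
  have hL41 : 1 ≤ L ^ 4 := one_le_pow₀ hL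
  have hK1 : 0 < K - 1 := by linarith
  rw [le_div_iff₀ (by positivity)]
  have hZ : 0 ≤ 3 * C₀ * L ^ 4 + 2 * L + 3 := by positivity
  have h1 : p * (K - 1) ≤ 1 * (K - 1) := mul_le_mul_of_nonneg_right hp1 hK1.le
  have h2 : (3 * C₀ * L ^ 4 + 2 * L + 3) * (2 * p * (K - 1)) ≤
      (3 * C₀ * L ^ 4 + 2 * L + 3) * (2 * K) :=
    mul_le_mul_of_nonneg_left (by linarith) hZ
  have h3 : (3 * C₀ * L ^ 4 + 2 * L + 3) * K ≤ ((3 * C₀ + 5) * L ^ 4) * K :=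
    mul_le_mul_of_nonneg_right (by linarith) (by linarith)
  have hC1 : 1 ≤ C := by linarith
  have h4 : 8 * (3 * C₀ + 5) ≤ C ^ 2 := by
    have : C * 1 ≤ C * C := mul_le_mul_of_nonneg_left hC1 (by linarith)
    rw [sq]
    linarith
  have h5 : 8 * (3 * C₀ + 5) * (K * L ^ 4) ≤ C ^ 2 * (K * L ^ 4) :=
    mul_le_mul_of_nonneg_right h4 (by positivity)
  have h8 : (Δ / 2) ^ 2 = Δ ^ 2 / 4 := by ring
  rw [h8]
  linarith

theorem Smp_n10 {ε K L Δ m : ℝ} (hK : 1 ≤ K) (hL : 1 ≤ L) (hm2 : m ≤ 5 * K * L)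
    (hεL : 100 * L ≤ Δ * ε) : m < Δ / 4 * (ε * K / 4) := by
  have h1 : 100 * L * K ≤ Δ * ε * K := mul_le_mul_of_nonneg_right hεL (by linarith)
  have h2 : 0 < K * L := by positivity
  linarith

/-- the family of total functions -/
theorem Smp_fam (ε : ℝ) (hε : 0 < ε) (b : ℕ) (hbε : 1 + 2 / ε ≤ b) {V : Type} [Fintype V]
    [DecidableEq V] {E : Finset (Sym2 V)} {K s m N : ℕ} {L : ℝ} (hE : KC E K) (hK : 1 ≤ K)
    (hs : 1 ≤ s) (hsK : (s : ℝ) ≤ (1 - ε) * K) (hL : L = Real.log (2 * (Fintype.card V : ℝ)))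
    (hm : (m : ℝ) ≤ 5 * K * L) (hN : 1 ≤ N) (hN2 : (b : ℝ) + 10 * N * L ≤ 2 ^ N * ε) :
    ∃ Y : Finset (Finset V), (Y.card : ℝ) ≤ Real.exp (3 * 2 ^ N * L ^ 2) ∧
      ((Fintype.card V : ℝ) < (1 + ε / 2) * K ∨
        ∀ q ∈ Fam E (s - 1) m, ∃ y ∈ Y, q.1 ⊆ y ∧ Disjoint q.2 y) := by
  by_cases hd : (Fintype.card V : ℝ) < (1 + ε / 2) * K
  · refine ⟨∅, ?_, Or.inl hd⟩
    rw [Finset.card_empty, Nat.cast_zero]
    exact (Real.exp_pos _).le
  push Not at hd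
  have hKn : K < Fintype.card V := hE.1
  have hK0 : (1 : ℝ) ≤ K := by exact_mod_cast hK
  have hb : Fintype.card V ≤ b * (Fintype.card V - K) := by
    have h1 : ((Fintype.card V - K : ℕ) : ℝ) = (Fintype.card V : ℝ) - K := by
      rw [Nat.cast_sub hKn.le]
    have h2 : (Fintype.card V : ℝ) ≤ b * ((Fintype.card V - K : ℕ) : ℝ) := by
      rw [h1]
      have h3 : (K : ℝ) < Fintype.card V := by exact_mod_cast hKn
      have h4 : (1 + 2 / ε) * ((Fintype.card V : ℝ) - K) ≤ b * ((Fintype.card V : ℝ) - K) :=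
        mul_le_mul_of_nonneg_right hbε (by linarith)
      have h5 : (Fintype.card V : ℝ) ≤ (1 + 2 / ε) * ((Fintype.card V : ℝ) - K) := by
        have h6 : (1 + 2 / ε) * ((Fintype.card V : ℝ) - K) - Fintype.card V =
            2 / ε * ((Fintype.card V : ℝ) - (1 + ε / 2) * K) := by
          field_simp
          ring
        have h7 : 0 ≤ 2 / ε * ((Fintype.card V : ℝ) - (1 + ε / 2) * K) :=
          mul_nonneg (by positivity) (by linarith)
        linarith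
      linarith
    exact_mod_cast h2
  have hF : ∀ q ∈ Fam E (s - 1) m, Disjoint q.1 q.2 := by
    intro q hq
    exact (Finset.mem_filter.1 hq).2.1
  have hnot : ∀ S : Finset V, S.card = 2 ^ N → ¬ Shat (Fam E (s - 1) m) S := by
    intro S hc hS
    have h1 := vc_bound hE (s - 1) m N b hN hb S hc hS
    have h2 : ((2 : ℝ) ^ N) * K ≤ b * K + 2 ^ N * ((s : ℝ) - 1) + 2 * N * m := by
      have h3 : ((2 ^ N * K : ℕ) : ℝ) ≤ ((b * K + 2 ^ N * (s - 1) + 2 * N * m : ℕ) : ℝ) := by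
        exact_mod_cast h1
      push_cast [Nat.cast_sub hs] at h3
      exact h3
    have h4 : (0 : ℝ) < 2 ^ N := by positivity
    have h5 : (2 : ℝ) ^ N * ((s : ℝ) - 1) ≤ 2 ^ N * ((1 - ε) * K - 1) :=
      mul_le_mul_of_nonneg_left (by linarith) h4.le
    have h6 : (2 : ℝ) * N * m ≤ 2 * N * (5 * K * L) :=
      mul_le_mul_of_nonneg_left hm (by positivity)
    have h7 : ((b : ℝ) + 10 * N * L) * K ≤ 2 ^ N * ε * K :=
      mul_le_mul_of_nonneg_right hN2 (by linarith)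
    nlinarith
  obtain ⟨Y, hY1, hY2⟩ := halving (Fam E (s - 1) m) hF (2 ^ N) hnot
  refine ⟨Y, ?_, Or.inr hY2⟩
  have h1 := cnt (Fintype.card V) N (by omega)
  rw [← hL] at h1
  exact le_trans (by exact_mod_cast hY1) h1

theorem sampling (ε : ℝ) (hε : 0 < ε) (hε1 : ε < 1) : ∃ C : ℝ, 0 < C ∧
    ∀ (V : Type) [Fintype V] [DecidableEq V] (E : Finset (Sym2 V)) (K s : ℕ) (Δ p : ℝ),
      KC E K → 1 ≤ s → (s : ℝ) ≤ (1 - ε) * K →
      C * Real.sqrt K * (Real.log (2 * (Fintype.card V : ℝ))) ^ 2 ≤ Δ →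
      p * K = s + Δ / 2 → p ≤ 1 → Pr p E (fun A => ¬ KC A s) < 1 / 2 := by
  obtain ⟨b, hb⟩ := exists_nat_ge (1 + 2 / ε)
  obtain ⟨C₀, hC₀, hnum⟩ := num1 ε hε b
  set C : ℝ := 8 * (3 * C₀ + 5) + 100 / ε + 12 with hC
  have hεi : 0 < 100 / ε := by positivity
  have hC1 : 8 * (3 * C₀ + 5) ≤ C := by linarith
  have hC2 : 100 / ε ≤ C := by linarith
  have hC3 : 12 ≤ C := by linarith
  refine ⟨C, by linarith, ?_⟩
  intro V _ _ E K s Δ p hE hs hsK hΔ hp hp1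
  have hs' : (1 : ℝ) ≤ s := by exact_mod_cast hs
  obtain ⟨hKpos, hsK'⟩ := Smp_n1 hε hs' (Nat.cast_nonneg K) hsK
  have hK1 : 1 ≤ K := by exact_mod_cast hKpos
  have hK1' : (1 : ℝ) ≤ K := by exact_mod_cast hK1
  have hn : 2 ≤ Fintype.card V := by have := hE.1; omega
  have hn' : (2 : ℝ) ≤ Fintype.card V := by exact_mod_cast hn
  set n : ℝ := (Fintype.card V : ℝ) with hndef
  set L : ℝ := Real.log (2 * n) with hL
  have hL1 : 1 ≤ L := by
    have h1 : Real.log 4 ≤ L := Real.log_le_log (by norm_num) (by linarith)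
    have h2 : Real.log 4 = 2 * Real.log 2 := by
      rw [show (4 : ℝ) = 2 ^ 2 by norm_num, Real.log_pow]
      norm_num
    have := Real.log_two_gt_d9
    linarith
  have hsq1 : 1 ≤ Real.sqrt K := by
    rw [Real.one_le_sqrt]
    exact hK1'
  have hCL := Smp_n2 (by linarith) hsq1 hΔ
  have hCL1 := Smp_n3 (by linarith) hL1 hCL
  have hC12 : 12 * 1 ≤ C * L := mul_le_mul hC3 hL1 (by norm_num) (by linarith)
  have hΔ0 : 0 < Δ := by linarith
  have hΔ2 := Smp_n4 (by linarith) hKpos.le hΔ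
  have hpK0 : 0 < p * K := by
    rw [hp]
    linarith
  have hp0 : 0 < p := by
    by_contra hcon
    push Not at hcon
    have := mul_nonpos_of_nonpos_of_nonneg hcon hKpos.le
    linarith
  have hpK1 : p * K ≤ 1 * K := mul_le_mul_of_nonneg_right hp1 hKpos.le
  have hK2 : 2 ≤ K := by
    by_contra hcon
    have : K = 1 := by omega
    rw [this] at hp hpK1
    push_cast at hp hpK1
    linarith
  have hK2' : (2 : ℝ) ≤ K := by exact_mod_cast hK2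
  have hεL := Smp_n5 hε (by linarith) hC2 hCL1
  -- the number of crossing edges
  set m : ℕ := ⌈4 * (K : ℝ) * L⌉₊ with hmdef
  have hm1 : 4 * (K : ℝ) * L ≤ m := Nat.le_ceil _
  have hKL : 1 * 1 ≤ (K : ℝ) * L := mul_le_mul hK1' hL1 (by norm_num) hKpos.le
  have hm2 : (m : ℝ) ≤ 5 * K * L := by
    have := (Nat.ceil_lt_add_one (a := 4 * (K : ℝ) * L) (by positivity)).le
    rw [← hmdef] at this
    linarith
  obtain ⟨N, hN1, hN2, hN3⟩ := hnum L hL1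
  obtain ⟨Y, hY1, hY2⟩ := Smp_fam ε hε b hb hE hK1 hs hsK hL hm2 hN1 hN3
  -- test edges
  have hstr := fun (y : Finset V) (v w : V) (h : v ∈ y ∧ w ∉ y) => struct hE hK1 y h.1 h.2
  classical
  set F : Finset V → V → V → Finset (Sym2 V) := fun y v w =>
    if h : v ∈ y ∧ w ∉ y then (hstr y v w h).choose else ∅ with hFdef
  have hF1 : ∀ y v w, F y v w ⊆ E := by
    intro y v w
    rw [hFdef]
    simp only
    split_ifs with h
    · exact (hstr y v w h).choose_spec.1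
    · exact Finset.empty_subset _
  have hF2 : ∀ (y : Finset V) (v w : V), v ∈ y → w ∉ y → (F y v w).card = K - 1 := by
    intro y v w hv hw
    rw [hFdef]
    simp only
    rw [dif_pos ⟨hv, hw⟩]
    exact (hstr y v w ⟨hv, hw⟩).choose_spec.2.1
  have hF3 : ∀ (A : Finset (Sym2 V)) (y : Finset V) (v w : V), v ∈ y → w ∉ y →
      ∀ C D : Finset V, Disjoint C D → v ∈ C → w ∈ D → C ⊆ y → Disjoint D y → cr A C D = ∅ →
      (A ∩ F y v w).card ≤ ((C ∪ D)ᶜ).card := by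
    intro A y v w hv hw C' D' h1 h2 h3 h4 h5 h6
    rw [hFdef]
    simp only
    rw [dif_pos ⟨hv, hw⟩]
    exact (hstr y v w ⟨hv, hw⟩).choose_spec.2.2 A C' D' h1 h2 h3 h4 h5 h6
  -- the three probabilities
  have hx : s - 1 < K := by
    have : s < K := by exact_mod_cast hsK'
    omega
  have hcast : ((s - 1 : ℕ) : ℝ) = (s : ℝ) - 1 := by
    rw [Nat.cast_sub hs]
    norm_num
  have P1 := step1 hE hp0 hp1 (s - 1) m hx L hL (by
    rw [hcast]
    exact Smp_n6 hε (by linarith) (by linarith) hsK hp0.le hp hεL) (by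
    rw [hcast]
    exact Smp_n7 hs' hL1 hp0.le hp (by linarith) hm1)
  have P0 := pdeg hE hK1 hp0 hp1 (Δ / 4) (by linarith)
  have P4 := pcut hK2 F hF1 hF2 Y hp0 hp1 (Δ / 2) (by linarith)
  have hnexp : n ≤ Real.exp L := by
    rw [hL, Real.exp_log (by linarith)]
    linarith
  have P0' : (Fintype.card V : ℝ) * Real.exp (-((Δ / 4) ^ 2 / (2 * p * K))) ≤ Real.exp (-3) := by
    have h1 : L + 3 ≤ (Δ / 4) ^ 2 / (2 * p * K) := Smp_n8 hC3 hL1 hKpos hp0 hp1 hΔ2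
    calc (Fintype.card V : ℝ) * Real.exp (-((Δ / 4) ^ 2 / (2 * p * K)))
        ≤ Real.exp L * Real.exp (-(L + 3)) := by gcongr
      _ = Real.exp (-3) := by
        rw [← Real.exp_add]
        congr 1
        ring
  have P4' : (Y.card : ℝ) * (Fintype.card V : ℝ) ^ 2 *
      Real.exp (-((Δ / 2) ^ 2 / (2 * p * ((K : ℝ) - 1)))) ≤ Real.exp (-3) := by
    have hYe : (Y.card : ℝ) ≤ Real.exp (3 * C₀ * L ^ 4) := by
      refine le_trans hY1 (Real.exp_le_exp.2 ?_)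
      have h2 : (2 : ℝ) ^ N * L ^ 2 ≤ C₀ * L ^ 2 * L ^ 2 := by gcongr
      have h3 : C₀ * L ^ 2 * L ^ 2 = C₀ * L ^ 4 := by ring
      linarith
    have hn2 : (Fintype.card V : ℝ) ^ 2 ≤ Real.exp (2 * L) := by
      rw [two_mul, Real.exp_add, sq]
      gcongr
    have h1 : 3 * C₀ * L ^ 4 + 2 * L + 3 ≤ (Δ / 2) ^ 2 / (2 * p * ((K : ℝ) - 1)) :=
      Smp_n9 hC₀ hC1 hL1 hK2' hp0 hp1 hΔ2
    calc (Y.card : ℝ) * (Fintype.card V : ℝ) ^ 2 *
          Real.exp (-((Δ / 2) ^ 2 / (2 * p * ((K : ℝ) - 1))))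
        ≤ Real.exp (3 * C₀ * L ^ 4) * Real.exp (2 * L) *
          Real.exp (-(3 * C₀ * L ^ 4 + 2 * L + 3)) := by gcongr
      _ = Real.exp (-3) := by
        rw [← Real.exp_add, ← Real.exp_add]
        congr 1
        ring
  -- conclusion
  have hmono : Pr p E (fun A => ¬ KC A s) ≤ Pr p E (fun A =>
      (∃ v : V, ((nbr A {v}).card : ℝ) ≤ p * K - Δ / 4) ∨
      ((∃ C D : Finset V, Disjoint C D ∧ C.Nonempty ∧ D.Nonempty ∧
        ((C ∪ D)ᶜ).card ≤ s - 1 ∧ m < (cr E C D).card ∧ cr A C D = ∅) ∨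
      (∃ y ∈ Y, ∃ v ∈ y, ∃ w, w ∉ y ∧
        ((A ∩ F y v w).card : ℝ) ≤ p * ((K : ℝ) - 1) - Δ / 2))) := by
    apply Pr_mono hp0.le hp1
    intro A hAE hA
    by_contra hcon
    rw [not_or, not_or] at hcon
    obtain ⟨c0, c1, c4⟩ := hcon
    apply hA
    refine det hE hs hε hΔ0.le hsK hp (m := m) (Smp_n10 hK1' hL1 hm2 hεL) Y hY2 F (hF3 A) ?_ c1 ?_
    · intro v
      by_contra h
      exact c0 ⟨v, not_lt.1 h⟩
    · intro y hy v hv w hw
      by_contra h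
      push Not at h
      apply c4
      refine ⟨y, hy, v, hv, w, hw, ?_⟩
      have h1 : ((A ∩ F y v w).card : ℝ) ≤ (s : ℝ) - 1 := by
        have : (A ∩ F y v w).card ≤ s - 1 := by omega
        rw [← hcast]
        exact_mod_cast this
      have h2 : p * ((K : ℝ) - 1) - Δ / 2 = s - p := by
        rw [mul_sub, hp]
        ring
      rw [h2]
      linarith
  have h3 := Smp_exp3
  calc Pr p E (fun A => ¬ KC A s) ≤ _ := hmono
    _ ≤ _ := Pr_or hp0.le hp1 E _ _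
    _ ≤ _ := add_le_add_right (Pr_or hp0.le hp1 E _ _) _
    _ ≤ Real.exp (-3) + (Real.exp (-3) + Real.exp (-3)) := by
      refine add_le_add (le_trans P0 P0') (add_le_add P1 (le_trans P4 P4'))
    _ < 1 / 2 := by linarith

end Pool.Agent.MAC
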